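import Mathlib

/-!
Block sequences, the space `b(X)` of normalised block sequences over a countable field, and the
isomorphism relation `Is` on it.
-/

noncomputable section

namespace Run7.h157

open Set Filter Topology

section Defs

variable (𝕜 : Type*) [RCLike 𝕜] {X : Type*} [NormedAddCommGroup X] [NormedSpace 𝕜 X]

/-- `x` is a block sequence of `y`: `x k = ∑ i, c k i • y i` for nonzero finitely supported
coefficient vectors `c k` with `max supp (c k) < min supp (c (k+1))`. -/
def IsBlockSeq (y x : ℕ → X) : Prop :=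
  ∃ c : ℕ → ℕ →₀ 𝕜, (∀ k, c k ≠ 0) ∧
    (∀ k, ∀ i ∈ (c k).support, ∀ j ∈ (c (k + 1)).support, i < j) ∧
    ∀ k, x k = Finsupp.linearCombination 𝕜 y (c k)

/-- Two sequences are `C`-equivalent: `∑ a i • x i ↦ ∑ a i • y i` is a well defined isomorphism
between the linear spans, bounded by `C` in both directions. -/
def SeqEquivWith (C : ℝ) (x y : ℕ → X) : Prop :=
  ∀ a : ℕ →₀ 𝕜,
    ‖Finsupp.linearCombination 𝕜 x a‖ ≤ C * ‖Finsupp.linearCombination 𝕜 y a‖ ∧
    ‖Finsupp.linearCombination 𝕜 y a‖ ≤ C * ‖Finsupp.linearCombination 𝕜 x a‖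

/-- Two sequences are equivalent: they are `C`-equivalent for some `C`. -/
def SeqEquiv (x y : ℕ → X) : Prop := ∃ C : ℝ, SeqEquivWith 𝕜 C x y

/-- The closed linear span of a sequence. -/
def closedSpan (x : ℕ → X) : Submodule 𝕜 X := (Submodule.span 𝕜 (range x)).topologicalClosure

variable {𝕜}

/-- The set `Q₀` of norm one vectors among the finite `Q`-linear combinations of the `e i`. -/
def QZero (e : ℕ → X) (Q : Subfield 𝕜) : Type _ :=
  {v : X // ‖v‖ = 1 ∧ ∃ c : ℕ →₀ 𝕜, (∀ i, c i ∈ Q) ∧ v = Finsupp.linearCombination 𝕜 e c}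

/-- `Q₀` carries the discrete topology. -/
instance (e : ℕ → X) (Q : Subfield 𝕜) : TopologicalSpace (QZero e Q) := ⊥

instance (e : ℕ → X) (Q : Subfield 𝕜) : DiscreteTopology (QZero e Q) := ⟨rfl⟩

/-- The space `b(X)` of block sequences with all terms in `Q₀`, as a subspace of `Q₀ ^ ℕ`. -/
def BlockSpace (e : ℕ → X) (Q : Subfield 𝕜) : Type _ :=
  {x : ℕ → QZero e Q // IsBlockSeq 𝕜 e (fun k => (x k).1)}

instance (e : ℕ → X) (Q : Subfield 𝕜) : TopologicalSpace (BlockSpace e Q) :=
  inferInstanceAs (TopologicalSpace {x : ℕ → QZero e Q // IsBlockSeq 𝕜 e (fun k => (x k).1)})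

/-- The sequence of vectors of `X` underlying a point of `b(X)`. -/
def BlockSpace.seq {e : ℕ → X} {Q : Subfield 𝕜} (x : BlockSpace e Q) : ℕ → X :=
  fun k => (x.1 k).1

/-- The relation `Is`: the closed linear spans are linearly isomorphic. -/
def Is (e : ℕ → X) (Q : Subfield 𝕜) : Set (BlockSpace e Q × BlockSpace e Q) :=
  {p | Nonempty (closedSpan 𝕜 p.1.seq ≃L[𝕜] closedSpan 𝕜 p.2.seq)}

/-- `Q` is a countable field which contains `i` (in the complex case) and the norms of all
finite `Q`-linear combinations of the `e i`. -/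
structure IsAdmissible (e : ℕ → X) (Q : Subfield 𝕜) : Prop where
  /-- `Q` is countable -/
  countable : (Q : Set 𝕜).Countable
  /-- `Q` contains the imaginary unit (which is `0` in the real case) -/
  I_mem : (RCLike.I : 𝕜) ∈ Q
  /-- `Q` contains the norms of the finite `Q`-linear combinations of the `e i` -/
  norm_mem : ∀ c : ℕ →₀ 𝕜, (∀ i, c i ∈ Q) → ((‖Finsupp.linearCombination 𝕜 e c‖ : ℝ) : 𝕜) ∈ Q

end Defs

end Run7.h157
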