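import Mathlib
import Pool.Agent.Run7.h157.Defs

/-!
Basic facts on coefficient vectors, blocks and unconditional sequences.
-/

noncomputable section

namespace Run7.h157

open Set Filter Topology Finsupp

variable {𝕜 : Type*} [RCLike 𝕜] {X : Type*} [NormedAddCommGroup X] [NormedSpace 𝕜 X]

/-- linear combination -/
abbrev lc {Y : Type*} [AddCommGroup Y] [Module 𝕜 Y] (e : ℕ → Y) : (ℕ →₀ 𝕜) →ₗ[𝕜] Y :=
  Finsupp.linearCombination 𝕜 e

/-- top of the support (plus one) -/
def top (v : ℕ →₀ 𝕜) : ℕ := v.support.sup Nat.succ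

theorem lt_top {v : ℕ →₀ 𝕜} {i : ℕ} (h : i ∈ v.support) : i < top v :=
  Nat.lt_of_succ_le (Finset.le_sup (f := Nat.succ) h)

theorem top_le {v : ℕ →₀ 𝕜} {n : ℕ} (h : ∀ i ∈ v.support, i < n) : top v ≤ n :=
  Finset.sup_le (fun i hi => Nat.succ_le_of_lt (h i hi))

theorem exists_top_eq {v : ℕ →₀ 𝕜} (h : v ≠ 0) : ∃ i ∈ v.support, top v = i + 1 := by
  have hne : v.support.Nonempty := Finsupp.support_nonempty_iff.mpr h
  obtain ⟨i, hi, h2⟩ := Finset.exists_mem_eq_sup _ hne Nat.succ
  exact ⟨i, hi, h2⟩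

/-- `v` is supported on `[N, ∞)` -/
def Beyond (N : ℕ) (v : ℕ →₀ 𝕜) : Prop := ∀ i ∈ v.support, N ≤ i

theorem Beyond.mono {N M : ℕ} {v : ℕ →₀ 𝕜} (h : Beyond M v) (hNM : N ≤ M) : Beyond N v :=
  fun i hi => hNM.trans (h i hi)

theorem Beyond.lt_top {N : ℕ} {v : ℕ →₀ 𝕜} (h : Beyond N v) (hv : v ≠ 0) : N < top v := by
  obtain ⟨i, hi, h2⟩ := exists_top_eq hv
  have := h i hi
  omega

/-- the top of the previous vector -/
def prevTop (y : ℕ → ℕ →₀ 𝕜) : ℕ → ℕ
  | 0 => 0
  | (k + 1) => top (y k)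

@[simp] theorem prevTop_zero (y : ℕ → ℕ →₀ 𝕜) : prevTop y 0 = 0 := rfl
@[simp] theorem prevTop_succ (y : ℕ → ℕ →₀ 𝕜) (k : ℕ) : prevTop y (k + 1) = top (y k) := rfl

/-- a block sequence of coefficient vectors -/
def IsBlock (y : ℕ → ℕ →₀ 𝕜) : Prop := ∀ k, y k ≠ 0 ∧ Beyond (prevTop y k) (y k)

theorem IsBlock.prevTop_lt {y : ℕ → ℕ →₀ 𝕜} (h : IsBlock y) (k : ℕ) :
    prevTop y k < prevTop y (k + 1) := (h k).2.lt_top (h k).1

theorem IsBlock.strictMono {y : ℕ → ℕ →₀ 𝕜} (h : IsBlock y) : StrictMono (prevTop y) :=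
  strictMono_nat_of_lt_succ h.prevTop_lt

theorem IsBlock.lt {y : ℕ → ℕ →₀ 𝕜} (h : IsBlock y) {j k : ℕ} (hjk : j < k) {i i' : ℕ}
    (hi : i ∈ (y j).support) (hi' : i' ∈ (y k).support) : i < i' := by
  have h1 : i < prevTop y (j + 1) := lt_top hi
  have h2 : prevTop y (j + 1) ≤ prevTop y k := h.strictMono.monotone hjk
  have h3 := (h k).2 i' hi'
  omega

theorem IsBlock.disjoint {y : ℕ → ℕ →₀ 𝕜} (h : IsBlock y) {j k : ℕ} (hjk : j ≠ k) {i : ℕ}
    (hi : i ∈ (y j).support) : i ∉ (y k).support := by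
  intro hi'
  rcases lt_or_gt_of_ne hjk with hlt | hlt
  · exact absurd (h.lt hlt hi hi') (lt_irrefl _)
  · exact absurd (h.lt hlt hi' hi) (lt_irrefl _)

/-- composition of linear combinations -/
theorem lc_lc {Y : Type*} [AddCommGroup Y] [Module 𝕜 Y] (e : ℕ → Y) (y : ℕ → ℕ →₀ 𝕜)
    (a : ℕ →₀ 𝕜) :
    lc e (lc y a) = lc (fun k => lc e (y k)) a := by
  simp only [lc]
  rw [Finsupp.apply_linearCombination]
  rfl

theorem lc_congr {Y : Type*} [AddCommGroup Y] [Module 𝕜 Y] {y y' : ℕ → Y} {a : ℕ →₀ 𝕜}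
    (h : ∀ i ∈ a.support, y i = y' i) : lc y a = lc y' a := by
  simp only [lc, Finsupp.linearCombination_apply, Finsupp.sum]
  exact Finset.sum_congr rfl (fun i hi => by rw [h i hi])

/-- the projection identity for disjointly supported vectors -/
theorem filter_lc {y : ℕ → ℕ →₀ 𝕜}
    (hy : ∀ j k, j ≠ k → ∀ i ∈ (y j).support, i ∉ (y k).support) (J : Set ℕ)
    [DecidablePred (· ∈ J)] (a : ℕ →₀ 𝕜) [DecidablePred (· ∈ ⋃ j ∈ J, ((y j).support : Set ℕ))] :
    (lc y a).filter (· ∈ ⋃ j ∈ J, ((y j).support : Set ℕ)) = lc y (a.filter (· ∈ J)) := by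
  classical
  ext i
  by_cases hi : i ∈ ⋃ j ∈ J, ((y j).support : Set ℕ)
  · rw [Finsupp.filter_apply_pos _ _ hi]
    simp only [mem_iUnion, Finset.mem_coe, exists_prop] at hi
    obtain ⟨j, hj, hij⟩ := hi
    have h1 : ∀ b : ℕ →₀ 𝕜, (lc y b) i = b j * (y j) i := by
      intro b
      simp only [lc, Finsupp.linearCombination_apply, Finsupp.sum, Finsupp.finsetSum_apply,
        Finsupp.smul_apply, smul_eq_mul]
      by_cases hb : j ∈ b.support
      · rw [Finset.sum_eq_single j]
        · intro k _ hk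
          have := hy j k (Ne.symm hk) i hij
          rw [Finsupp.notMem_support_iff] at this
          simp [this]
        · intro h; exact absurd hb h
      · rw [Finset.sum_eq_zero]
        · rw [Finsupp.notMem_support_iff] at hb
          simp [hb]
        · intro k hk
          have hkj : k ≠ j := fun h => hb (h ▸ hk)
          have := hy j k (Ne.symm hkj) i hij
          rw [Finsupp.notMem_support_iff] at this
          simp [this]
    rw [h1, h1, Finsupp.filter_apply_pos _ _ hj]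
  · rw [Finsupp.filter_apply_neg _ _ hi]
    simp only [mem_iUnion, Finset.mem_coe, exists_prop, not_exists, not_and] at hi
    symm
    simp only [lc, Finsupp.linearCombination_apply, Finsupp.sum, Finsupp.finsetSum_apply,
      Finsupp.smul_apply, smul_eq_mul]
    apply Finset.sum_eq_zero
    intro k hk
    have hkJ : k ∈ J := by
      by_contra hkJ
      rw [Finsupp.mem_support_iff, Finsupp.filter_apply_neg _ _ hkJ] at hk
      exact hk rfl
    have := hi k hkJ
    rw [Finsupp.notMem_support_iff] at this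
    simp [this]

/-- `e` is an unconditional basic sequence with suppression constant `K` (all projections on
sets of coordinates are bounded by `K`), with nonzero terms. -/
structure Uncond (𝕜 : Type*) [RCLike 𝕜] {X : Type*} [NormedAddCommGroup X] [NormedSpace 𝕜 X]
    (K : ℝ) (e : ℕ → X) : Prop where
  one_le : 1 ≤ K
  ne_zero : ∀ i, e i ≠ 0
  proj : ∀ (a : ℕ →₀ 𝕜) (A : Set ℕ) [DecidablePred (· ∈ A)],
    ‖lc e (a.filter (· ∈ A))‖ ≤ K * ‖lc e a‖

theorem Uncond.coord {K : ℝ} {e : ℕ → X} (h : Uncond 𝕜 K e) (a : ℕ →₀ 𝕜) (i : ℕ) :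
    ‖a i‖ * ‖e i‖ ≤ K * ‖lc e a‖ := by
  classical
  have h1 := h.proj a {i}
  have h2 : a.filter (· ∈ ({i} : Set ℕ)) = Finsupp.single i (a i) := by
    ext j
    by_cases hj : j = i
    · subst hj
      rw [Finsupp.filter_apply_pos _ _ (by simp)]
      simp
    · rw [Finsupp.filter_apply_neg _ _ (by simpa using hj), Finsupp.single_apply, if_neg]
      exact fun h => hj h.symm
  rw [h2] at h1
  simpa [lc, norm_smul] using h1

theorem Uncond.injective {K : ℝ} {e : ℕ → X} (h : Uncond 𝕜 K e) {a : ℕ →₀ 𝕜}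
    (ha : lc e a = 0) : a = 0 := by
  ext i
  have h1 := h.coord a i
  rw [ha, norm_zero, mul_zero] at h1
  have h2 : 0 < ‖e i‖ := norm_pos_iff.mpr (h.ne_zero i)
  have h3 : ‖a i‖ ≤ 0 := by
    by_contra h4
    push Not at h4
    have := mul_pos h4 h2
    linarith
  simpa using h3

theorem Uncond.lc_injective {K : ℝ} {e : ℕ → X} (h : Uncond 𝕜 K e) :
    Function.Injective (lc (𝕜 := 𝕜) e) := by
  rw [injective_iff_map_eq_zero]
  intro a ha
  exact h.injective ha

/-- block sequences of an unconditional sequence are unconditional with the same constant -/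
theorem Uncond.block {K : ℝ} {e : ℕ → X} (h : Uncond 𝕜 K e) {y : ℕ → ℕ →₀ 𝕜} (hy : IsBlock y) :
    Uncond 𝕜 K (fun k => lc e (y k)) where
  one_le := h.one_le
  ne_zero := fun i hi => (hy i).1 (h.injective hi)
  proj := by
    intro a A _
    classical
    rw [← lc_lc, ← lc_lc, ← filter_lc (fun j k hjk i hi => hy.disjoint hjk hi) A a]
    exact h.proj _ _

/-- bounded nonnegative multipliers, convexity argument -/
theorem norm_sum_mult_le {ι : Type*} (s : Finset ι) (v : ι → X) (lam : ι → ℝ)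
    (h0 : ∀ i ∈ s, 0 ≤ lam i) (h1 : ∀ i ∈ s, lam i ≤ 1) (M : ℝ) :
    ∀ w : X, (∀ A ⊆ s, ‖w + ∑ i ∈ A, v i‖ ≤ M) →
    ‖w + ∑ i ∈ s, (lam i : 𝕜) • v i‖ ≤ M := by
  classical
  induction s using Finset.induction_on with
  | empty =>
    intro w hw
    simpa using hw ∅ (Finset.Subset.refl _)
  | insert j s hj ih =>
    intro w hw
    have ih' := ih (fun i hi => h0 i (Finset.mem_insert_of_mem hi))
      (fun i hi => h1 i (Finset.mem_insert_of_mem hi))
    have hA : ‖w + ∑ i ∈ s, (lam i : 𝕜) • v i‖ ≤ M := by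
      apply ih'
      intro A hA
      exact hw A (hA.trans (Finset.subset_insert _ _))
    have hB : ‖(w + v j) + ∑ i ∈ s, (lam i : 𝕜) • v i‖ ≤ M := by
      apply ih'
      intro A hA
      have h2 := hw (insert j A) (Finset.insert_subset_insert _ hA)
      rw [Finset.sum_insert (fun h => hj (hA h))] at h2
      rw [add_assoc]
      exact h2
    have h0j := h0 j (Finset.mem_insert_self _ _)
    have h1j := h1 j (Finset.mem_insert_self _ _)
    have key : w + ∑ i ∈ insert j s, (lam i : 𝕜) • v i =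
        ((1 - lam j : ℝ) : 𝕜) • (w + ∑ i ∈ s, (lam i : 𝕜) • v i) +
        ((lam j : ℝ) : 𝕜) • ((w + v j) + ∑ i ∈ s, (lam i : 𝕜) • v i) := by
      rw [Finset.sum_insert hj]
      push_cast
      module
    rw [key]
    calc _ ≤ ‖((1 - lam j : ℝ) : 𝕜) • (w + ∑ i ∈ s, (lam i : 𝕜) • v i)‖ +
          ‖((lam j : ℝ) : 𝕜) • ((w + v j) + ∑ i ∈ s, (lam i : 𝕜) • v i)‖ := norm_add_le _ _
      _ ≤ (1 - lam j) * M + lam j * M := by
          rw [norm_smul, norm_smul, RCLike.norm_ofReal, RCLike.norm_ofReal,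
            abs_of_nonneg h0j, abs_of_nonneg (by linarith : (0:ℝ) ≤ 1 - lam j)]
          gcongr
      _ = M := by ring

/-- bounded nonnegative multipliers -/
theorem Uncond.mult {K : ℝ} {e : ℕ → X} (h : Uncond 𝕜 K e) (lam : ℕ → ℝ) {R : ℝ} (hR : 0 < R)
    (h0 : ∀ i, 0 ≤ lam i) (h1 : ∀ i, lam i ≤ R) (a : ℕ →₀ 𝕜) :
    ‖∑ i ∈ a.support, ((lam i : 𝕜) * a i) • e i‖ ≤ K * R * ‖lc e a‖ := by
  classical
  have key := norm_sum_mult_le (𝕜 := 𝕜) a.support (fun i => a i • e i) (fun i => lam i / R)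
    (fun i _ => div_nonneg (h0 i) hR.le) (fun i _ => (div_le_one hR).mpr (h1 i))
    (K * ‖lc e a‖) 0 (by
      intro A hA
      have h2 := h.proj a (A : Set ℕ)
      rw [zero_add]
      convert h2 using 2
      simp only [lc, Finsupp.linearCombination_apply, Finsupp.sum]
      have : (a.filter (· ∈ (A : Set ℕ))).support = A := by
        ext i
        simp only [Finsupp.support_filter, Finset.mem_coe, Finset.mem_filter]
        exact ⟨fun h => h.2, fun h => ⟨hA h, h⟩⟩
      rw [this]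
      apply Finset.sum_congr rfl
      intro i hi
      rw [Finsupp.filter_apply_pos _ _ (by simpa using hi)])
  rw [zero_add] at key
  have h3 : ∑ i ∈ a.support, ((lam i : 𝕜) * a i) • e i =
      (R : 𝕜) • ∑ i ∈ a.support, ((lam i / R : ℝ) : 𝕜) • (a i • e i) := by
    rw [Finset.smul_sum]
    apply Finset.sum_congr rfl
    intro i _
    rw [smul_smul, smul_smul]
    congr 1
    push_cast
    have : (R : 𝕜) ≠ 0 := by exact_mod_cast hR.ne'
    field_simp
  rw [h3, norm_smul, RCLike.norm_ofReal, abs_of_pos hR]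
  calc R * _ ≤ R * (K * ‖lc e a‖) := by gcongr
    _ = _ := by ring

/-- an unconditional Schauder basis of a Banach space is `Uncond` for some constant -/
theorem exists_uncond [CompleteSpace X] (b : UnconditionalSchauderBasis ℕ 𝕜 X) :
    ∃ K, Uncond 𝕜 K (b : ℕ → X) := by
  obtain ⟨C, hC⟩ := UnconditionalSchauderBasis.exists_norm_proj_le b
  refine ⟨max C 1, le_max_right _ _, ?_, ?_⟩
  · intro i hi
    have h1 := b.ortho i i
    rw [hi, map_zero] at h1
    simp at h1
  · intro a A _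
    classical
    have h1 : lc b (a.filter (· ∈ A)) = b.proj (a.support.filter (· ∈ A)) (lc b a) := by
      rw [GeneralSchauderBasis.proj_apply]
      have h2 : ∀ i, b.coord i (lc b a) = a i := by
        intro i
        simp only [lc, Finsupp.linearCombination_apply, Finsupp.sum, map_sum, map_smul,
          smul_eq_mul, b.ortho, Pi.single_apply]
        simp only [mul_ite, mul_one, mul_zero, Finset.sum_ite_eq, Finsupp.mem_support_iff]
        by_cases h : a i = 0
        · simp [h]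
        · simp [h]
      simp only [h2]
      simp only [lc, Finsupp.linearCombination_apply, Finsupp.sum, Finsupp.support_filter]
      apply Finset.sum_congr rfl
      intro i hi
      rw [Finset.mem_filter] at hi
      rw [Finsupp.filter_apply_pos _ _ hi.2]
    rw [h1]
    calc _ ≤ ‖b.proj (a.support.filter (· ∈ A))‖ * ‖lc b a‖ := ContinuousLinearMap.le_opNorm _ _
      _ ≤ C * ‖lc b a‖ := by gcongr; exact hC _
      _ ≤ _ := by gcongr; exact le_max_left _ _

end Run7.h157
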