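import Mathlib
import Pool.Agent.Run7.h157.Basic

/-!
Uniformisation: if every subsequence of an unconditional sequence `e` has a block sequence
equivalent to `e` then, for one constant, arbitrarily fast block sequences are equivalent to `e`.
-/

noncomputable section

namespace Run7.h157

open Set Filter Topology Finsupp

variable {𝕜 : Type*} [RCLike 𝕜] {X : Type*} [NormedAddCommGroup X] [NormedSpace 𝕜 X]

/-- quantitative equivalence of a sequence of coefficient vectors with `e` -/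
def EqC (e : ℕ → X) (C : ℝ) (y : ℕ → ℕ →₀ 𝕜) : Prop :=
  ∀ a : ℕ →₀ 𝕜, ‖lc e (lc y a)‖ ≤ C * ‖lc e a‖ ∧ ‖lc e a‖ ≤ C * ‖lc e (lc y a)‖

variable (𝕜) in
/-- every subsequence has a block sequence equivalent to `e` (coefficient form) -/
def HypH (e : ℕ → X) : Prop :=
  ∀ n : ℕ → ℕ, StrictMono n → ∃ y : ℕ → ℕ →₀ 𝕜, IsBlock y ∧
    (∀ k, ∀ i ∈ (y k).support, i ∈ Set.range n) ∧ ∃ C, EqC e C y

variable (𝕜) in
/-- fast sequences equivalent to the `m`-th tail of `e` -/
def TailProp (e : ℕ → X) (m : ℕ) : Prop :=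
  ∀ M : ℕ → ℕ, ∃ y : ℕ → ℕ →₀ 𝕜, (∀ k, m ≤ k → y k ≠ 0) ∧ Beyond (M 0) (y m) ∧
    (∀ k, m ≤ k → Beyond (M (top (y k))) (y (k + 1))) ∧
    ∀ a : ℕ →₀ 𝕜, Beyond m a → ‖lc e (lc y a)‖ ≤ m * ‖lc e a‖ ∧ ‖lc e a‖ ≤ m * ‖lc e (lc y a)‖

/-- a monotone majorant -/
def up (M : ℕ → ℕ) (n : ℕ) : ℕ := n + ∑ k ∈ Finset.range (n + 1), M k

theorem le_up (M : ℕ → ℕ) (n : ℕ) : M n ≤ up M n := by
  unfold up
  have : M n ≤ ∑ k ∈ Finset.range (n + 1), M k :=
    Finset.single_le_sum (f := M) (fun i _ => Nat.zero_le _) (Finset.self_mem_range_succ n)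
  omega

theorem le_up_of_le (M : ℕ → ℕ) {k n : ℕ} (h : k ≤ n) : M k ≤ up M n := by
  unfold up
  have : M k ≤ ∑ k ∈ Finset.range (n + 1), M k :=
    Finset.single_le_sum (f := M) (fun i _ => Nat.zero_le _)
      (Finset.mem_range.mpr (Nat.lt_succ_of_le h))
  omega

theorem self_le_up (M : ℕ → ℕ) (n : ℕ) : n ≤ up M n := by
  unfold up; omega

theorem up_mono (M : ℕ → ℕ) : Monotone (up M) := by
  intro a b h
  unfold up
  have : ∑ k ∈ Finset.range (a + 1), M k ≤ ∑ k ∈ Finset.range (b + 1), M k :=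
    Finset.sum_le_sum_of_subset (Finset.range_subset_range.mpr (by omega))
  omega

theorem exists_tailProp {e : ℕ → X} (h : HypH 𝕜 e) : ∃ m, TailProp 𝕜 e m := by
  by_contra hcon
  push Not at hcon
  have hcon' : ∀ m, ∃ M : ℕ → ℕ, ¬ ∃ y : ℕ → ℕ →₀ 𝕜, (∀ k, m ≤ k → y k ≠ 0) ∧ Beyond (M 0) (y m) ∧
    (∀ k, m ≤ k → Beyond (M (top (y k))) (y (k + 1))) ∧
    ∀ a : ℕ →₀ 𝕜, Beyond m a → ‖lc e (lc y a)‖ ≤ m * ‖lc e a‖ ∧ ‖lc e a‖ ≤ m * ‖lc e (lc y a)‖ := by
    intro m
    have := hcon m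
    unfold TailProp at this
    exact not_forall.mp this
  choose M hM using hcon'
  -- dominating function
  let D : ℕ → ℕ := fun n => n + 1 + ∑ m ∈ Finset.range (n + 1), ∑ k ∈ Finset.range (n + 1), M m k
  have hD : ∀ m k n, m ≤ n → k ≤ n → M m k ≤ D n := by
    intro m k n hm hk
    have h1 : M m k ≤ ∑ k ∈ Finset.range (n + 1), M m k :=
      Finset.single_le_sum (f := M m) (fun i _ => Nat.zero_le _)
        (Finset.mem_range.mpr (Nat.lt_succ_of_le hk))
    have h2 : ∑ k ∈ Finset.range (n + 1), M m k ≤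
        ∑ m ∈ Finset.range (n + 1), ∑ k ∈ Finset.range (n + 1), M m k :=
      Finset.single_le_sum (f := fun m => ∑ k ∈ Finset.range (n + 1), M m k)
        (fun i _ => Nat.zero_le _) (Finset.mem_range.mpr (Nat.lt_succ_of_le hm))
    simp only [D]; omega
  have hD1 : ∀ n, n < D n := fun n => by simp only [D]; omega
  let n : ℕ → ℕ := fun k => Nat.rec 0 (fun _ r => D (r + 1)) k
  have hn : ∀ k, n (k + 1) = D (n k + 1) := fun k => rfl
  have hnmono : StrictMono n := strictMono_nat_of_lt_succ (fun k => by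
    rw [hn]; have := hD1 (n k + 1); omega)
  obtain ⟨y, hy, hyn, C, hC⟩ := h n hnmono
  -- positions of the supports
  have hpos : ∀ k, ∀ i ∈ (y k).support, ∃ j, k ≤ j ∧ i = n j := by
    intro k
    induction k with
    | zero =>
      intro i hi
      obtain ⟨j, hj⟩ := hyn 0 i hi
      exact ⟨j, Nat.zero_le _, hj.symm⟩
    | succ k ih =>
      intro i hi
      obtain ⟨j, hj⟩ := hyn (k + 1) i hi
      obtain ⟨i0, hi0⟩ := Finsupp.support_nonempty_iff.mpr (hy k).1
      obtain ⟨j0, hj0, rfl⟩ := ih i0 hi0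
      have hlt := hy.lt (Nat.lt_succ_self k) hi0 hi
      rw [← hj] at hlt
      have := hnmono.lt_iff_lt.mp hlt
      exact ⟨j, by omega, hj.symm⟩
  obtain ⟨m, hm⟩ := exists_nat_ge (max C 1)
  have hm1 : 1 ≤ m := by
    have : (1 : ℝ) ≤ m := (le_max_right _ _).trans hm
    exact_mod_cast this
  have hmC : C ≤ m := (le_max_left _ _).trans hm
  have hnk : ∀ k, k ≤ n k := fun k => hnmono.le_apply
  apply hM m
  refine ⟨y, fun k _ => (hy k).1, ?_, ?_, ?_⟩
  · intro i hi
    obtain ⟨j, hj, rfl⟩ := hpos m i hi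
    obtain ⟨m', rfl⟩ : ∃ m', m = m' + 1 := ⟨m - 1, by omega⟩
    have h1 : n (m' + 1) ≤ n j := hnmono.monotone hj
    have h2 : M (m' + 1) 0 ≤ D (n m' + 1) := hD _ _ _ (by have := hnk m'; omega) (Nat.zero_le _)
    rw [hn] at h1
    omega
  · intro k hk i hi
    obtain ⟨i0, hi0, htop⟩ := exists_top_eq (hy k).1
    obtain ⟨j0, hj0, rfl⟩ := hpos k i0 hi0
    obtain ⟨j, hj, rfl⟩ := hpos (k + 1) i hi
    have hlt := hy.lt (Nat.lt_succ_self k) hi0 hi
    have hjj := hnmono.lt_iff_lt.mp hlt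
    have h1 : n (j0 + 1) ≤ n j := hnmono.monotone hjj
    rw [htop]
    have h2 : M m (n j0 + 1) ≤ D (n j0 + 1) := hD _ _ _ (by have := hnk j0; omega) le_rfl
    rw [hn] at h1
    omega
  · intro a _
    obtain ⟨h1, h2⟩ := hC a
    constructor
    · exact h1.trans (by gcongr)
    · exact h2.trans (by gcongr)

/-- the uniformised statement -/
theorem uniform {K : ℝ} {e : ℕ → X} (he : Uncond 𝕜 K e) (h : HypH 𝕜 e) :
    ∃ C : ℝ, 1 ≤ C ∧ ∀ M : ℕ → ℕ, ∃ y : ℕ → ℕ →₀ 𝕜, IsBlock y ∧
      (∀ k, Beyond (M (prevTop y k)) (y k)) ∧ EqC e C y := by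
  classical
  obtain ⟨m, hm⟩ := exists_tailProp h
  have hK := he.one_le
  refine ⟨2 * m * K + 1, by nlinarith [Nat.cast_nonneg (α := ℝ) m], ?_⟩
  intro M
  let p : ℕ → ℕ := fun k => Nat.rec (up M 0) (fun _ r => up M (r + 1)) k
  have hp : ∀ k, p (k + 1) = up M (p k + 1) := fun k => rfl
  have hpmono : StrictMono p := strictMono_nat_of_lt_succ (fun k => by
    rw [hp]; have := self_le_up M (p k + 1); omega)
  obtain ⟨y, hy0, hy1, hy2, hy3⟩ := hm (fun n => up M (n + p m))
  have hne : ∀ i, (‖e i‖ : ℝ) ≠ 0 := fun i => norm_ne_zero_iff.mpr (he.ne_zero i)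
  let w : ℕ → ℕ →₀ 𝕜 := fun k =>
    if k < m then Finsupp.single (p k) ((‖e k‖ / ‖e (p k)‖ : ℝ) : 𝕜) else y k
  have hw1 : ∀ k, k < m → w k = Finsupp.single (p k) ((‖e k‖ / ‖e (p k)‖ : ℝ) : 𝕜) :=
    fun k hk => by simp only [w, if_pos hk]
  have hw2 : ∀ k, m ≤ k → w k = y k := fun k hk => by simp only [w, if_neg (not_lt.mpr hk)]
  have hcoef : ∀ k, (((‖e k‖ / ‖e (p k)‖ : ℝ) : 𝕜)) ≠ 0 := fun k => by
    have : (‖e k‖ / ‖e (p k)‖ : ℝ) ≠ 0 := div_ne_zero (hne _) (hne _)
    exact_mod_cast this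
  have hwtop : ∀ k, k < m → top (w k) = p k + 1 := by
    intro k hk
    rw [hw1 k hk]
    unfold top
    rw [Finsupp.support_single _ (hcoef k), Finset.sup_singleton]
  have hwbey : ∀ k, k < m → ∀ N, N ≤ p k → Beyond N (w k) := by
    intro k hk N hN i hi
    rw [hw1 k hk, Finsupp.support_single _ (hcoef k), Finset.mem_singleton] at hi
    rw [hi]; exact hN
  have hwne : ∀ k, w k ≠ 0 := by
    intro k
    by_cases hk : k < m
    · rw [hw1 k hk]
      exact Finsupp.single_ne_zero.mpr (hcoef k)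
    · rw [hw2 k (not_lt.mp hk)]
      exact hy0 k (not_lt.mp hk)
  have hfast : ∀ k, Beyond (up M (prevTop w k)) (w k) := by
    intro k
    cases k with
    | zero =>
      by_cases hk : 0 < m
      · exact hwbey 0 hk _ le_rfl
      · have hm0 : m = 0 := by omega
        subst hm0
        rw [hw2 0 le_rfl]
        apply hy1.mono
        simp only [prevTop_zero]
        exact up_mono M (Nat.zero_le _)
    | succ k =>
      rw [prevTop_succ]
      by_cases hk : k + 1 < m
      · apply hwbey (k + 1) hk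
        rw [hwtop k (by omega), hp]
      · by_cases hk2 : k < m
        · have hkm : m = k + 1 := by omega
          rw [hwtop k hk2]
          rw [hkm] at hy1
          rw [hw2 (k + 1) (by omega)]
          apply hy1.mono
          apply up_mono
          have := hpmono (Nat.lt_succ_self k)
          simp only [Nat.succ_eq_add_one] at this
          omega
        · rw [hw2 k (by omega), hw2 (k + 1) (by omega)]
          apply (hy2 k (by omega)).mono
          apply up_mono
          omega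
  have hblock : IsBlock w := fun k => ⟨hwne k, (hfast k).mono (self_le_up _ _)⟩
  refine ⟨w, hblock, fun k => (hfast k).mono (le_up _ _), ?_⟩
  have hW := he.block hblock
  intro a
  -- decompose
  have hdec : a = a.filter (· ∈ {i | i < m}) + a.filter (· ∈ {i | i < m}ᶜ) := by
    ext i
    by_cases hi : i < m
    · rw [Finsupp.add_apply, Finsupp.filter_apply_pos _ _ (by simpa using hi),
        Finsupp.filter_apply_neg _ _ (by simpa using hi), add_zero]
    · rw [Finsupp.add_apply, Finsupp.filter_apply_neg _ _ (by simpa using hi),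
        Finsupp.filter_apply_pos _ _ (by simpa using hi), zero_add]
  set a1 := a.filter (· ∈ {i | i < m}) with ha1
  set a2 := a.filter (· ∈ {i | i < m}ᶜ) with ha2
  have ha2b : Beyond m a2 := by
    intro i hi
    rw [ha2, Finsupp.support_filter, Finset.mem_filter] at hi
    simpa using hi.2
  have ha2w : lc w a2 = lc y a2 := lc_congr (fun i hi => hw2 i (ha2b i hi))
  have hcard : (a1.support.card : ℝ) ≤ m := by
    have h1 : a1.support ⊆ Finset.range m := by
      intro i hi
      rw [ha1, Finsupp.support_filter, Finset.mem_filter] at hi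
      simpa using hi.2
    have := Finset.card_le_card h1
    rw [Finset.card_range] at this
    exact_mod_cast this
  have hnw : ∀ i, i < m → ‖lc e (w i)‖ = ‖e i‖ := by
    intro i hi
    rw [hw1 i hi]
    simp only [lc, Finsupp.linearCombination_single, norm_smul, RCLike.norm_ofReal]
    rw [abs_of_nonneg (by positivity)]
    field_simp [hne]
  have hcoord1 : ∀ i ∈ a1.support, i < m := by
    intro i hi
    rw [ha1, Finsupp.support_filter, Finset.mem_filter] at hi
    simpa using hi.2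
  obtain ⟨h1, h2⟩ := hy3 a2 ha2b
  have ha2K : ‖lc e a2‖ ≤ K * ‖lc e a‖ := he.proj a _
  have hwa2K : ‖lc e (lc w a2)‖ ≤ K * ‖lc e (lc w a)‖ := by
    have := hW.proj a {i | i < m}ᶜ
    rw [← lc_lc, ← lc_lc] at this
    exact this
  have hKa : 0 ≤ K * ‖lc e a‖ := by positivity
  have hKwa : 0 ≤ K * ‖lc e (lc w a)‖ := by positivity
  have hm0 : (0 : ℝ) ≤ m := Nat.cast_nonneg m
  constructor
  · have e1 : ‖lc e (lc w a1)‖ ≤ m * (K * ‖lc e a‖) := by
      rw [lc_lc]
      simp only [lc, Finsupp.linearCombination_apply, Finsupp.sum]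
      calc _ ≤ ∑ i ∈ a1.support, ‖a1 i • lc e (w i)‖ := norm_sum_le _ _
        _ ≤ ∑ i ∈ a1.support, K * ‖lc e a‖ := by
            apply Finset.sum_le_sum
            intro i hi
            have hi' := hcoord1 i hi
            have : a1 i = a i := by
              rw [ha1, Finsupp.filter_apply_pos _ _ (by simpa using hi')]
            rw [norm_smul, hnw i hi', this]
            exact he.coord a i
        _ = (a1.support.card : ℝ) * (K * ‖lc e a‖) := by rw [Finset.sum_const, nsmul_eq_mul]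
        _ ≤ m * (K * ‖lc e a‖) := by gcongr
    have e2 : ‖lc e (lc w a2)‖ ≤ m * (K * ‖lc e a‖) := by
      rw [ha2w]
      exact h1.trans (by gcongr)
    calc ‖lc e (lc w a)‖ = ‖lc e (lc w a1) + lc e (lc w a2)‖ := by
          rw [← map_add, ← map_add, ← hdec]
      _ ≤ ‖lc e (lc w a1)‖ + ‖lc e (lc w a2)‖ := norm_add_le _ _
      _ ≤ (2 * m * K + 1) * ‖lc e a‖ := by nlinarith [norm_nonneg (lc e a)]
  · have e1 : ‖lc e a1‖ ≤ m * (K * ‖lc e (lc w a)‖) := by
      simp only [lc, Finsupp.linearCombination_apply, Finsupp.sum]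
      calc _ ≤ ∑ i ∈ a1.support, ‖a1 i • e i‖ := norm_sum_le _ _
        _ ≤ ∑ i ∈ a1.support, K * ‖lc e (lc w a)‖ := by
            apply Finset.sum_le_sum
            intro i hi
            have hi' := hcoord1 i hi
            have h3 : a1 i = a i := by
              rw [ha1, Finsupp.filter_apply_pos _ _ (by simpa using hi')]
            have h4 := hW.coord a i
            rw [hnw i hi', ← lc_lc] at h4
            rw [norm_smul, h3]
            exact h4
        _ = (a1.support.card : ℝ) * (K * ‖lc e (lc w a)‖) := by rw [Finset.sum_const, nsmul_eq_mul]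
        _ ≤ m * (K * ‖lc e (lc w a)‖) := by gcongr
    have e2 : ‖lc e a2‖ ≤ m * (K * ‖lc e (lc w a)‖) := by
      refine h2.trans ?_
      rw [← ha2w]
      gcongr
    calc ‖lc e a‖ = ‖lc e a1 + lc e a2‖ := by rw [← map_add, ← hdec]
      _ ≤ ‖lc e a1‖ + ‖lc e a2‖ := norm_add_le _ _
      _ ≤ (2 * m * K + 1) * ‖lc e (lc w a)‖ := by nlinarith [norm_nonneg (lc e (lc w a))]

end Run7.h157
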