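import Mathlib
import Pool.Agent.Run7.h157.Unif

/-!
Finite nets of coefficient vectors over the field `Q`.
-/

noncomputable section

namespace Run7.h157

open Set Filter Topology Finsupp

variable {𝕜 : Type*} [RCLike 𝕜] {X : Type*} [NormedAddCommGroup X] [NormedSpace 𝕜 X]

theorem dense_subfield (Q : Subfield 𝕜) (hI : (RCLike.I : 𝕜) ∈ Q) (z : 𝕜) {ε : ℝ} (hε : 0 < ε) :
    ∃ x ∈ Q, ‖z - x‖ < ε := by
  obtain ⟨p, hp1, hp2⟩ := exists_rat_btwn (show RCLike.re z - ε / 2 < RCLike.re z + ε / 2 by linarith)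
  obtain ⟨q, hq1, hq2⟩ := exists_rat_btwn (show RCLike.im z - ε / 2 < RCLike.im z + ε / 2 by linarith)
  refine ⟨(p : 𝕜) + (q : 𝕜) * RCLike.I, Q.add_mem (SubfieldClass.ratCast_mem Q p)
    (Q.mul_mem (SubfieldClass.ratCast_mem Q q) hI), ?_⟩
  have h1 : z - ((p : 𝕜) + (q : 𝕜) * RCLike.I) =
      ((RCLike.re z - p : ℝ) : 𝕜) + ((RCLike.im z - q : ℝ) : 𝕜) * RCLike.I := by
    conv_lhs => rw [← RCLike.re_add_im z]
    push_cast
    ring
  rw [h1]
  calc _ ≤ ‖((RCLike.re z - p : ℝ) : 𝕜)‖ + ‖((RCLike.im z - q : ℝ) : 𝕜) * RCLike.I‖ :=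
        norm_add_le _ _
    _ ≤ |RCLike.re z - p| + |RCLike.im z - q| := by
        rw [norm_mul, RCLike.norm_ofReal, RCLike.norm_ofReal]
        have : ‖(RCLike.I : 𝕜)‖ ≤ 1 := by
          by_cases h0 : (RCLike.I : 𝕜) = 0
          · rw [h0, norm_zero]; exact zero_le_one
          · rw [RCLike.norm_I_of_ne_zero h0]
        gcongr
        nlinarith [abs_nonneg (RCLike.im z - (q : ℝ))]
    _ < ε := by
        have ha : |RCLike.re z - (p : ℝ)| < ε / 2 := by
          rw [abs_lt]; constructor <;> linarith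
        have hb : |RCLike.im z - (q : ℝ)| < ε / 2 := by
          rw [abs_lt]; constructor <;> linarith
        linarith

theorem exists_net (Q : Subfield 𝕜) (hI : (RCLike.I : 𝕜) ∈ Q) (R : ℝ) {ε : ℝ} (hε : 0 < ε) :
    ∃ F : Finset 𝕜, (0 : 𝕜) ∈ F ∧ (∀ x ∈ F, x ∈ Q) ∧ ∀ t : 𝕜, ‖t‖ ≤ R → ∃ x ∈ F, ‖t - x‖ ≤ ε := by
  classical
  choose q hqQ hq using fun z : 𝕜 => dense_subfield Q hI z hε
  obtain ⟨s, _, hs2⟩ := (isCompact_closedBall (0 : 𝕜) R).elim_nhds_subcover
    (fun t => Metric.ball (q t) ε) (fun t _ => Metric.isOpen_ball.mem_nhds (by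
      rw [Metric.mem_ball, dist_eq_norm]; exact hq t))
  refine ⟨insert 0 (s.image q), Finset.mem_insert_self _ _, ?_, ?_⟩
  · intro x hx
    rcases Finset.mem_insert.mp hx with rfl | hx
    · exact Q.zero_mem
    · obtain ⟨t, _, rfl⟩ := Finset.mem_image.mp hx
      exact hqQ t
  · intro t ht
    have h1 := hs2 (show t ∈ Metric.closedBall (0 : 𝕜) R by simpa using ht)
    simp only [mem_iUnion, Metric.mem_ball, exists_prop] at h1
    obtain ⟨u, hu, hd⟩ := h1
    refine ⟨q u, Finset.mem_insert_of_mem (Finset.mem_image_of_mem _ hu), ?_⟩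
    rw [dist_eq_norm] at hd
    exact hd.le

omit [NormedSpace 𝕜 X] in
theorem exists_netFamily {e : ℕ → X} (he : ∀ i, e i ≠ 0) (Q : Subfield 𝕜)
    (hI : (RCLike.I : 𝕜) ∈ Q) {K C : ℝ} (hK : 1 ≤ K) (hC : 1 ≤ C) :
    ∃ Lam : ℕ → ℕ → Finset 𝕜, (∀ k i, (0 : 𝕜) ∈ Lam k i) ∧ (∀ k i, ∀ x ∈ Lam k i, x ∈ Q) ∧
      ∀ k i (t : 𝕜), ‖t‖ * ‖e i‖ ≤ K * C * ‖e k‖ →
        ∃ x ∈ Lam k i, ‖t - x‖ * ‖e i‖ ≤ ‖e k‖ / (2 * K * C) * (1 / 2) ^ (k + i + 2) := by
  have hpos : ∀ i, 0 < ‖e i‖ := fun i => norm_pos_iff.mpr (he i)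
  have h : ∀ k i, ∃ F : Finset 𝕜, (0 : 𝕜) ∈ F ∧ (∀ x ∈ F, x ∈ Q) ∧
      ∀ t : 𝕜, ‖t‖ ≤ K * C * ‖e k‖ / ‖e i‖ → ∃ x ∈ F,
        ‖t - x‖ ≤ ‖e k‖ / (2 * K * C) * (1 / 2) ^ (k + i + 2) / ‖e i‖ := by
    intro k i
    apply exists_net Q hI
    have := hpos k
    have := hpos i
    positivity
  choose Lam h0 hQ hnet using h
  refine ⟨Lam, h0, hQ, ?_⟩
  intro k i t ht
  obtain ⟨x, hx, hx2⟩ := hnet k i t (by rw [le_div_iff₀ (hpos i)]; exact ht)
  exact ⟨x, hx, by rwa [le_div_iff₀ (hpos i)] at hx2⟩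

/-- admissible sequences: netted block sequences, `C`-equivalent to `e` -/
structure Adm (Lam : ℕ → ℕ → Finset 𝕜) (e : ℕ → X) (C : ℝ) (y : ℕ → ℕ →₀ 𝕜) : Prop where
  mem : ∀ k i, y k i ∈ Lam k i
  block : IsBlock y
  eqC : EqC e C y

theorem geom_le (s : Finset ℕ) (r : ℕ) : ∑ i ∈ s, (1 / 2 : ℝ) ^ (r + i + 1) ≤ (1 / 2) ^ r := by
  have h1 : ∑ i ∈ s, (1 / 2 : ℝ) ^ (r + i + 1) = (1 / 2) ^ (r + 1) * ∑ i ∈ s, (1 / 2 : ℝ) ^ i := by
    rw [Finset.mul_sum]
    apply Finset.sum_congr rfl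
    intro i _
    rw [← pow_add]
    congr 1
    ring
  have h2 : ∑ i ∈ s, (1 / 2 : ℝ) ^ i ≤ 2 := by
    have := (summable_geometric_two).sum_le_tsum s (fun i _ => by positivity)
    rwa [tsum_geometric_two] at this
  rw [h1, pow_succ]
  have : (0 : ℝ) ≤ (1 / 2) ^ r := by positivity
  nlinarith

theorem exists_adm {K : ℝ} {e : ℕ → X} (he : Uncond 𝕜 K e) (Q : Subfield 𝕜)
    (hI : (RCLike.I : 𝕜) ∈ Q) (h : HypH 𝕜 e) :
    ∃ C : ℝ, 1 ≤ C ∧ ∃ Lam : ℕ → ℕ → Finset 𝕜, (∀ k i, ∀ x ∈ Lam k i, x ∈ Q) ∧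
      ∀ M : ℕ → ℕ, ∃ y : ℕ → ℕ →₀ 𝕜, Adm Lam e C y ∧ ∀ k, Beyond (M (prevTop y k)) (y k) := by
  classical
  obtain ⟨C, hC1, hC⟩ := uniform he h
  obtain ⟨Lam, h0, hQ, hnet⟩ := exists_netFamily he.ne_zero Q hI he.one_le hC1
  refine ⟨2 * C, by linarith, Lam, hQ, ?_⟩
  intro M
  obtain ⟨y, hy, hyM, hyC⟩ := hC (up M)
  have hK := he.one_le
  have hpos : ∀ i, 0 < ‖e i‖ := fun i => norm_pos_iff.mpr (he.ne_zero i)
  -- norm of y k
  have hyn : ∀ k, ‖lc e (y k)‖ ≤ C * ‖e k‖ := by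
    intro k
    have := (hyC (Finsupp.single k 1)).1
    simpa [lc] using this
  have hcoord : ∀ k i, ‖y k i‖ * ‖e i‖ ≤ K * C * ‖e k‖ := by
    intro k i
    calc _ ≤ K * ‖lc e (y k)‖ := he.coord _ _
      _ ≤ K * (C * ‖e k‖) := by gcongr; exact hyn k
      _ = _ := by ring
  choose x hxL hx using fun k i => hnet k i (y k i) (hcoord k i)
  let v : ℕ → ℕ →₀ 𝕜 := fun k => Finsupp.onFinset (y k).support
    (fun i => if i ∈ (y k).support then x k i else 0) (by
      intro i hi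
      by_contra h
      simp only [h, if_false] at hi
      exact hi rfl)
  have hv1 : ∀ k i, i ∈ (y k).support → v k i = x k i := by
    intro k i hi
    simp only [v, Finsupp.onFinset_apply, if_pos hi]
  have hv2 : ∀ k i, i ∉ (y k).support → v k i = 0 := by
    intro k i hi
    simp only [v, Finsupp.onFinset_apply, if_neg hi]
  have hvs : ∀ k, (v k).support ⊆ (y k).support := fun k => Finsupp.support_onFinset_subset
  have hdiff : ∀ k i, ‖(y k - v k) i‖ * ‖e i‖ ≤ ‖e k‖ / (2 * K * C) * (1 / 2) ^ (k + i + 2) := by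
    intro k i
    by_cases hi : i ∈ (y k).support
    · rw [Finsupp.sub_apply, hv1 k i hi]
      exact hx k i
    · rw [Finsupp.sub_apply, hv2 k i hi, Finsupp.notMem_support_iff.mp hi]
      simp only [sub_zero, norm_zero, zero_mul]
      have := hpos k
      positivity
  have hdn : ∀ k, ‖lc e (y k - v k)‖ ≤ ‖e k‖ / (2 * K * C) * (1 / 2) ^ (k + 1) := by
    intro k
    simp only [lc, Finsupp.linearCombination_apply, Finsupp.sum]
    calc _ ≤ ∑ i ∈ (y k - v k).support, ‖(y k - v k) i • e i‖ := norm_sum_le _ _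
      _ ≤ ∑ i ∈ (y k - v k).support, ‖e k‖ / (2 * K * C) * (1 / 2) ^ (k + 1 + i + 1) := by
          apply Finset.sum_le_sum
          intro i _
          rw [norm_smul, show k + 1 + i + 1 = k + i + 2 by ring]
          exact hdiff k i
      _ = ‖e k‖ / (2 * K * C) * ∑ i ∈ (y k - v k).support, (1 / 2) ^ (k + 1 + i + 1) := by
          rw [Finset.mul_sum]
      _ ≤ _ := by
          have := hpos k
          gcongr
          exact geom_le _ _
  have hperturb : ∀ a : ℕ →₀ 𝕜, ‖lc e (lc y a) - lc e (lc v a)‖ ≤ 1 / (2 * C) * ‖lc e a‖ := by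
    intro a
    have h1 : lc e (lc y a) - lc e (lc v a) = ∑ k ∈ a.support, a k • lc e (y k - v k) := by
      rw [lc_lc, lc_lc]
      simp only [lc, Finsupp.linearCombination_apply, Finsupp.sum]
      rw [← Finset.sum_sub_distrib]
      apply Finset.sum_congr rfl
      intro k _
      rw [← smul_sub]
      congr 1
      have := (map_sub (lc e) (y k) (v k))
      simp only [lc, Finsupp.linearCombination_apply, Finsupp.sum] at this
      exact this.symm
    rw [h1]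
    calc _ ≤ ∑ k ∈ a.support, ‖a k • lc e (y k - v k)‖ := norm_sum_le _ _
      _ ≤ ∑ k ∈ a.support, (1 / (2 * C) * ‖lc e a‖) * (1 / 2) ^ (0 + k + 1) := by
          apply Finset.sum_le_sum
          intro k _
          rw [norm_smul]
          calc ‖a k‖ * ‖lc e (y k - v k)‖ ≤ ‖a k‖ * (‖e k‖ / (2 * K * C) * (1 / 2) ^ (k + 1)) := by
                gcongr; exact hdn k
            _ = (‖a k‖ * ‖e k‖) / (2 * K * C) * (1 / 2) ^ (k + 1) := by ring
            _ ≤ (K * ‖lc e a‖) / (2 * K * C) * (1 / 2) ^ (k + 1) := by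
                have h10 := he.coord a k
                have h11 : (0 : ℝ) < 2 * K * C := by positivity
                have h12 : (‖a k‖ * ‖e k‖) / (2 * K * C) ≤ (K * ‖lc e a‖) / (2 * K * C) :=
                  div_le_div_of_nonneg_right h10 h11.le
                exact mul_le_mul_of_nonneg_right h12 (by positivity)
            _ = _ := by
                rw [zero_add]
                field_simp
      _ = (1 / (2 * C) * ‖lc e a‖) * ∑ k ∈ a.support, (1 / 2) ^ (0 + k + 1) := by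
          rw [Finset.mul_sum]
      _ ≤ (1 / (2 * C) * ‖lc e a‖) * (1 / 2) ^ 0 := by gcongr; exact geom_le _ _
      _ = _ := by ring
  have hvC : EqC e (2 * C) v := by
    intro a
    obtain ⟨h1, h2⟩ := hyC a
    have h3 := hperturb a
    have h4 : ‖lc e (lc v a)‖ ≤ ‖lc e (lc y a)‖ + ‖lc e (lc y a) - lc e (lc v a)‖ := by
      have := norm_sub_le (lc e (lc y a)) (lc e (lc y a) - lc e (lc v a))
      rwa [sub_sub_cancel] at this
    have h5 : ‖lc e (lc y a)‖ ≤ ‖lc e (lc v a)‖ + ‖lc e (lc y a) - lc e (lc v a)‖ := by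
      have := norm_add_le (lc e (lc v a)) (lc e (lc y a) - lc e (lc v a))
      rwa [add_sub_cancel] at this
    have hn := norm_nonneg (lc e a)
    have h6 : 1 / (2 * C) ≤ C := by
      rw [div_le_iff₀ (by linarith)]
      nlinarith
    have h7 : 1 / (2 * C) * ‖lc e a‖ ≤ C * ‖lc e a‖ := by gcongr
    constructor
    · linarith
    · have h8 : ‖lc e a‖ ≤ C * (‖lc e (lc v a)‖ + 1 / (2 * C) * ‖lc e a‖) :=
        h2.trans (by gcongr; linarith)
      have h9 : C * (1 / (2 * C) * ‖lc e a‖) = ‖lc e a‖ / 2 := by field_simp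
      rw [mul_add, h9] at h8
      linarith
  have hvne : ∀ k, v k ≠ 0 := by
    intro k hk
    have h1 := (hvC (Finsupp.single k 1)).2
    simp only [lc, Finsupp.linearCombination_single, one_smul, hk, map_zero, norm_zero,
      mul_zero] at h1
    exact absurd h1 (not_le.mpr (hpos k))
  have htop : ∀ k, prevTop v k ≤ prevTop y k := by
    intro k
    cases k with
    | zero => exact le_rfl
    | succ k =>
      rw [prevTop_succ, prevTop_succ]
      exact top_le (fun i hi => lt_top (hvs k hi))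
  refine ⟨v, ⟨?_, ?_, hvC⟩, ?_⟩
  · intro k i
    by_cases hi : i ∈ (y k).support
    · rw [hv1 k i hi]; exact hxL k i
    · rw [hv2 k i hi]; exact h0 k i
  · intro k
    refine ⟨hvne k, fun i hi => ?_⟩
    exact (htop k).trans ((hy k).2 i (hvs k hi))
  · intro k i hi
    have h1 := hyM k i (hvs k hi)
    have h2 : up M (prevTop v k) ≤ up M (prevTop y k) := up_mono M (htop k)
    have h3 := le_up M (prevTop v k)
    omega

end Run7.h157
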