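import Mathlib
import Pool.Agent.Run7.h157.Net

/-!
Good positions: finite sequences which have arbitrarily fast admissible continuations.
-/

noncomputable section

namespace Run7.h157

open Set Filter Topology Finsupp

variable {𝕜 : Type*} [RCLike 𝕜] {X : Type*} [NormedAddCommGroup X] [NormedSpace 𝕜 X]

/-- good positions -/
def Good (Lam : ℕ → ℕ → Finset 𝕜) (e : ℕ → X) (C : ℝ) (l : ℕ) (q : ℕ → ℕ →₀ 𝕜) : Prop :=
  ∀ M : ℕ → ℕ, ∃ y : ℕ → ℕ →₀ 𝕜, (∀ k, k < l → y k = q k) ∧ Adm Lam e C y ∧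
    ∀ k, l ≤ k → Beyond (M (prevTop y k)) (y k)

variable {Lam : ℕ → ℕ → Finset 𝕜} {e : ℕ → X} {C : ℝ}

theorem Good.congr {l : ℕ} {q q' : ℕ → ℕ →₀ 𝕜} (h : Good Lam e C l q)
    (hq : ∀ k, k < l → q k = q' k) : Good Lam e C l q' := by
  intro M
  obtain ⟨y, hy, h2⟩ := h M
  exact ⟨y, fun k hk => (hy k hk).trans (hq k hk), h2⟩

theorem finite_net (Lam : ℕ → ℕ → Finset 𝕜) (l n : ℕ) :
    {v : ℕ →₀ 𝕜 | (∀ i, v i ∈ Lam l i) ∧ top v ≤ n}.Finite := by
  have h1 : (Set.pi Set.univ (fun i : Fin n => (Lam l i : Set 𝕜))).Finite :=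
    Set.Finite.pi' (fun i => Finset.finite_toSet _) |>.subset (by
      intro f hf i
      exact hf i (Set.mem_univ _))
  refine Set.Finite.of_injOn (f := fun v : ℕ →₀ 𝕜 => fun i : Fin n => v i) ?_ ?_ h1
  · intro v hv i _
    exact hv.1 i
  · intro v hv w hw hvw
    ext i
    by_cases hi : i < n
    · exact congrFun hvw ⟨i, hi⟩
    · have h3 : i ∉ v.support := fun h => hi ((lt_top h).trans_le hv.2)
      have h4 : i ∉ w.support := fun h => hi ((lt_top h).trans_le hw.2)
      rw [Finsupp.notMem_support_iff.mp h3, Finsupp.notMem_support_iff.mp h4]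

theorem Good.extend_one {l : ℕ} {q : ℕ → ℕ →₀ 𝕜} (h : Good Lam e C l q) (N : ℕ) :
    ∃ v, Beyond N v ∧ Good Lam e C (l + 1) (Function.update q l v) := by
  classical
  by_contra hcon
  push Not at hcon
  have h1 : ∀ v : ℕ →₀ 𝕜, ∃ M : ℕ → ℕ, Beyond N v →
      ¬ ∃ y : ℕ → ℕ →₀ 𝕜, (∀ k, k < l + 1 → y k = Function.update q l v k) ∧ Adm Lam e C y ∧
      ∀ k, l + 1 ≤ k → Beyond (M (prevTop y k)) (y k) := by
    intro v
    by_cases hv : Beyond N v
    · have h2 := hcon v hv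
      unfold Good at h2
      obtain ⟨M, hM⟩ := not_forall.mp h2
      exact ⟨M, fun _ => hM⟩
    · exact ⟨id, fun h => absurd h hv⟩
  choose M hM using h1
  let D : ℕ → ℕ := fun n => N + ∑ v ∈ (finite_net Lam l n).toFinset, M v n
  obtain ⟨y, hyq, hya, hyM⟩ := h D
  have hbN : Beyond N (y l) := (hyM l le_rfl).mono (by simp only [D]; omega)
  refine hM (y l) hbN ⟨y, ?_, hya, ?_⟩
  · intro k hk
    by_cases hkl : k = l
    · subst hkl; simp
    · rw [Function.update_of_ne hkl]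
      exact hyq k (by omega)
  · intro k hk
    apply (hyM k (by omega)).mono
    have hmem : y l ∈ (finite_net Lam l (prevTop y k)).toFinset := by
      rw [Set.Finite.mem_toFinset]
      refine ⟨fun i => hya.mem l i, ?_⟩
      have : prevTop y (l + 1) ≤ prevTop y k := hya.block.strictMono.monotone hk
      exact this
    have h3 : M (y l) (prevTop y k) ≤
        ∑ v ∈ (finite_net Lam l (prevTop y k)).toFinset, M v (prevTop y k) :=
      Finset.single_le_sum (f := fun v => M v (prevTop y k)) (fun i _ => Nat.zero_le _) hmem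
    simp only [D]
    omega

theorem Good.extend_many {l : ℕ} {q : ℕ → ℕ →₀ 𝕜} (h : Good Lam e C l q) (N : ℕ) (r : ℕ) :
    ∃ q', Good Lam e C (l + r) q' ∧ (∀ k, k < l → q' k = q k) ∧
      ∀ k, l ≤ k → k < l + r → Beyond N (q' k) := by
  classical
  induction r with
  | zero => exact ⟨q, h, fun _ _ => rfl, fun k h1 h2 => absurd h2 (by omega)⟩
  | succ r ih =>
    obtain ⟨q', hq', h1, h2⟩ := ih
    obtain ⟨v, hv, hg⟩ := hq'.extend_one N
    refine ⟨_, hg, ?_, ?_⟩
    · intro k hk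
      rw [Function.update_of_ne (by omega)]
      exact h1 k hk
    · intro k hk1 hk2
      by_cases hkl : k = l + r
      · subst hkl; simpa using hv
      · rw [Function.update_of_ne hkl]
        exact h2 k hk1 (by omega)

theorem Good.extend {l : ℕ} {q : ℕ → ℕ →₀ 𝕜} (h : Good Lam e C l q) (N : ℕ) {l' : ℕ}
    (hl : l ≤ l') :
    ∃ q', Good Lam e C l' q' ∧ (∀ k, k < l → q' k = q k) ∧
      ∀ k, l ≤ k → k < l' → Beyond N (q' k) := by
  obtain ⟨r, rfl⟩ := Nat.exists_eq_add_of_le hl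
  exact h.extend_many N r

/-- sequences all of whose initial segments are good are `C`-equivalent to `e` -/
theorem eqC_of_good {y : ℕ → ℕ →₀ 𝕜} (h : ∀ k, ∃ l, k ≤ l ∧ Good Lam e C l y) : EqC e C y := by
  intro a
  obtain ⟨l, hl, hg⟩ := h (top a)
  obtain ⟨y', hy', ha, _⟩ := hg id
  have : lc y a = lc y' a := lc_congr (fun i hi => (hy' i ((lt_top hi).trans_le hl)).symm)
  rw [this]
  exact ha.eqC a

end Run7.h157
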