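import Mathlib
import Pool.Agent.Run7.h157.Good

/-!
The category argument in `b(X)`.
-/

noncomputable section

namespace Run7.h157

open Set Filter Topology Finsupp

variable {𝕜 : Type*} [RCLike 𝕜] {X : Type*} [NormedAddCommGroup X] [NormedSpace 𝕜 X]

/-- normalisation of a coefficient vector -/
def normVec (e : ℕ → X) (w : ℕ →₀ 𝕜) : ℕ →₀ 𝕜 := (((‖lc e w‖ : ℝ) : 𝕜)⁻¹) • w

theorem norm_normVec {e : ℕ → X} {w : ℕ →₀ 𝕜} (h : lc e w ≠ 0) : ‖lc e (normVec e w)‖ = 1 := by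
  unfold normVec
  rw [map_smul, norm_smul, norm_inv, RCLike.norm_ofReal, abs_of_nonneg (norm_nonneg _)]
  exact inv_mul_cancel₀ (norm_ne_zero_iff.mpr h)

theorem support_normVec {e : ℕ → X} {w : ℕ →₀ 𝕜} : (normVec e w).support ⊆ w.support :=
  Finsupp.support_smul

theorem normVec_ne_zero {e : ℕ → X} {w : ℕ →₀ 𝕜} (h : lc e w ≠ 0) : normVec e w ≠ 0 := by
  intro h0
  have := norm_normVec h
  rw [h0, map_zero, norm_zero] at this
  exact zero_ne_one this

theorem normVec_mem {e : ℕ → X} {Q : Subfield 𝕜} (hQ : IsAdmissible e Q) {w : ℕ →₀ 𝕜}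
    (hw : ∀ i, w i ∈ Q) (i : ℕ) : normVec e w i ∈ Q := by
  unfold normVec
  rw [Finsupp.smul_apply, smul_eq_mul]
  exact Q.mul_mem (Q.inv_mem (hQ.norm_mem w hw)) (hw i)

theorem top_mono {v w : ℕ →₀ 𝕜} (h : v.support ⊆ w.support) : top v ≤ top w :=
  top_le (fun _ hi => lt_top (h hi))

/-- the point of `Q₀` given by a coefficient vector -/
def mkQ {e : ℕ → X} {Q : Subfield 𝕜} (w : ℕ →₀ 𝕜) (hw : ∀ i, w i ∈ Q) (h1 : ‖lc e w‖ = 1) :
    QZero e Q := ⟨lc e w, h1, w, hw, rfl⟩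

theorem isBlockSeq_of_isBlock {e : ℕ → X} {c : ℕ → ℕ →₀ 𝕜} (hc : IsBlock c) :
    IsBlockSeq 𝕜 e (fun k => lc e (c k)) :=
  ⟨c, fun k => (hc k).1, fun k _ hi _ hj => hc.lt (Nat.lt_succ_self k) hi hj, fun _ => rfl⟩

theorem exists_coef {K : ℝ} {e : ℕ → X} (he : Uncond 𝕜 K e) {Q : Subfield 𝕜}
    (x : BlockSpace e Q) :
    ∃ c : ℕ → ℕ →₀ 𝕜, IsBlock c ∧ (∀ k i, c k i ∈ Q) ∧ ∀ k, x.seq k = lc e (c k) := by
  obtain ⟨c, hc0, hcs, hcx⟩ := x.2
  refine ⟨c, ?_, ?_, hcx⟩
  · intro k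
    refine ⟨hc0 k, ?_⟩
    cases k with
    | zero => intro i _; exact Nat.zero_le _
    | succ k =>
      intro j hj
      exact top_le (fun i hi => hcs k i hi j hj)
  · intro k i
    obtain ⟨c', hc', hc2⟩ := (x.1 k).2.2
    have : c k = c' := he.lc_injective ((hcx k).symm.trans hc2)
    rw [this]
    exact hc' i

theorem dense_of_agree {e : ℕ → X} {Q : Subfield 𝕜} {U : Set (BlockSpace e Q)}
    (h : ∀ (x0 : BlockSpace e Q) (m : ℕ), ∃ x ∈ U, ∀ k, k < m → x.1 k = x0.1 k) : Dense U := by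
  intro x0
  choose f hfU hf using h x0
  have hind : Topology.IsInducing (fun x : BlockSpace e Q => x.1) := ⟨rfl⟩
  refine mem_closure_of_tendsto (f := f) (b := atTop) ?_ (Eventually.of_forall hfU)
  rw [hind.tendsto_nhds_iff, tendsto_pi_nhds]
  intro k
  apply tendsto_const_nhds.congr'
  filter_upwards [eventually_gt_atTop k] with m hm
  exact (hf m k hm).symm

theorem isOpen_coord {e : ℕ → X} {Q : Subfield 𝕜} (P : ℕ → QZero e Q → Prop) :
    IsOpen {x : BlockSpace e Q | ∃ n, P n (x.1 n)} := by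
  have : {x : BlockSpace e Q | ∃ n, P n (x.1 n)} =
      ⋃ n, (fun x : BlockSpace e Q => x.1 n) ⁻¹' {v | P n v} := by
    ext x; simp
  rw [this]
  refine isOpen_iUnion (fun n => (isOpen_discrete _).preimage ?_)
  have h1 : Continuous (fun x : BlockSpace e Q => x.1) :=
    (show Topology.IsInducing (fun x : BlockSpace e Q => x.1) from ⟨rfl⟩).continuous
  exact (continuous_apply n).comp h1

variable {Lam : ℕ → ℕ → Finset 𝕜} {C K : ℝ} {e : ℕ → X} {Q : Subfield 𝕜}

/-- the open sets of the category argument -/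
def TaskSet (Lam : ℕ → ℕ → Finset 𝕜) (C : ℝ) (e : ℕ → X) (Q : Subfield 𝕜)
    (l : ℕ) (q : ℕ → ℕ →₀ 𝕜) (z : ℕ →₀ 𝕜) (N : ℕ) : Set (BlockSpace e Q) :=
  {x | ∃ n, N ≤ n ∧ ∃ q', Good Lam e C (top z) q' ∧ (∀ k, k < l → q' k = q k) ∧
    (x.1 n).1 = lc e (normVec e (lc q' z))}

theorem Good.mem_Q (hLam : ∀ k i, ∀ x ∈ Lam k i, x ∈ Q) {l : ℕ} {q : ℕ → ℕ →₀ 𝕜}
    (h : Good Lam e C l q) {k : ℕ} (hk : k < l) (i : ℕ) : q k i ∈ Q := by
  obtain ⟨y, hy, ha, _⟩ := h id
  rw [← hy k hk]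
  exact hLam k i _ (ha.mem k i)

theorem Good.lc_mem_Q (hLam : ∀ k i, ∀ x ∈ Lam k i, x ∈ Q) {q : ℕ → ℕ →₀ 𝕜} {z : ℕ →₀ 𝕜}
    (h : Good Lam e C (top z) q) (hz : ∀ i, z i ∈ Q) (i : ℕ) : lc q z i ∈ Q := by
  simp only [lc, Finsupp.linearCombination_apply, Finsupp.sum, Finsupp.finsetSum_apply,
      Finsupp.smul_apply, smul_eq_mul]
  exact Q.sum_mem (fun k hk => Q.mul_mem (hz k) (h.mem_Q hLam (lt_top hk) i))

theorem Good.lc_ne_zero (he : Uncond 𝕜 K e) {q : ℕ → ℕ →₀ 𝕜} {z : ℕ →₀ 𝕜}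
    (h : Good Lam e C (top z) q) (hz : z ≠ 0) : lc e (lc q z) ≠ 0 := by
  obtain ⟨y, hy, ha, _⟩ := h id
  have h1 : lc y z = lc q z := lc_congr (fun i hi => hy i (lt_top hi))
  intro h0
  have h2 := (ha.eqC z).2
  rw [h1, h0, norm_zero, mul_zero] at h2
  exact hz (he.injective (norm_le_zero_iff.mp h2))

theorem isOpen_taskSet (l : ℕ) (q : ℕ → ℕ →₀ 𝕜) (z : ℕ →₀ 𝕜) (N : ℕ) :
    IsOpen (TaskSet Lam C e Q l q z N) := by
  have := isOpen_coord (e := e) (Q := Q) (fun n v => N ≤ n ∧ ∃ q', Good Lam e C (top z) q' ∧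
    (∀ k, k < l → q' k = q k) ∧ v.1 = lc e (normVec e (lc q' z)))
  exact this

theorem dense_taskSet (he : Uncond 𝕜 K e) (hQ : IsAdmissible e Q)
    (hLam : ∀ k i, ∀ x ∈ Lam k i, x ∈ Q) {l : ℕ} {q : ℕ → ℕ →₀ 𝕜} (hq : Good Lam e C l q)
    {z : ℕ →₀ 𝕜} (hz : ∀ i, z i ∈ Q) (hz0 : z ≠ 0) (hzl : Beyond l z) (N : ℕ) :
    Dense (TaskSet Lam C e Q l q z N) := by
  classical
  apply dense_of_agree
  intro x0 m
  obtain ⟨c0, hc0, hc0Q, hc0x⟩ := exists_coef he x0
  set n := max N m with hn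
  obtain ⟨q', hq', hqq, hqN⟩ := hq.extend (prevTop c0 n) (hzl.lt_top hz0).le
  set w := lc q' z with hw
  have hw0 : lc e w ≠ 0 := hq'.lc_ne_zero he hz0
  have hwQ : ∀ i, w i ∈ Q := hq'.lc_mem_Q hLam hz
  have hwB : Beyond (prevTop c0 n) w := by
    intro i hi
    rw [Finsupp.mem_support_iff] at hi
    have h1 : ∃ k ∈ z.support, q' k i ≠ 0 := by
      by_contra hcon
      push Not at hcon
      apply hi
      rw [hw]
      simp only [lc, Finsupp.linearCombination_apply, Finsupp.sum, Finsupp.finsetSum_apply,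
        Finsupp.smul_apply, smul_eq_mul]
      exact Finset.sum_eq_zero (fun k hk => by rw [hcon k hk, mul_zero])
    obtain ⟨k, hk, hki⟩ := h1
    exact hqN k (hzl k hk) (lt_top hk) i (Finsupp.mem_support_iff.mpr hki)
  -- the tail
  let s : ℕ → ℕ →₀ 𝕜 := fun k => Finsupp.single (top w + k) (1 : 𝕜)
  have hs0 : ∀ k, lc e (s k) ≠ 0 := by
    intro k
    simp only [s, lc, Finsupp.linearCombination_single, one_smul]
    exact he.ne_zero _
  have hsQ : ∀ k i, s k i ∈ Q := by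
    intro k i
    simp only [s, Finsupp.single_apply]
    split_ifs
    · exact Q.one_mem
    · exact Q.zero_mem
  have hssupp : ∀ k, ∀ i ∈ (s k).support, i = top w + k := by
    intro k i hi
    have := Finsupp.support_single_subset hi
    simpa using this
  let c : ℕ → ℕ →₀ 𝕜 := fun k => if k < n then c0 k else if k = n then normVec e w
    else normVec e (s k)
  have hc1 : ∀ k, k < n → c k = c0 k := fun k hk => by simp only [c, if_pos hk]
  have hc2 : c n = normVec e w := by simp only [c, if_neg (lt_irrefl n), if_true]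
  have hc3 : ∀ k, n < k → c k = normVec e (s k) := fun k hk => by
    simp only [c, if_neg (not_lt.mpr hk.le), if_neg hk.ne']
  have hcQ : ∀ k i, c k i ∈ Q := by
    intro k i
    rcases lt_trichotomy k n with hk | hk | hk
    · rw [hc1 k hk]; exact hc0Q k i
    · rw [hk, hc2]; exact normVec_mem hQ hwQ i
    · rw [hc3 k hk]; exact normVec_mem hQ (hsQ k) i
  have hcn : ∀ k, ‖lc e (c k)‖ = 1 := by
    intro k
    rcases lt_trichotomy k n with hk | hk | hk
    · rw [hc1 k hk, ← hc0x k]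
      exact (x0.1 k).2.1
    · rw [hk, hc2]; exact norm_normVec hw0
    · rw [hc3 k hk]; exact norm_normVec (hs0 k)
  have hc00 : ∀ k, c k ≠ 0 := by
    intro k h0
    have := hcn k
    rw [h0, map_zero, norm_zero] at this
    exact zero_ne_one this
  have hprev : ∀ k, k ≤ n → prevTop c k = prevTop c0 k := by
    intro k hk
    cases k with
    | zero => rfl
    | succ k => rw [prevTop_succ, prevTop_succ, hc1 k (by omega)]
  have hcB : IsBlock c := by
    intro k
    refine ⟨hc00 k, ?_⟩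
    rcases lt_trichotomy k n with hk | hk | hk
    · rw [hc1 k hk, hprev k hk.le]; exact (hc0 k).2
    · rw [hk, hc2, hprev n le_rfl]
      intro i hi
      exact hwB i (support_normVec hi)
    · rw [hc3 k hk]
      intro i hi
      rw [hssupp k i (support_normVec hi)]
      obtain ⟨k', rfl⟩ : ∃ k', k = k' + 1 := ⟨k - 1, by omega⟩
      rw [prevTop_succ]
      by_cases hk' : k' = n
      · rw [hk', hc2]
        have := top_mono (support_normVec (e := e) (w := w))
        omega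
      · rw [hc3 k' (by omega)]
        refine (top_mono (support_normVec (e := e) (w := s k'))).trans ?_
        apply top_le
        intro j hj
        rw [hssupp k' j hj]
        omega
  let x : BlockSpace e Q := ⟨fun k => mkQ (c k) (hcQ k) (hcn k), isBlockSeq_of_isBlock hcB⟩
  refine ⟨x, ⟨n, le_max_left _ _, q', hq', hqq, ?_⟩, ?_⟩
  · change lc e (c n) = _
    rw [hc2]
  · intro k hk
    apply Subtype.ext
    change lc e (c k) = (x0.1 k).1
    rw [hc1 k (hk.trans_le (le_max_right _ _)), ← hc0x k]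
    rfl

variable (Q) in
/-- coefficient vectors over `Q` -/
abbrev EQ : Type _ := {v : ℕ →₀ 𝕜 // ∀ i, v i ∈ Q}

theorem countable_EQ (hQ : (Q : Set 𝕜).Countable) : Countable (EQ Q) := by
  have : Countable Q := hQ.to_subtype
  have hs : Function.Surjective
      (fun v : ℕ →₀ Q => (⟨v.mapRange (Subtype.val) rfl, fun i => by simp⟩ : EQ Q)) := by
    rintro ⟨v, hv⟩
    refine ⟨Finsupp.onFinset v.support (fun i => ⟨v i, hv i⟩) ?_, ?_⟩
    · intro i hi
      rw [Finsupp.mem_support_iff]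
      intro h
      apply hi
      exact Subtype.ext h
    · apply Subtype.ext
      ext i
      simp
  exact hs.countable

/-- extension of a finite sequence -/
def extQ {l : ℕ} (w : Fin l → EQ Q) : ℕ → ℕ →₀ 𝕜 := fun k => if h : k < l then (w ⟨k, h⟩).1 else 0

theorem eventually_tasks (he : Uncond 𝕜 K e) (hQ : IsAdmissible e Q)
    (hLam : ∀ k i, ∀ x ∈ Lam k i, x ∈ Q) :
    ∀ᶠ x in residual (BlockSpace e Q), ∀ (l : ℕ) (w : Fin l → EQ Q) (z : EQ Q) (N : ℕ),
      Good Lam e C l (extQ w) → z.1 ≠ 0 → Beyond l z.1 →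
      x ∈ TaskSet Lam C e Q l (extQ w) z.1 N := by
  have := countable_EQ hQ.countable
  simp only [eventually_countable_forall]
  intro l w z N h1 h2 h3
  exact residual_of_dense_open (isOpen_taskSet (Lam := Lam) (C := C) (e := e) (Q := Q) l
      (extQ w) z.1 N) (dense_taskSet he hQ hLam h1 z.2 h2 h3 N)

end Run7.h157
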