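import Mathlib
import Pool.Agent.Run7.h157.Cat

/-!
Matching of generic block sequences, and permutative equivalence.
-/

noncomputable section

namespace Run7.h157

open Set Filter Topology Finsupp

variable {𝕜 : Type*} [RCLike 𝕜] {X : Type*} [NormedAddCommGroup X] [NormedSpace 𝕜 X]

variable {Lam : ℕ → ℕ → Finset 𝕜} {C K : ℝ} {e : ℕ → X} {Q : Subfield 𝕜}

/-- the generic property of `x` -/
def Tasks (Lam : ℕ → ℕ → Finset 𝕜) (C : ℝ) (x : BlockSpace e Q) : Prop :=
  ∀ (l : ℕ) (w : Fin l → EQ Q) (z : EQ Q) (N : ℕ),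
      Good Lam e C l (extQ w) → z.1 ≠ 0 → Beyond l z.1 →
      x ∈ TaskSet Lam C e Q l (extQ w) z.1 N

theorem exists_match (he : Uncond 𝕜 K e)
    (hLam : ∀ k i, ∀ x ∈ Lam k i, x ∈ Q) (hC : 1 ≤ C) (hG0 : Good Lam e C 0 (fun _ => 0))
    {x : BlockSpace e Q} (hx : Tasks Lam C x) (z : BlockSpace e Q) :
    ∃ n : ℕ → ℕ, StrictMono n ∧
      SeqEquivWith 𝕜 (C * (K * C)) (fun k => x.seq (n k)) z.seq := by
  classical
  obtain ⟨cz, hcz, hczQ, hczx⟩ := exists_coef he z
  -- the recursion step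
  have step : ∀ k (s : {q : ℕ → ℕ →₀ 𝕜 // Good Lam e C (prevTop cz k) q} × ℕ),
      ∃ s' : {q : ℕ → ℕ →₀ 𝕜 // Good Lam e C (prevTop cz (k + 1)) q} × ℕ,
        (∀ j, j < prevTop cz k → s'.1.1 j = s.1.1 j) ∧ ∃ n, s.2 ≤ n ∧ s'.2 = n + 1 ∧
          (x.1 n).1 = lc e (normVec e (lc s'.1.1 (cz k))) := by
    intro k s
    obtain ⟨⟨q, hq⟩, N⟩ := s
    let w : Fin (prevTop cz k) → EQ Q := fun i => ⟨q i, fun j => hq.mem_Q hLam i.2 j⟩
    have hw : ∀ j, j < prevTop cz k → q j = extQ w j := by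
      intro j hj
      simp only [extQ, dif_pos hj, w]
    obtain ⟨n, hn, q', hq', hqq, hxn⟩ := hx (prevTop cz k) w ⟨cz k, hczQ k⟩ N
      (hq.congr hw) (hcz k).1 (hcz k).2
    exact ⟨⟨⟨q', hq'⟩, n + 1⟩, fun j hj => (hqq j hj).trans (hw j hj).symm, n, hn, rfl, hxn⟩
  choose next hnext1 hnext2 using step
  let f : ∀ k, {q : ℕ → ℕ →₀ 𝕜 // Good Lam e C (prevTop cz k) q} × ℕ := fun k =>
    Nat.rec (motive := fun k => {q : ℕ → ℕ →₀ 𝕜 // Good Lam e C (prevTop cz k) q} × ℕ)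
      (⟨⟨fun _ => 0, hG0⟩, 0⟩) (fun k s => next k s) k
  have hf : ∀ k, f (k + 1) = next k (f k) := fun k => rfl
  have hq : ∀ k j, j < prevTop cz k → (f (k + 1)).1.1 j = (f k).1.1 j := by
    intro k j hj
    rw [hf]; exact hnext1 k (f k) j hj
  have hn : ∀ k, ∃ n, (f k).2 ≤ n ∧ (f (k + 1)).2 = n + 1 ∧
      (x.1 n).1 = lc e (normVec e (lc (f (k + 1)).1.1 (cz k))) := by
    intro k
    rw [hf]; exact hnext2 k (f k)
  choose n hn1 hn2 hn3 using hn
  have hnmono : StrictMono n := strictMono_nat_of_lt_succ (fun k => by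
    have h1 := hn1 (k + 1)
    rw [hn2 k] at h1
    exact h1)
  have hTmono := hcz.strictMono
  have hstab : ∀ k d j, j < prevTop cz k → (f (k + d)).1.1 j = (f k).1.1 j := by
    intro k d j hj
    induction d with
    | zero => rfl
    | succ d ih =>
      rw [← ih]
      exact hq (k + d) j (hj.trans_le (hTmono.monotone (Nat.le_add_right _ _)))
  let y : ℕ → ℕ →₀ 𝕜 := fun j => (f (j + 1)).1.1 j
  have hT : ∀ k, k ≤ prevTop cz k := fun k => hTmono.le_apply
  have hyk : ∀ k j, j < prevTop cz k → (f k).1.1 j = y j := by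
    intro k j hj
    rcases le_total (j + 1) k with h | h
    · obtain ⟨d, rfl⟩ := Nat.exists_eq_add_of_le h
      exact hstab (j + 1) d j (hT (j + 1))
    · obtain ⟨d, hd⟩ := Nat.exists_eq_add_of_le h
      change _ = (f (j + 1)).1.1 j
      rw [hd]
      exact (hstab k d j hj).symm
  have hyC : EqC e C y := eqC_of_good (fun k => ⟨prevTop cz k, hT k,
    (f k).1.2.congr (hyk k)⟩)
  have hlc : ∀ k, lc (f (k + 1)).1.1 (cz k) = lc y (cz k) := by
    intro k
    apply lc_congr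
    intro i hi
    exact hyk (k + 1) i (lt_top hi)
  refine ⟨n, hnmono, ?_⟩
  -- notation
  set u : ℕ → X := fun k => lc e (cz k) with hu
  set v : ℕ → X := fun k => lc e (lc y (cz k)) with hv
  set ρ : ℕ → ℝ := fun k => ‖v k‖ with hρ
  have hun : ∀ k, ‖u k‖ = 1 := by
    intro k
    simp only [hu]
    rw [← hczx k]
    exact (z.1 k).2.1
  have hρ1 : ∀ k, ρ k ≤ C := by
    intro k
    have := (hyC (cz k)).1
    have h1 := hun k
    simp only [hu] at h1
    rw [h1, mul_one] at this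
    exact this
  have hρ2 : ∀ k, 1 ≤ C * ρ k := by
    intro k
    have := (hyC (cz k)).2
    have h1 := hun k
    simp only [hu] at h1
    rw [h1] at this
    exact this
  have hC0 : 0 < C := by linarith
  have hρ0 : ∀ k, 0 < ρ k := by
    intro k
    have := hρ2 k
    by_contra hcon
    push Not at hcon
    nlinarith
  have hρinv : ∀ k, (ρ k)⁻¹ ≤ C := by
    intro k
    rw [inv_le_iff_one_le_mul₀ (hρ0 k)]
    exact hρ2 k
  have hxn : ∀ k, x.seq (n k) = (((ρ k : ℝ) : 𝕜)⁻¹) • v k := by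
    intro k
    have h1 := hn3 k
    rw [hlc] at h1
    unfold normVec at h1
    rw [map_smul] at h1
    exact h1
  have hU : Uncond 𝕜 K u := he.block hcz
  have hz : z.seq = u := funext hczx
  rw [hz]
  have hρ𝕜 : ∀ k, ((ρ k : ℝ) : 𝕜) ≠ 0 := fun k => by exact_mod_cast (hρ0 k).ne'
  intro a
  let a' : ℕ →₀ 𝕜 := Finsupp.onFinset a.support (fun k => (((ρ k : ℝ) : 𝕜)⁻¹) * a k) (by
    intro k hk
    rw [Finsupp.mem_support_iff]
    exact right_ne_zero_of_mul hk)
  have ha' : ∀ k, a' k = (((ρ k : ℝ) : 𝕜)⁻¹) * a k := fun k => rfl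
  have hsupp : a'.support = a.support := by
    ext k
    rw [Finsupp.mem_support_iff, Finsupp.mem_support_iff, ha']
    exact ⟨right_ne_zero_of_mul, fun h => mul_ne_zero (inv_ne_zero (hρ𝕜 k)) h⟩
  have e1 : lc (fun k => x.seq (n k)) a = lc v a' := by
    simp only [lc, Finsupp.linearCombination_apply, Finsupp.sum, hsupp]
    apply Finset.sum_congr rfl
    intro k _
    rw [hxn, ha', smul_smul, mul_comm]
  have e2 : lc v a' = lc e (lc y (lc cz a')) := by
    rw [lc_lc y cz a', lc_lc e (fun k => lc y (cz k)) a']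
  have e3 : lc u a' = lc e (lc cz a') := by
    rw [lc_lc e cz a']
  obtain ⟨h1, h2⟩ := hyC (lc cz a')
  rw [← e2, ← e3] at h1 h2
  have h3 : ‖lc u a'‖ ≤ K * C * ‖lc u a‖ := by
    have h := hU.mult (fun k => (ρ k)⁻¹) hC0 (fun k => (inv_pos.mpr (hρ0 k)).le) hρinv a
    convert h using 2
    simp only [lc, Finsupp.linearCombination_apply, Finsupp.sum, hsupp]
    apply Finset.sum_congr rfl
    intro k _
    rw [ha']
    push_cast
    rfl
  have h4 : ‖lc u a‖ ≤ K * C * ‖lc u a'‖ := by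
    have h := hU.mult ρ hC0 (fun k => (hρ0 k).le) hρ1 a'
    convert h using 2
    simp only [lc, Finsupp.linearCombination_apply, Finsupp.sum, hsupp]
    apply Finset.sum_congr rfl
    intro k _
    rw [ha', mul_inv_cancel_left₀ (hρ𝕜 k)]
  have hK : 0 < K := lt_of_lt_of_le one_pos he.one_le
  rw [e1]
  constructor
  · calc ‖lc v a'‖ ≤ C * ‖lc u a'‖ := h1
      _ ≤ C * (K * C * ‖lc u a‖) := by gcongr
      _ = C * (K * C) * ‖lc u a‖ := by ring
  · calc ‖lc u a‖ ≤ K * C * ‖lc u a'‖ := h4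
      _ ≤ K * C * (C * ‖lc v a'‖) := by gcongr
      _ = C * (K * C) * ‖lc v a'‖ := by ring

theorem Uncond.comp {K : ℝ} {e : ℕ → X} (h : Uncond 𝕜 K e) {f : ℕ → ℕ}
    (hf : Function.Injective f) : Uncond 𝕜 K (fun k => e (f k)) where
  one_le := h.one_le
  ne_zero := fun i => h.ne_zero _
  proj := by
    intro a A _
    classical
    have h1 : ∀ b : ℕ →₀ 𝕜, lc (fun k => e (f k)) b = lc e (b.mapDomain f) := by
      intro b
      simp only [lc, Finsupp.linearCombination_mapDomain]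
      rfl
    have h2 : (a.filter (· ∈ A)).mapDomain f = (a.mapDomain f).filter (· ∈ f '' A) := by
      ext i
      by_cases hi : i ∈ Set.range f
      · obtain ⟨j, rfl⟩ := hi
        rw [Finsupp.mapDomain_apply hf]
        by_cases hj : j ∈ A
        · rw [Finsupp.filter_apply_pos _ _ hj, Finsupp.filter_apply_pos _ _ (mem_image_of_mem f hj),
            Finsupp.mapDomain_apply hf]
        · rw [Finsupp.filter_apply_neg _ _ hj, Finsupp.filter_apply_neg]
          rintro ⟨j', hj', h⟩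
          exact hj (hf h ▸ hj')
      · rw [Finsupp.mapDomain_of_notMem_range _ _ hi]
        by_cases hi2 : i ∈ f '' A
        · exact absurd (image_subset_range f A hi2) hi
        · rw [Finsupp.filter_apply_neg _ _ hi2]
    rw [h1, h1, h2]
    exact h.proj _ _

/-- Cantor-Bernstein for unconditional sequences -/
theorem perm_equiv {u v : ℕ → X} {K : ℝ} (hu : Uncond 𝕜 K u) (hv : Uncond 𝕜 K v)
    {f g : ℕ → ℕ} (hf : Function.Injective f) (hg : Function.Injective g)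
    {C : ℝ} (hC1 : SeqEquivWith 𝕜 C (fun k => u (f k)) v)
    (hC2 : SeqEquivWith 𝕜 C (fun k => v (g k)) u) :
    ∃ π : Equiv.Perm ℕ, SeqEquivWith 𝕜 ((|C| + |C|) * K) (fun k => u (π k)) v := by
  classical
  obtain ⟨h, hbij, hrel⟩ := Function.Embedding.schroeder_bernstein_of_rel hf hg
    (fun j i => i = f j ∨ j = g i) (fun _ => Or.inl rfl) (fun _ => Or.inr rfl)
  refine ⟨Equiv.ofBijective h hbij, ?_⟩
  change SeqEquivWith 𝕜 ((|C| + |C|) * K) (fun k => u (h k)) v
  have huh : Uncond 𝕜 K (fun k => u (h k)) := hu.comp hbij.1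
  intro a
  set A : Set ℕ := {j | h j = f j} with hA
  have hdec : a = a.filter (· ∈ A) + a.filter (· ∈ Aᶜ) := by
    ext i
    by_cases hi : i ∈ A
    · rw [Finsupp.add_apply, Finsupp.filter_apply_pos _ _ hi,
        Finsupp.filter_apply_neg _ _ (by simpa using hi), add_zero]
    · rw [Finsupp.add_apply, Finsupp.filter_apply_neg _ _ hi,
        Finsupp.filter_apply_pos _ _ (by simpa using hi), zero_add]
  set a1 := a.filter (· ∈ A) with ha1
  set a2 := a.filter (· ∈ Aᶜ) with ha2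
  have hs1 : ∀ j ∈ a1.support, h j = f j := by
    intro j hj
    rw [ha1, Finsupp.support_filter, Finset.mem_filter] at hj
    exact hj.2
  have hs2 : ∀ j ∈ a2.support, j = g (h j) := by
    intro j hj
    rw [ha2, Finsupp.support_filter, Finset.mem_filter] at hj
    rcases hrel j with h | h
    · exact absurd h hj.2
    · exact h
  have e1 : lc (fun k => u (h k)) a1 = lc (fun k => u (f k)) a1 :=
    lc_congr (fun i hi => by rw [hs1 i hi])
  have e2 : lc (fun k => u (h k)) a2 = lc u (a2.mapDomain h) := by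
    simp only [lc, Finsupp.linearCombination_mapDomain]
    rfl
  have e3 : lc v a2 = lc (fun k => v (g k)) (a2.mapDomain h) := by
    simp only [lc, Finsupp.linearCombination_mapDomain]
    exact lc_congr (fun i hi => by
      simp only [Function.comp]
      rw [← hs2 i hi])
  have hK : 0 < K := lt_of_lt_of_le one_pos hu.one_le
  obtain ⟨b1, b2⟩ := hC1 a1
  obtain ⟨b3, b4⟩ := hC2 (a2.mapDomain h)
  change ‖lc (fun k => u (f k)) a1‖ ≤ C * ‖lc v a1‖ at b1
  change ‖lc v a1‖ ≤ C * ‖lc (fun k => u (f k)) a1‖ at b2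
  change ‖lc (fun k => v (g k)) (a2.mapDomain h)‖ ≤ C * ‖lc u (a2.mapDomain h)‖ at b3
  change ‖lc u (a2.mapDomain h)‖ ≤ C * ‖lc (fun k => v (g k)) (a2.mapDomain h)‖ at b4
  rw [← e1] at b1 b2
  rw [← e2, ← e3] at b3 b4
  have hle1 : C ≤ |C| := le_abs_self _
  have hle2 : C ≤ |C| := le_abs_self _
  have hp1 : ‖lc v a1‖ ≤ K * ‖lc v a‖ := hv.proj a A
  have hp2 : ‖lc v a2‖ ≤ K * ‖lc v a‖ := hv.proj a Aᶜ
  have hp3 : ‖lc (fun k => u (h k)) a1‖ ≤ K * ‖lc (fun k => u (h k)) a‖ := huh.proj a A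
  have hp4 : ‖lc (fun k => u (h k)) a2‖ ≤ K * ‖lc (fun k => u (h k)) a‖ := huh.proj a Aᶜ
  have hpos1 : 0 ≤ |C| := abs_nonneg _
  have hpos2 : 0 ≤ |C| := abs_nonneg _
  constructor
  · calc ‖lc (fun k => u (h k)) a‖
        = ‖lc (fun k => u (h k)) a1 + lc (fun k => u (h k)) a2‖ := by rw [← map_add, ← hdec]
      _ ≤ ‖lc (fun k => u (h k)) a1‖ + ‖lc (fun k => u (h k)) a2‖ := norm_add_le _ _
      _ ≤ C * ‖lc v a1‖ + C * ‖lc v a2‖ := add_le_add b1 b4
      _ ≤ |C| * (K * ‖lc v a‖) + |C| * (K * ‖lc v a‖) := by gcongr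
      _ = (|C| + |C|) * K * ‖lc v a‖ := by ring
  · calc ‖lc v a‖ = ‖lc v a1 + lc v a2‖ := by rw [← map_add, ← hdec]
      _ ≤ ‖lc v a1‖ + ‖lc v a2‖ := norm_add_le _ _
      _ ≤ C * ‖lc (fun k => u (h k)) a1‖ + C * ‖lc (fun k => u (h k)) a2‖ := add_le_add b2 b3
      _ ≤ |C| * (K * ‖lc (fun k => u (h k)) a‖) + |C| * (K * ‖lc (fun k => u (h k)) a‖) := by
          gcongr
      _ = (|C| + |C|) * K * ‖lc (fun k => u (h k)) a‖ := by ring

/-- equivalent sequences span isomorphic spaces -/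
theorem iso_of_seqEquiv [CompleteSpace X] {u v : ℕ → X} (h : SeqEquiv 𝕜 u v) :
    Nonempty (closedSpan 𝕜 u ≃L[𝕜] closedSpan 𝕜 v) := by
  obtain ⟨C, hC⟩ := h
  have hmem : ∀ (w : ℕ → X) (a : ℕ →₀ 𝕜), lc w a ∈ closedSpan 𝕜 w := by
    intro w a
    apply Submodule.le_topologicalClosure
    rw [← Finsupp.range_linearCombination]
    exact ⟨a, rfl⟩
  have hdense : ∀ w : ℕ → X, DenseRange ((lc w).codRestrict (closedSpan 𝕜 w) (hmem w)) := by
    intro w
    rintro ⟨x, hx⟩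
    have h1 : (x : X) ∈ closure ((Submodule.span 𝕜 (range w) : Submodule 𝕜 X) : Set X) := hx
    rw [Metric.mem_closure_iff] at h1 ⊢
    intro ε hε
    obtain ⟨y, hy, hd⟩ := h1 ε hε
    rw [SetLike.mem_coe, ← Finsupp.range_linearCombination] at hy
    obtain ⟨a, rfl⟩ := hy
    exact ⟨_, ⟨a, rfl⟩, hd⟩
  have hcomp : ∀ w : ℕ → X, CompleteSpace (closedSpan 𝕜 w) := fun w =>
    (Submodule.isClosed_topologicalClosure _).completeSpace_coe
  have := hcomp u
  have := hcomp v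
  exact ⟨(LinearEquiv.refl 𝕜 (ℕ →₀ 𝕜)).extend _ _ (hdense u)
    ⟨C, fun a => (hC a).2⟩ (hdense v) ⟨C, fun a => (hC a).1⟩⟩

theorem closedSpan_perm (u : ℕ → X) (π : Equiv.Perm ℕ) :
    closedSpan 𝕜 (fun k => u (π k)) = closedSpan 𝕜 u := by
  unfold closedSpan
  have : range (fun k => u (π k)) = range u := by
    have := π.surjective.range_comp u
    exact this
  rw [this]

end Run7.h157
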