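import Mathlib
import Pool.Agent.Run7.h157.Match

/-!
If `(e_n)` is an unconditional basis every subsequence of which has a block sequence equivalent
to `(e_n)`, then `Is` is comeager.
-/

noncomputable section

namespace Run7.h157

open Set Filter Topology Finsupp

variable {𝕜 : Type*} [RCLike 𝕜] {X : Type*} [NormedAddCommGroup X] [NormedSpace 𝕜 X]
variable {K : ℝ} {e : ℕ → X} {Q : Subfield 𝕜}

/-- `b(X)` is a closed subset of `Q₀ ^ ℕ` -/
theorem isClosed_block (he : Uncond 𝕜 K e) :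
    IsClosed {x : ℕ → QZero e Q | IsBlockSeq 𝕜 e (fun k => (x k).1)} := by
  classical
  choose c _ hc2 using fun v : QZero e Q => v.2.2
  have hcne : ∀ v, c v ≠ 0 := by
    intro v h0
    have h1 := v.2.1
    rw [hc2 v, h0, map_zero, norm_zero] at h1
    exact zero_ne_one h1
  have h : {x : ℕ → QZero e Q | IsBlockSeq 𝕜 e (fun k => (x k).1)} =
      ⋂ k, {x : ℕ → QZero e Q |
        ∀ i ∈ (c (x k)).support, ∀ j ∈ (c (x (k + 1))).support, i < j} := by
    ext x
    simp only [mem_ofPred_eq, mem_iInter]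
    constructor
    · rintro ⟨c', _, h2, h3⟩ k i hi j hj
      have e1 : ∀ k, c (x k) = c' k := fun k => he.lc_injective ((hc2 (x k)).symm.trans (h3 k))
      rw [e1] at hi hj
      exact h2 k i hi j hj
    · intro h2
      exact ⟨fun k => c (x k), fun k => hcne _, h2, fun k => hc2 (x k)⟩
  rw [h]
  apply isClosed_iInter
  intro k
  have h1 : Continuous (fun x : ℕ → QZero e Q => (x k, x (k + 1))) := by fun_prop
  exact (isClosed_discrete {p : QZero e Q × QZero e Q |
    ∀ i ∈ (c p.1).support, ∀ j ∈ (c p.2).support, i < j}).preimage h1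

theorem baire_prod (he : Uncond 𝕜 K e) :
    BaireSpace (BlockSpace e Q × BlockSpace e Q) := by
  have h2 : TopologicalSpace.IsCompletelyMetrizableSpace (BlockSpace e Q) :=
    (isClosed_block he).isClosedEmbedding_subtypeVal.IsCompletelyMetrizableSpace
  infer_instance

theorem nonempty_block (he : Uncond 𝕜 K e) (hQ : IsAdmissible e Q) :
    Nonempty (BlockSpace e Q) := by
  classical
  have h0 : ∀ k, lc e (Finsupp.single k (1 : 𝕜)) ≠ 0 := by
    intro k
    simp only [lc, Finsupp.linearCombination_single, one_smul]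
    exact he.ne_zero _
  have hQ1 : ∀ k i : ℕ, (Finsupp.single k (1 : 𝕜)) i ∈ Q := by
    intro k i
    simp only [Finsupp.single_apply]
    split_ifs
    · exact Q.one_mem
    · exact Q.zero_mem
  have hs : ∀ k, ∀ i ∈ (normVec e (Finsupp.single k (1 : 𝕜))).support, i = k := by
    intro k i hi
    have := Finsupp.support_single_subset (support_normVec hi)
    simpa using this
  refine ⟨⟨fun k => mkQ (normVec e (Finsupp.single k (1 : 𝕜))) (normVec_mem hQ (hQ1 k))
    (norm_normVec (h0 k)), ?_⟩⟩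
  apply isBlockSeq_of_isBlock
  intro k
  refine ⟨normVec_ne_zero (h0 k), ?_⟩
  intro i hi
  rw [hs k i hi]
  cases k with
  | zero => exact le_rfl
  | succ k =>
    rw [prevTop_succ]
    apply top_le
    intro j hj
    rw [hs k j hj]
    exact Nat.lt_succ_self k

theorem prod_residual {α : Type*} [TopologicalSpace α] {G : Set α} (hG : G ∈ residual α) :
    G ×ˢ G ∈ residual (α × α) := by
  have h1 : Prod.fst ⁻¹' G ∈ residual (α × α) :=
    tendsto_residual_of_isOpenMap continuous_fst isOpenMap_fst hG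
  have h2 : Prod.snd ⁻¹' G ∈ residual (α × α) :=
    tendsto_residual_of_isOpenMap continuous_snd isOpenMap_snd hG
  filter_upwards [h1, h2] with p hp1 hp2
  exact ⟨hp1, hp2⟩

theorem hypH_of {b : ℕ → X}
    (h : ∀ n : ℕ → ℕ, StrictMono n → ∃ z : ℕ → X, IsBlockSeq 𝕜 (fun k => b (n k)) z ∧
      SeqEquiv 𝕜 z b) : HypH 𝕜 b := by
  classical
  intro n hn
  obtain ⟨z, ⟨c, hc0, hcs, hcz⟩, C, hC⟩ := h n hn
  have hinj := hn.injective
  have hsup : ∀ k, (Finsupp.mapDomain n (c k)).support = (c k).support.image n := fun k =>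
    Finsupp.mapDomain_support_of_injective hinj _
  have hz : z = fun k => lc b (Finsupp.mapDomain n (c k)) := by
    funext k
    rw [hcz k]
    simp only [lc, Finsupp.linearCombination_mapDomain]
    rfl
  refine ⟨fun k => Finsupp.mapDomain n (c k), ?_, ?_, C, ?_⟩
  · intro k
    constructor
    · intro h0
      apply hc0 k
      exact Finsupp.mapDomain_injective hinj (h0.trans Finsupp.mapDomain_zero.symm)
    · cases k with
      | zero => intro i _; exact Nat.zero_le _
      | succ k =>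
        intro j hj
        rw [prevTop_succ]
        apply top_le
        intro i hi
        rw [hsup, Finset.mem_image] at hi hj
        obtain ⟨i', hi', rfl⟩ := hi
        obtain ⟨j', hj', rfl⟩ := hj
        exact hn (hcs k i' hi' j' hj')
  · intro k i hi
    rw [hsup, Finset.mem_image] at hi
    obtain ⟨i', _, rfl⟩ := hi
    exact ⟨i', rfl⟩
  · intro a
    have := hC a
    rw [hz] at this
    rw [lc_lc]
    exact this

/-- The main theorem. -/
theorem main1 [CompleteSpace X] (b : UnconditionalSchauderBasis ℕ 𝕜 X)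
    (h : ∀ n : ℕ → ℕ, StrictMono n → ∃ z : ℕ → X, IsBlockSeq 𝕜 (fun k => b (n k)) z ∧
      SeqEquiv 𝕜 z b)
    (Q : Subfield 𝕜) (hQ : IsAdmissible (b : ℕ → X) Q) :
    (∃ C : ℝ, ∃ G ∈ residual (BlockSpace (b : ℕ → X) Q),
      (∀ x ∈ G, ∀ z : BlockSpace (b : ℕ → X) Q, ∃ n : ℕ → ℕ, StrictMono n ∧
        SeqEquivWith 𝕜 C (fun k => x.seq (n k)) z.seq) ∧
      ∀ x ∈ G, ∀ y ∈ G, ∃ π : Equiv.Perm ℕ, SeqEquivWith 𝕜 C (fun k => x.seq (π k)) y.seq) ∧
    Is (b : ℕ → X) Q ∈ residual (BlockSpace (b : ℕ → X) Q × BlockSpace (b : ℕ → X) Q) ∧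
    ¬ IsMeagre (Is (b : ℕ → X) Q) := by
  obtain ⟨K, he⟩ := exists_uncond b
  obtain ⟨C, hC, Lam, hLam, hM⟩ := exists_adm he Q hQ.I_mem (hypH_of h)
  have hK := he.one_le
  have hG0 : Good Lam (b : ℕ → X) C 0 (fun _ => 0) := by
    intro M
    obtain ⟨y, hy1, hy2⟩ := hM M
    exact ⟨y, fun k hk => absurd hk (Nat.not_lt_zero _), hy1, fun k _ => hy2 k⟩
  have hG := eventually_tasks (Lam := Lam) (C := C) he hQ hLam
  set G : Set (BlockSpace (b : ℕ → X) Q) := {x | Tasks Lam C x} with hGdef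
  have hGres : G ∈ residual (BlockSpace (b : ℕ → X) Q) := hG
  have hmatch : ∀ x ∈ G, ∀ z : BlockSpace (b : ℕ → X) Q, ∃ n : ℕ → ℕ, StrictMono n ∧
        SeqEquivWith 𝕜 (C * (K * C)) (fun k => x.seq (n k)) z.seq :=
    fun x hx z => exists_match he hLam hC hG0 hx z
  have huncond : ∀ x : BlockSpace (b : ℕ → X) Q, Uncond 𝕜 K x.seq := by
    intro x
    obtain ⟨c, hc, _, hcx⟩ := exists_coef he x
    have := he.block hc
    rwa [← funext hcx] at this
  have hperm : ∀ x ∈ G, ∀ y ∈ G, ∃ π : Equiv.Perm ℕ,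
      SeqEquivWith 𝕜 ((|C * (K * C)| + |C * (K * C)|) * K) (fun k => x.seq (π k)) y.seq := by
    intro x hx y hy
    obtain ⟨n, hn, h1⟩ := hmatch x hx y
    obtain ⟨m, hm, h2⟩ := hmatch y hy x
    exact perm_equiv (huncond x) (huncond y) hn.injective hm.injective h1 h2
  have hIs : Is (b : ℕ → X) Q ∈
      residual (BlockSpace (b : ℕ → X) Q × BlockSpace (b : ℕ → X) Q) := by
    filter_upwards [prod_residual hGres] with p hp
    obtain ⟨π, hπ⟩ := hperm p.1 hp.1 p.2 hp.2
    have := iso_of_seqEquiv ⟨_, hπ⟩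
    rw [closedSpan_perm] at this
    exact this
  have := baire_prod (Q := Q) he
  have := nonempty_block he hQ
  refine ⟨⟨(|C * (K * C)| + |C * (K * C)|) * K, G, hGres, ?_, hperm⟩, hIs,
    not_isMeagre_of_mem_residual hIs⟩
  intro x hx z
  obtain ⟨n, hn, h1⟩ := hmatch x hx z
  have hle : C * (K * C) ≤ (|C * (K * C)| + |C * (K * C)|) * K := by
    have h3 : 0 ≤ C * (K * C) := by positivity
    rw [abs_of_nonneg h3]
    nlinarith
  refine ⟨n, hn, fun a => ?_⟩
  obtain ⟨h4, h5⟩ := h1 a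
  exact ⟨h4.trans (mul_le_mul_of_nonneg_right hle (norm_nonneg _)),
    h5.trans (mul_le_mul_of_nonneg_right hle (norm_nonneg _))⟩

end Run7.h157
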