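import Mathlib
import Pool.Agent.Run7.h157.Main1

/-!
Basic sequences (bounded partial sum projections), perturbations, isomorphisms of closed spans.
-/

noncomputable section

namespace Run7.h157

open Set Filter Topology Finsupp

variable {𝕜 : Type*} [RCLike 𝕜] {X : Type*} [NormedAddCommGroup X] [NormedSpace 𝕜 X]

/-- `e` is a basic sequence with constant `K`. -/
structure BasicSeq (𝕜 : Type*) [RCLike 𝕜] {X : Type*} [NormedAddCommGroup X] [NormedSpace 𝕜 X]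
    (K : ℝ) (e : ℕ → X) : Prop where
  one_le : 1 ≤ K
  ne_zero : ∀ i, e i ≠ 0
  proj : ∀ (a : ℕ →₀ 𝕜) (n : ℕ), ‖lc e (a.filter (· < n))‖ ≤ K * ‖lc e a‖

theorem filter_split (a : ℕ →₀ 𝕜) (n : ℕ) :
    a = a.filter (· < n) + a.filter (fun i => ¬ i < n) := by
  ext i
  by_cases hi : i < n
  · simp [hi]
  · simp [Finsupp.filter_apply, hi]

theorem BasicSeq.tail {K : ℝ} {e : ℕ → X} (h : BasicSeq 𝕜 K e) (a : ℕ →₀ 𝕜) (n : ℕ) :
    ‖lc e (a.filter (fun i => ¬ i < n))‖ ≤ 2 * K * ‖lc e a‖ := by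
  have h1 : lc e (a.filter (fun i => ¬ i < n)) = lc e a - lc e (a.filter (· < n)) := by
    rw [eq_sub_iff_add_eq, ← map_add, add_comm, ← filter_split]
  rw [h1]
  have h2 := h.proj a n
  have h3 := h.one_le
  calc _ ≤ ‖lc e a‖ + ‖lc e (a.filter (· < n))‖ := norm_sub_le _ _
    _ ≤ ‖lc e a‖ + K * ‖lc e a‖ := by gcongr
    _ ≤ _ := by nlinarith [norm_nonneg (lc e a)]

theorem BasicSeq.coord {K : ℝ} {e : ℕ → X} (h : BasicSeq 𝕜 K e) (a : ℕ →₀ 𝕜) (i : ℕ) :
    ‖a i‖ * ‖e i‖ ≤ 2 * K * ‖lc e a‖ := by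
  have h1 : a.filter (· < i + 1) = a.filter (· < i) + Finsupp.single i (a i) := by
    ext j
    rw [Finsupp.add_apply]
    simp only [Finsupp.filter_apply, Finsupp.single_apply]
    rcases lt_trichotomy j i with hj | hj | hj
    · rw [if_pos (show j < i + 1 by omega), if_pos hj, if_neg (by omega), add_zero]
    · subst hj
      rw [if_pos (show j < j + 1 by omega), if_neg (lt_irrefl j), if_pos rfl, zero_add]
    · rw [if_neg (show ¬ j < i + 1 by omega), if_neg (show ¬ j < i by omega),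
        if_neg (by omega), add_zero]
  have h2 : a i • e i = lc e (a.filter (· < i + 1)) - lc e (a.filter (· < i)) := by
    rw [h1, map_add, add_sub_cancel_left]
    simp [lc]
  rw [← norm_smul, h2]
  calc _ ≤ ‖lc e (a.filter (· < i + 1))‖ + ‖lc e (a.filter (· < i))‖ := norm_sub_le _ _
    _ ≤ K * ‖lc e a‖ + K * ‖lc e a‖ := add_le_add (h.proj _ _) (h.proj _ _)
    _ = _ := by ring

theorem BasicSeq.injective {K : ℝ} {e : ℕ → X} (h : BasicSeq 𝕜 K e) {a : ℕ →₀ 𝕜}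
    (ha : lc e a = 0) : a = 0 := by
  ext i
  have h1 := h.coord a i
  rw [ha, norm_zero, mul_zero] at h1
  have h2 : 0 < ‖e i‖ := norm_pos_iff.mpr (h.ne_zero i)
  have h3 : ‖a i‖ ≤ 0 := by
    by_contra h4
    push Not at h4
    have := mul_pos h4 h2
    linarith
  simpa using h3

theorem BasicSeq.lc_injective {K : ℝ} {e : ℕ → X} (h : BasicSeq 𝕜 K e) :
    Function.Injective (lc (𝕜 := 𝕜) e) := by
  rw [injective_iff_map_eq_zero]
  intro a ha
  exact h.injective ha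

theorem filter_lc_lt {y : ℕ → ℕ →₀ 𝕜} (hy : IsBlock y) (a : ℕ →₀ 𝕜) (n : ℕ) :
    (lc y a).filter (· < prevTop y n) = lc y (a.filter (· < n)) := by
  classical
  have h1 : ∀ b : ℕ →₀ 𝕜, (lc y b).filter (· < prevTop y n) =
      ∑ k ∈ b.support, b k • (y k).filter (· < prevTop y n) := by
    intro b
    simp only [lc, Finsupp.linearCombination_apply, Finsupp.sum]
    ext i
    by_cases hi : i < prevTop y n
    · simp [hi, Finsupp.finsetSum_apply]
    · simp [hi, Finsupp.finsetSum_apply]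
  have h2 : ∀ k, k < n → (y k).filter (· < prevTop y n) = y k := by
    intro k hk
    rw [Finsupp.filter_eq_self_iff]
    intro i hi
    have h3 : i < prevTop y (k + 1) := lt_top (Finsupp.mem_support_iff.mpr hi)
    exact h3.trans_le (hy.strictMono.monotone hk)
  have h3 : ∀ k, ¬ k < n → (y k).filter (· < prevTop y n) = 0 := by
    intro k hk
    rw [Finsupp.filter_eq_zero_iff]
    intro i hi
    by_contra h4
    have h5 := (hy k).2 i (Finsupp.mem_support_iff.mpr h4)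
    have h6 : prevTop y n ≤ prevTop y k := hy.strictMono.monotone (not_lt.mp hk)
    omega
  rw [h1]
  simp only [lc, Finsupp.linearCombination_apply, Finsupp.sum, Finsupp.support_filter]
  rw [Finset.sum_filter]
  apply Finset.sum_congr rfl
  intro k _
  by_cases hk : k < n
  · rw [if_pos hk, h2 k hk, Finsupp.filter_apply, if_pos hk]
  · rw [if_neg hk, h3 k hk, smul_zero]

theorem BasicSeq.block {K : ℝ} {e : ℕ → X} (h : BasicSeq 𝕜 K e) {y : ℕ → ℕ →₀ 𝕜}
    (hy : IsBlock y) : BasicSeq 𝕜 K (fun k => lc e (y k)) where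
  one_le := h.one_le
  ne_zero := fun i hi => (hy i).1 (h.injective hi)
  proj := by
    intro a n
    rw [← lc_lc, ← lc_lc, ← filter_lc_lt hy]
    exact h.proj _ _

theorem exists_basicSeq [CompleteSpace X] (b : SchauderBasis 𝕜 X) :
    ∃ K, BasicSeq 𝕜 K (b : ℕ → X) := by
  obtain ⟨C, hC⟩ := SchauderBasis.exists_norm_proj_le b
  refine ⟨max C 1, le_max_right _ _, ?_, ?_⟩
  · intro i hi
    have h1 := b.ortho i i
    rw [hi, map_zero] at h1
    simp at h1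
  · intro a n
    classical
    have h1 : lc b (a.filter (· < n)) = SchauderBasis.proj b n (lc b a) := by
      rw [SchauderBasis.proj_apply]
      have h2 : ∀ i, b.coord i (lc b a) = a i := by
        intro i
        simp only [lc, Finsupp.linearCombination_apply, Finsupp.sum, map_sum, map_smul,
          smul_eq_mul, b.ortho, Pi.single_apply]
        simp only [mul_ite, mul_one, mul_zero, Finset.sum_ite_eq, Finsupp.mem_support_iff]
        by_cases h : a i = 0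
        · simp [h]
        · simp [h]
      simp only [h2]
      simp only [lc, Finsupp.linearCombination_apply, Finsupp.sum, Finsupp.support_filter]
      rw [Finset.sum_filter]
      have h3 : ∑ i ∈ a.support, (if i < n then (a.filter (· < n)) i • b i else 0) =
          ∑ i ∈ a.support, (if i ∈ Finset.range n then a i • b i else 0) := by
        apply Finset.sum_congr rfl
        intro i _
        by_cases hi : i < n
        · rw [if_pos hi, if_pos (Finset.mem_range.mpr hi), Finsupp.filter_apply, if_pos hi]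
        · rw [if_neg hi, if_neg (by simpa using hi)]
      rw [h3, Finset.sum_ite_mem]
      apply Finset.sum_subset Finset.inter_subset_right
      intro i hi hi2
      have : i ∉ a.support := fun h => hi2 (Finset.mem_inter.mpr ⟨h, hi⟩)
      rw [Finsupp.notMem_support_iff.mp this, zero_smul]
    rw [h1]
    calc _ ≤ ‖SchauderBasis.proj b n‖ * ‖lc b a‖ := ContinuousLinearMap.le_opNorm _ _
      _ ≤ C * ‖lc b a‖ := by gcongr; exact hC _
      _ ≤ _ := by gcongr; exact le_max_left _ _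

theorem lc_mem_closedSpan (w : ℕ → X) (a : ℕ →₀ 𝕜) : lc w a ∈ closedSpan 𝕜 w := by
  apply Submodule.le_topologicalClosure
  rw [← Finsupp.range_linearCombination]
  exact ⟨a, rfl⟩

theorem mem_closedSpan_iff (w : ℕ → X) (x : X) :
    x ∈ closedSpan 𝕜 w ↔ ∀ ε > 0, ∃ a : ℕ →₀ 𝕜, ‖x - lc w a‖ < ε := by
  change x ∈ closure ((Submodule.span 𝕜 (range w) : Submodule 𝕜 X) : Set X) ↔ _
  rw [Metric.mem_closure_iff]
  constructor
  · intro h ε hε
    obtain ⟨y, hy, hd⟩ := h ε hε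
    rw [SetLike.mem_coe, ← Finsupp.range_linearCombination] at hy
    obtain ⟨a, rfl⟩ := hy
    exact ⟨a, by rwa [← dist_eq_norm]⟩
  · intro h ε hε
    obtain ⟨a, ha⟩ := h ε hε
    refine ⟨lc w a, ?_, by rwa [dist_eq_norm]⟩
    rw [SetLike.mem_coe, ← Finsupp.range_linearCombination]
    exact ⟨a, rfl⟩

theorem self_mem_closedSpan (w : ℕ → X) (k : ℕ) : w k ∈ closedSpan 𝕜 w := by
  have := lc_mem_closedSpan (𝕜 := 𝕜) w (Finsupp.single k 1)
  simpa [lc] using this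

theorem closedSpan_le {u v : ℕ → X} (h : ∀ k, u k ∈ closedSpan 𝕜 v) :
    closedSpan 𝕜 u ≤ closedSpan 𝕜 v := by
  apply Submodule.topologicalClosure_minimal _ _ (Submodule.isClosed_topologicalClosure _)
  rw [Submodule.span_le]
  rintro _ ⟨k, rfl⟩
  exact h k

theorem completeSpace_closedSpan [CompleteSpace X] (w : ℕ → X) :
    CompleteSpace (closedSpan 𝕜 w) :=
  (Submodule.isClosed_topologicalClosure _).completeSpace_coe

theorem denseRange_closedSpan (w : ℕ → X) :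
    DenseRange ((lc w).codRestrict (closedSpan 𝕜 w) (lc_mem_closedSpan w)) := by
  rintro ⟨x, hx⟩
  rw [Metric.mem_closure_iff]
  intro ε hε
  obtain ⟨a, ha⟩ := (mem_closedSpan_iff w x).mp hx ε hε
  refine ⟨_, ⟨a, rfl⟩, ?_⟩
  rw [dist_eq_norm]
  exact ha

/-- equivalent sequences span isomorphic spaces, quantitative -/
theorem equiv_of_seqEquivWith [CompleteSpace X] {u v : ℕ → X} {C : ℝ}
    (h : SeqEquivWith 𝕜 C u v) :
    ∃ S : closedSpan 𝕜 u ≃L[𝕜] closedSpan 𝕜 v, (∀ x, ‖S x‖ ≤ C * ‖x‖) ∧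
      ∀ x, ‖S.symm x‖ ≤ C * ‖x‖ := by
  have := completeSpace_closedSpan (𝕜 := 𝕜) u
  have := completeSpace_closedSpan (𝕜 := 𝕜) v
  obtain ⟨e1, he1, hd1⟩ : ∃ e1 : (ℕ →₀ 𝕜) →ₗ[𝕜] closedSpan 𝕜 u, (∀ a, ‖e1 a‖ = ‖lc u a‖) ∧
    DenseRange e1 := ⟨(lc u).codRestrict (closedSpan 𝕜 u) (lc_mem_closedSpan u), fun _ => rfl,
      denseRange_closedSpan u⟩
  obtain ⟨e2, he2, hd2⟩ : ∃ e2 : (ℕ →₀ 𝕜) →ₗ[𝕜] closedSpan 𝕜 v, (∀ a, ‖e2 a‖ = ‖lc v a‖) ∧
    DenseRange e2 := ⟨(lc v).codRestrict (closedSpan 𝕜 v) (lc_mem_closedSpan v), fun _ => rfl,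
      denseRange_closedSpan v⟩
  have h1 : ∀ a : ℕ →₀ 𝕜, ‖e2 ((LinearEquiv.refl 𝕜 (ℕ →₀ 𝕜)) a)‖ ≤ C * ‖e1 a‖ := by
    intro a
    rw [he1, LinearEquiv.refl_apply, he2]
    exact (h a).2
  have h2 : ∀ a : ℕ →₀ 𝕜, ‖e1 ((LinearEquiv.refl 𝕜 (ℕ →₀ 𝕜)).symm a)‖ ≤ C * ‖e2 a‖ := by
    intro a
    rw [he2, LinearEquiv.refl_symm, LinearEquiv.refl_apply, he1]
    exact (h a).1
  exact ⟨(LinearEquiv.refl 𝕜 (ℕ →₀ 𝕜)).extend e1 e2 hd1 ⟨C, h1⟩ hd2 ⟨C, h2⟩,
    LinearEquiv.norm_extend_le (LinearEquiv.refl 𝕜 (ℕ →₀ 𝕜)) e1 e2 C hd1 h1 hd2 ⟨C, h2⟩,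
    LinearEquiv.norm_extend_symm_le (LinearEquiv.refl 𝕜 (ℕ →₀ 𝕜)) e1 e2 C hd1 ⟨C, h1⟩ hd2 h2⟩

variable (𝕜) in
/-- `X` is `C`-isomorphic to the closed span of `Y` -/
def IsoC (C : ℝ) (Y : ℕ → X) : Prop :=
  ∃ T : X ≃L[𝕜] closedSpan 𝕜 Y, (∀ x, ‖T x‖ ≤ C * ‖x‖) ∧ ∀ v, ‖T.symm v‖ ≤ C * ‖v‖

theorem IsoC.mono {C C' : ℝ} {Y : ℕ → X} (h : IsoC 𝕜 C Y) (hC : C ≤ C') : IsoC 𝕜 C' Y := by
  obtain ⟨T, h1, h2⟩ := h
  exact ⟨T, fun x => (h1 x).trans (mul_le_mul_of_nonneg_right hC (norm_nonneg _)),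
    fun x => (h2 x).trans (mul_le_mul_of_nonneg_right hC (norm_nonneg _))⟩

theorem IsoC.trans [CompleteSpace X] {C C' : ℝ} {Y Z : ℕ → X} (h : IsoC 𝕜 C Y)
    (hC : 0 ≤ C) (hC' : 0 ≤ C') (h' : SeqEquivWith 𝕜 C' Y Z) : IsoC 𝕜 (C * C') Z := by
  obtain ⟨T, h1, h2⟩ := h
  obtain ⟨S, h3, h4⟩ := equiv_of_seqEquivWith h'
  refine ⟨T.trans S, fun x => ?_, fun v => ?_⟩
  · calc ‖S (T x)‖ ≤ C' * ‖T x‖ := h3 _
      _ ≤ C' * (C * ‖x‖) := by gcongr; exact h1 x
      _ = C * C' * ‖x‖ := by ring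
  · calc ‖T.symm (S.symm v)‖ ≤ C * ‖S.symm v‖ := h2 _
      _ ≤ C * (C' * ‖v‖) := by gcongr; exact h4 v
      _ = C * C' * ‖v‖ := by ring

theorem closedSpan_smul {u : ℕ → X} {c : ℕ → 𝕜} (hc : ∀ k, c k ≠ 0) :
    closedSpan 𝕜 (fun k => c k • u k) = closedSpan 𝕜 u := by
  apply le_antisymm
  · exact closedSpan_le (fun k => Submodule.smul_mem _ _ (self_mem_closedSpan u k))
  · apply closedSpan_le
    intro k
    have h1 := Submodule.smul_mem _ (c k)⁻¹
      (self_mem_closedSpan (𝕜 := 𝕜) (fun k => c k • u k) k)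
    rwa [smul_smul, inv_mul_cancel₀ (hc k), one_smul] at h1

end Run7.h157
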