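import Mathlib
import Pool.Agent.Run7.h157.Bas

/-!
Arbitrarily fast block sequences with a prescribed property; uniform version of block-minimality.
-/

noncomputable section

namespace Run7.h157

open Set Filter Topology Finsupp

variable {𝕜 : Type*} [RCLike 𝕜] {X : Type*} [NormedAddCommGroup X] [NormedSpace 𝕜 X]

theorem fast_lemma (P : ℝ → (ℕ → ℕ →₀ 𝕜) → Prop)
    (hmono : ∀ C C' y, C ≤ C' → P C y → P C' y)
    (h : ∀ n : ℕ → ℕ, StrictMono n → ∃ y : ℕ → ℕ →₀ 𝕜, IsBlock y ∧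
      (∀ k, ∀ i ∈ (y k).support, i ∈ Set.range n) ∧ ∃ C, P C y) :
    ∃ m : ℕ, 1 ≤ m ∧ ∀ M : ℕ → ℕ, ∃ y : ℕ → ℕ →₀ 𝕜, IsBlock y ∧
      (∀ k, m ≤ k → Beyond (M (prevTop y k)) (y k)) ∧ P m y := by
  by_contra hcon
  push Not at hcon
  choose M hM using fun m : ℕ => hcon (m + 1) (by omega)
  -- dominating function
  let D : ℕ → ℕ := fun n => n + 1 + ∑ m ∈ Finset.range (n + 1), ∑ k ∈ Finset.range (n + 1), M m k
  have hD : ∀ m k n, m ≤ n → k ≤ n → M m k ≤ D n := by
    intro m k n hm hk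
    have h1 : M m k ≤ ∑ k ∈ Finset.range (n + 1), M m k :=
      Finset.single_le_sum (f := M m) (fun i _ => Nat.zero_le _)
        (Finset.mem_range.mpr (Nat.lt_succ_of_le hk))
    have h2 : ∑ k ∈ Finset.range (n + 1), M m k ≤
        ∑ m ∈ Finset.range (n + 1), ∑ k ∈ Finset.range (n + 1), M m k :=
      Finset.single_le_sum (f := fun m => ∑ k ∈ Finset.range (n + 1), M m k)
        (fun i _ => Nat.zero_le _) (Finset.mem_range.mpr (Nat.lt_succ_of_le hm))
    simp only [D]; omega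
  have hD1 : ∀ n, n < D n := fun n => by simp only [D]; omega
  let n : ℕ → ℕ := fun k => Nat.rec 0 (fun _ r => D (r + 1)) k
  have hn : ∀ k, n (k + 1) = D (n k + 1) := fun k => rfl
  have hnmono : StrictMono n := strictMono_nat_of_lt_succ (fun k => by
    rw [hn]; have := hD1 (n k + 1); omega)
  obtain ⟨y, hy, hyn, C, hC⟩ := h n hnmono
  -- positions of the supports
  have hpos : ∀ k, ∀ i ∈ (y k).support, ∃ j, k ≤ j ∧ i = n j := by
    intro k
    induction k with
    | zero =>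
      intro i hi
      obtain ⟨j, hj⟩ := hyn 0 i hi
      exact ⟨j, Nat.zero_le _, hj.symm⟩
    | succ k ih =>
      intro i hi
      obtain ⟨j, hj⟩ := hyn (k + 1) i hi
      obtain ⟨i0, hi0⟩ := Finsupp.support_nonempty_iff.mpr (hy k).1
      obtain ⟨j0, hj0, rfl⟩ := ih i0 hi0
      have hlt := hy.lt (Nat.lt_succ_self k) hi0 hi
      rw [← hj] at hlt
      have := hnmono.lt_iff_lt.mp hlt
      exact ⟨j, by omega, hj.symm⟩
  obtain ⟨m, hm⟩ := exists_nat_ge C
  have hnk : ∀ k, k ≤ n k := fun k => hnmono.le_apply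
  refine hM m y hy ?_ (hmono C _ y (by push_cast; linarith) hC)
  intro k hk i hi
  obtain ⟨k', rfl⟩ : ∃ k', k = k' + 1 := ⟨k - 1, by omega⟩
  obtain ⟨i0, hi0, htop⟩ := exists_top_eq (hy k').1
  obtain ⟨j0, hj0, rfl⟩ := hpos k' i0 hi0
  obtain ⟨j, hj, rfl⟩ := hpos (k' + 1) i hi
  have hlt := hy.lt (Nat.lt_succ_self k') hi0 hi
  have hjj := hnmono.lt_iff_lt.mp hlt
  have h1 : n (j0 + 1) ≤ n j := hnmono.monotone hjj
  rw [prevTop_succ, htop]
  have h2 : M m (n j0 + 1) ≤ D (n j0 + 1) := hD _ _ _ (by have := hnk j0; omega) le_rfl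
  rw [hn] at h1
  omega

theorem init_le {K : ℝ} {Y W : ℕ → X} (hY : BasicSeq 𝕜 K Y) {m : ℕ}
    (h1 : ∀ k, k < m → ‖W k‖ = ‖Y k‖) (h2 : ∀ k, m ≤ k → W k = Y k) (a : ℕ →₀ 𝕜) :
    ‖lc W a‖ ≤ (2 * m * K + 2 * K) * ‖lc Y a‖ := by
  classical
  have hK := hY.one_le
  have hdec := filter_split a m
  set a1 := a.filter (· < m) with ha1
  set a2 := a.filter (fun i => ¬ i < m) with ha2
  have hs1 : ∀ i ∈ a1.support, i < m ∧ a1 i = a i := by
    intro i hi
    rw [ha1, Finsupp.support_filter, Finset.mem_filter] at hi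
    exact ⟨hi.2, by rw [ha1, Finsupp.filter_apply, if_pos hi.2]⟩
  have hs2 : ∀ i ∈ a2.support, m ≤ i := by
    intro i hi
    rw [ha2, Finsupp.support_filter, Finset.mem_filter] at hi
    exact not_lt.mp hi.2
  have hcard : (a1.support.card : ℝ) ≤ m := by
    have h1 : a1.support ⊆ Finset.range m := by
      intro i hi
      exact Finset.mem_range.mpr (hs1 i hi).1
    have := Finset.card_le_card h1
    rw [Finset.card_range] at this
    exact_mod_cast this
  have e1 : ‖lc W a1‖ ≤ m * (2 * K * ‖lc Y a‖) := by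
    have e0 : lc W a1 = ∑ i ∈ a1.support, a1 i • W i := by
      simp only [lc, Finsupp.linearCombination_apply, Finsupp.sum]
    rw [e0]
    calc _ ≤ ∑ i ∈ a1.support, ‖a1 i • W i‖ := norm_sum_le _ _
      _ ≤ ∑ i ∈ a1.support, 2 * K * ‖lc Y a‖ := by
          apply Finset.sum_le_sum
          intro i hi
          obtain ⟨hi1, hi2⟩ := hs1 i hi
          rw [norm_smul, h1 i hi1, hi2]
          exact hY.coord a i
      _ = (a1.support.card : ℝ) * (2 * K * ‖lc Y a‖) := by rw [Finset.sum_const, nsmul_eq_mul]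
      _ ≤ m * (2 * K * ‖lc Y a‖) := by gcongr
  have e2 : ‖lc W a2‖ ≤ 2 * K * ‖lc Y a‖ := by
    rw [lc_congr (fun i hi => h2 i (hs2 i hi))]
    exact hY.tail a m
  calc ‖lc W a‖ = ‖lc W a1 + lc W a2‖ := by rw [← map_add, ← hdec]
    _ ≤ ‖lc W a1‖ + ‖lc W a2‖ := norm_add_le _ _
    _ ≤ m * (2 * K * ‖lc Y a‖) + 2 * K * ‖lc Y a‖ := add_le_add e1 e2
    _ = _ := by ring

variable (𝕜) in
/-- every subsequence has a block sequence spanning a copy of `X` (coefficient form) -/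
def HypI (e : ℕ → X) : Prop :=
  ∀ n : ℕ → ℕ, StrictMono n → ∃ y : ℕ → ℕ →₀ 𝕜, IsBlock y ∧
    (∀ k, ∀ i ∈ (y k).support, i ∈ Set.range n) ∧ ∃ C, IsoC 𝕜 C (fun k => lc e (y k))

/-- the uniformised statement -/
theorem uniform2 [CompleteSpace X] {K : ℝ} {e : ℕ → X} (he : BasicSeq 𝕜 K e) (h : HypI 𝕜 e) :
    ∃ C : ℝ, 1 ≤ C ∧ ∀ M : ℕ → ℕ, ∃ y : ℕ → ℕ →₀ 𝕜, IsBlock y ∧
      (∀ k, Beyond (M (prevTop y k)) (y k)) ∧ IsoC 𝕜 C (fun k => lc e (y k)) := by
  classical
  obtain ⟨m, hm1, hm⟩ := fast_lemma (fun C y => IsoC 𝕜 C (fun k => lc e (y k)))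
    (fun C C' y hC hy => hy.mono hC) h
  have hK := he.one_le
  have hm1' : (1 : ℝ) ≤ m := by exact_mod_cast hm1
  have hmK : (1 : ℝ) ≤ 2 * m * K + 2 * K := by
    have : (0 : ℝ) ≤ 2 * m * K := by positivity
    linarith
  have hmm : (1 : ℝ) ≤ m * (2 * m * K + 2 * K) := by
    have := mul_le_mul hm1' hmK zero_le_one (by linarith)
    linarith
  refine ⟨m * (2 * m * K + 2 * K), hmm, ?_⟩
  intro M
  let p : ℕ → ℕ := fun k => Nat.rec (up M 0) (fun _ r => up M (r + 1)) k
  have hp : ∀ k, p (k + 1) = up M (p k + 1) := fun k => rfl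
  have hpmono : StrictMono p := strictMono_nat_of_lt_succ (fun k => by
    rw [hp]; have := self_le_up M (p k + 1); omega)
  obtain ⟨y, hy, hyM, hyI⟩ := hm (fun n => up M (n + p m))
  have hne : ∀ i, (‖e i‖ : ℝ) ≠ 0 := fun i => norm_ne_zero_iff.mpr (he.ne_zero i)
  have hney : ∀ i, (‖lc e (y i)‖ : ℝ) ≠ 0 := fun i =>
    norm_ne_zero_iff.mpr (fun h0 => (hy i).1 (he.injective h0))
  let w : ℕ → ℕ →₀ 𝕜 := fun k =>
    if k < m then Finsupp.single (p k) ((‖lc e (y k)‖ / ‖e (p k)‖ : ℝ) : 𝕜) else y k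
  have hw1 : ∀ k, k < m → w k = Finsupp.single (p k) ((‖lc e (y k)‖ / ‖e (p k)‖ : ℝ) : 𝕜) :=
    fun k hk => by simp only [w, if_pos hk]
  have hw2 : ∀ k, m ≤ k → w k = y k := fun k hk => by simp only [w, if_neg (not_lt.mpr hk)]
  have hcoef : ∀ k, (((‖lc e (y k)‖ / ‖e (p k)‖ : ℝ) : 𝕜)) ≠ 0 := fun k => by
    have : (‖lc e (y k)‖ / ‖e (p k)‖ : ℝ) ≠ 0 := div_ne_zero (hney _) (hne _)
    exact_mod_cast this
  have hwtop : ∀ k, k < m → top (w k) = p k + 1 := by
    intro k hk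
    rw [hw1 k hk]
    unfold top
    rw [Finsupp.support_single _ (hcoef k), Finset.sup_singleton]
  have hwbey : ∀ k, k < m → ∀ N, N ≤ p k → Beyond N (w k) := by
    intro k hk N hN i hi
    rw [hw1 k hk, Finsupp.support_single _ (hcoef k), Finset.mem_singleton] at hi
    rw [hi]; exact hN
  have hwne : ∀ k, w k ≠ 0 := by
    intro k
    by_cases hk : k < m
    · rw [hw1 k hk]
      exact Finsupp.single_ne_zero.mpr (hcoef k)
    · rw [hw2 k (not_lt.mp hk)]
      exact (hy k).1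
  have hfast : ∀ k, Beyond (up M (prevTop w k)) (w k) := by
    intro k
    cases k with
    | zero => exact hwbey 0 hm1 _ le_rfl
    | succ k =>
      rw [prevTop_succ]
      by_cases hk : k + 1 < m
      · apply hwbey (k + 1) hk
        rw [hwtop k (by omega), hp]
      · rw [hw2 (k + 1) (by omega)]
        apply (hyM (k + 1) (by omega)).mono
        apply up_mono
        by_cases hk2 : k < m
        · have hkm : m = k + 1 := by omega
          rw [hwtop k hk2, hkm]
          have := hpmono (Nat.lt_succ_self k)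
          simp only [Nat.succ_eq_add_one] at this
          omega
        · rw [hw2 k (by omega), prevTop_succ]
          omega
  have hblock : IsBlock w := fun k => ⟨hwne k, (hfast k).mono (self_le_up _ _)⟩
  refine ⟨w, hblock, fun k => (hfast k).mono (le_up _ _), ?_⟩
  have hW := he.block hblock
  have hY := he.block hy
  have hnw : ∀ i, i < m → ‖lc e (w i)‖ = ‖lc e (y i)‖ := by
    intro i hi
    rw [hw1 i hi]
    simp only [lc, Finsupp.linearCombination_single, norm_smul, RCLike.norm_ofReal]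
    rw [abs_of_nonneg (by positivity)]
    field_simp [hne]
  apply IsoC.trans hyI (by linarith) (by linarith)
  intro a
  constructor
  · exact init_le hW (fun k hk => (hnw k hk).symm) (fun k hk => by rw [hw2 k hk]) a
  · exact init_le hY hnw (fun k hk => by rw [hw2 k hk]) a

end Run7.h157
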