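import Mathlib
import Pool.Agent.Run7.h157.Fast

/-!
Netted witnesses for isomorphisms between `X` and spans of block sequences.
-/

noncomputable section

namespace Run7.h157

open Set Filter Topology Finsupp

variable {𝕜 : Type*} [RCLike 𝕜] {X : Type*} [NormedAddCommGroup X] [NormedSpace 𝕜 X]

theorem exists_netSeq (Q : Subfield 𝕜) (hI : (RCLike.I : 𝕜) ∈ Q) (R ε : ℕ → ℕ → ℝ)
    (hε : ∀ k i, 0 < ε k i) :
    ∃ Lam : ℕ → ℕ → Finset 𝕜, (∀ k i, (0 : 𝕜) ∈ Lam k i) ∧ (∀ k i, ∀ x ∈ Lam k i, x ∈ Q) ∧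
      ∀ k i (t : 𝕜), ‖t‖ ≤ R k i → ∃ x ∈ Lam k i, ‖t - x‖ ≤ ε k i := by
  choose Lam h0 hQ hnet using fun k i => exists_net Q hI (R k i) (hε k i)
  exact ⟨Lam, h0, hQ, hnet⟩

theorem round (Lam : ℕ → Finset 𝕜) (h0 : ∀ i, (0 : 𝕜) ∈ Lam i) (R ε : ℕ → ℝ)
    (hε : ∀ i, 0 < ε i) (hnet : ∀ i (t : 𝕜), ‖t‖ ≤ R i → ∃ x ∈ Lam i, ‖t - x‖ ≤ ε i)
    (v : ℕ →₀ 𝕜) (hv : ∀ i, ‖v i‖ ≤ R i) :
    ∃ v' : ℕ →₀ 𝕜, v'.support ⊆ v.support ∧ (∀ i, v' i ∈ Lam i) ∧ ∀ i, ‖(v - v') i‖ ≤ ε i := by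
  classical
  choose x hxL hx using fun i => hnet i (v i) (hv i)
  refine ⟨Finsupp.onFinset v.support (fun i => if i ∈ v.support then x i else 0) (by
      intro i hi
      by_contra h
      simp only [h, if_false] at hi
      exact hi rfl), Finsupp.support_onFinset_subset, ?_, ?_⟩
  · intro i
    by_cases hi : i ∈ v.support
    · simp only [Finsupp.onFinset_apply, if_pos hi]; exact hxL i
    · simp only [Finsupp.onFinset_apply, if_neg hi]; exact h0 i
  · intro i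
    rw [Finsupp.sub_apply, Finsupp.onFinset_apply]
    by_cases hi : i ∈ v.support
    · rw [if_pos hi]; exact hx i
    · rw [if_neg hi, Finsupp.notMem_support_iff.mp hi, sub_zero, norm_zero]
      exact (hε i).le

theorem norm_lc_le (e : ℕ → X) (v : ℕ →₀ 𝕜) {δ : ℝ} (hδ : 0 ≤ δ)
    (h : ∀ i, ‖v i‖ * ‖e i‖ ≤ δ * (1 / 2) ^ (i + 1)) : ‖lc e v‖ ≤ δ := by
  have e0 : lc e v = ∑ i ∈ v.support, v i • e i := by
    simp only [lc, Finsupp.linearCombination_apply, Finsupp.sum]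
  rw [e0]
  calc _ ≤ ∑ i ∈ v.support, ‖v i • e i‖ := norm_sum_le _ _
    _ ≤ ∑ i ∈ v.support, δ * (1 / 2) ^ (0 + i + 1) := by
        apply Finset.sum_le_sum
        intro i _
        rw [norm_smul, zero_add]
        exact h i
    _ = δ * ∑ i ∈ v.support, (1 / 2) ^ (0 + i + 1) := by rw [Finset.mul_sum]
    _ ≤ δ * (1 / 2) ^ 0 := by gcongr; exact geom_le _ _
    _ = δ := by ring

theorem small_sum {K : ℝ} {e : ℕ → X} (he : BasicSeq 𝕜 K e) {δ : ℝ} (hδ : 0 ≤ δ) (d : ℕ → X)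
    (hd : ∀ k, ‖d k‖ ≤ δ * ‖e k‖ / (2 * K) * (1 / 2) ^ (k + 1)) (a : ℕ →₀ 𝕜) :
    ‖lc d a‖ ≤ δ * ‖lc e a‖ := by
  have hK := he.one_le
  apply norm_lc_le d a (by positivity)
  intro i
  have h1 := he.coord a i
  have h2 : (0 : ℝ) < 2 * K := by linarith
  calc ‖a i‖ * ‖d i‖ ≤ ‖a i‖ * (δ * ‖e i‖ / (2 * K) * (1 / 2) ^ (i + 1)) := by
        gcongr; exact hd i
    _ = δ * ((‖a i‖ * ‖e i‖) / (2 * K)) * (1 / 2) ^ (i + 1) := by ring
    _ ≤ δ * ‖lc e a‖ * (1 / 2) ^ (i + 1) := by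
        have h3 : (‖a i‖ * ‖e i‖) / (2 * K) ≤ ‖lc e a‖ := by
          rw [div_le_iff₀ h2]
          linarith
        gcongr

/-- approximation lemma for closed subspaces -/
theorem le_of_half {V W : Submodule 𝕜 X} (hW : IsClosed (W : Set X)) (hWV : W ≤ V)
    (h : ∀ v ∈ V, ∃ w ∈ W, ‖v - w‖ ≤ 1 / 2 * ‖v‖) : V ≤ W := by
  intro v hv
  have key : ∀ n : ℕ, ∃ w ∈ W, ‖v - w‖ ≤ (1 / 2) ^ n * ‖v‖ := by
    intro n
    induction n with
    | zero => exact ⟨0, W.zero_mem, by simp⟩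
    | succ n ih =>
      obtain ⟨w, hw, hn⟩ := ih
      obtain ⟨w', hw', hn'⟩ := h (v - w) (V.sub_mem hv (hWV hw))
      refine ⟨w + w', W.add_mem hw hw', ?_⟩
      rw [← sub_sub]
      calc _ ≤ 1 / 2 * ‖v - w‖ := hn'
        _ ≤ 1 / 2 * ((1 / 2) ^ n * ‖v‖) := by gcongr
        _ = _ := by ring
  choose w hw hn using key
  apply hW.mem_of_tendsto (b := atTop) (f := w) _ (Eventually.of_forall hw)
  rw [tendsto_iff_norm_sub_tendsto_zero]
  have h1 : Tendsto (fun n : ℕ => (1 / 2 : ℝ) ^ n * ‖v‖) atTop (𝓝 0) := by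
    have := (tendsto_pow_atTop_nhds_zero_of_lt_one (by norm_num : (0 : ℝ) ≤ 1 / 2)
      (by norm_num)).mul_const ‖v‖
    rwa [zero_mul] at this
  refine squeeze_zero (fun n => norm_nonneg _) (fun n => ?_) h1
  rw [norm_sub_rev]
  exact hn n

/-- witnesses -/
structure Wit (Lam Gam : ℕ → ℕ → Finset 𝕜) (e : ℕ → X) (C : ℝ) (y U : ℕ → ℕ →₀ 𝕜) : Prop where
  memy : ∀ k i, y k i ∈ Lam k i
  memU : ∀ i j, U i j ∈ Gam i j
  block : IsBlock y
  eqC : ∀ a : ℕ →₀ 𝕜, ‖lc e (lc y (lc U a))‖ ≤ C * ‖lc e a‖ ∧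
    ‖lc e a‖ ≤ C * ‖lc e (lc y (lc U a))‖
  dens : ∀ j, lc e (y j) ∈ closedSpan 𝕜 (fun i => lc e (lc y (U i)))

theorem seqEquiv_of_close {K : ℝ} {Y Z : ℕ → X} (hY : BasicSeq 𝕜 K Y)
    (h : ∀ k, ‖Y k - Z k‖ ≤ 1 / 2 * ‖Y k‖ / (2 * K) * (1 / 2) ^ (k + 1)) :
    SeqEquivWith 𝕜 2 Y Z := by
  intro a
  have h1 := small_sum hY (by norm_num : (0 : ℝ) ≤ 1 / 2) (fun k => Y k - Z k) h a
  have h2 : lc (fun k => Y k - Z k) a = lc Y a - lc Z a := by
    simp only [lc, Finsupp.linearCombination_apply, Finsupp.sum]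
    rw [← Finset.sum_sub_distrib]
    exact Finset.sum_congr rfl (fun k _ => smul_sub _ _ _)
  rw [h2] at h1
  have h3 : ‖lc Z a‖ ≤ ‖lc Y a‖ + ‖lc Y a - lc Z a‖ := by
    have := norm_sub_le (lc Y a) (lc Y a - lc Z a)
    rwa [sub_sub_cancel] at this
  have h4 : ‖lc Y a‖ ≤ ‖lc Z a‖ + ‖lc Y a - lc Z a‖ := by
    have := norm_add_le (lc Z a) (lc Y a - lc Z a)
    rwa [add_sub_cancel] at this
  have := norm_nonneg (lc Y a)
  change ‖lc Y a‖ ≤ 2 * ‖lc Z a‖ ∧ ‖lc Z a‖ ≤ 2 * ‖lc Y a‖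
  constructor <;> linarith

theorem exists_wit [CompleteSpace X] {K : ℝ} {e : ℕ → X} (he : BasicSeq 𝕜 K e)
    (hspan : ∀ (x : X) (ε : ℝ), 0 < ε → ∃ a : ℕ →₀ 𝕜, ‖x - lc e a‖ < ε) (Q : Subfield 𝕜)
    (hI : (RCLike.I : 𝕜) ∈ Q) (h : HypI 𝕜 e) :
    ∃ C : ℝ, 1 ≤ C ∧ ∃ Lam Gam : ℕ → ℕ → Finset 𝕜, (∀ k i, ∀ x ∈ Lam k i, x ∈ Q) ∧
      (∀ k i, ∀ x ∈ Gam k i, x ∈ Q) ∧
      ∀ M : ℕ → ℕ, ∃ y U : ℕ → ℕ →₀ 𝕜, Wit Lam Gam e C y U ∧
        ∀ k, Beyond (M (prevTop y k)) (y k) := by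
  classical
  obtain ⟨C0, hC0, hC⟩ := uniform2 he h
  have hK := he.one_le
  have hpos : ∀ i, 0 < ‖e i‖ := fun i => norm_pos_iff.mpr (he.ne_zero i)
  obtain ⟨Lam, hL0, hLQ, hLnet⟩ := exists_netSeq Q hI (fun _ i => 2 * K / ‖e i‖)
    (fun k i => (1 / 2 / (2 * K) * (1 / 2) ^ (k + 1)) * (1 / 2) ^ (i + 1) / ‖e i‖)
    (fun k i => by have := hpos i; positivity)
  set C1 : ℝ := C0 * 2 with hC1
  have hC1' : 1 ≤ C1 := by rw [hC1]; linarith
  set κ : ℝ := 1 / (4 * C1) with hκ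
  have hκ0 : 0 < κ := by positivity
  have hκ1 : κ ≤ 1 / 4 := by
    rw [hκ, div_le_div_iff₀ (by positivity) (by norm_num)]
    linarith
  have hκC : C1 * κ = 1 / 4 := by rw [hκ]; field_simp
  set δ : ℕ → ℝ := fun i => 1 / 2 * (κ * ‖e i‖ / (2 * K) * (1 / 2) ^ (i + 1)) with hδ
  have hδ0 : ∀ i, 0 < δ i := fun i => by have := hpos i; simp only [hδ]; positivity
  have hδ1 : ∀ i, δ i ≤ ‖e i‖ := by
    intro i
    simp only [hδ]
    have h1 : κ * ‖e i‖ / (2 * K) * (1 / 2) ^ (i + 1) ≤ ‖e i‖ := by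
      have h2 : ((1 : ℝ) / 2) ^ (i + 1) ≤ 1 := pow_le_one₀ (by norm_num) (by norm_num)
      have h3 : κ * ‖e i‖ / (2 * K) ≤ ‖e i‖ := by
        rw [div_le_iff₀ (by linarith)]
        have := hpos i
        nlinarith
      have := hpos i
      calc _ ≤ ‖e i‖ * 1 := by gcongr
        _ = _ := mul_one _
    have := hpos i
    linarith
  obtain ⟨Gam, hG0, hGQ, hGnet⟩ := exists_netSeq Q hI (fun i _ => 4 * K * (C1 + 1) * ‖e i‖)
    (fun i j => δ i / 2 * (1 / 2) ^ (j + 1)) (fun i j => by have := hδ0 i; positivity)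
  refine ⟨2 * C1, by linarith, Lam, Gam, hLQ, hGQ, ?_⟩
  intro M
  obtain ⟨y0, hy0, hy0M, hy0I⟩ := hC (up M)
  -- normalise
  have hne0 : ∀ k, lc e (y0 k) ≠ 0 := fun k h0 => (hy0 k).1 (he.injective h0)
  set y1 : ℕ → ℕ →₀ 𝕜 := fun k => normVec e (y0 k) with hy1
  have hy1n : ∀ k, ‖lc e (y1 k)‖ = 1 := fun k => norm_normVec (hne0 k)
  have hy1s : ∀ k, (y1 k).support = (y0 k).support := by
    intro k
    apply Finset.Subset.antisymm support_normVec
    intro i hi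
    rw [Finsupp.mem_support_iff] at hi ⊢
    simp only [hy1, normVec, Finsupp.smul_apply, smul_eq_mul]
    refine mul_ne_zero (inv_ne_zero ?_) hi
    have := norm_ne_zero_iff.mpr (hne0 k)
    exact_mod_cast this
  have htop01 : ∀ k, top (y1 k) = top (y0 k) := fun k => by unfold top; rw [hy1s]
  have hprev01 : ∀ k, prevTop y1 k = prevTop y0 k := by
    intro k
    cases k with
    | zero => rfl
    | succ k => rw [prevTop_succ, prevTop_succ, htop01]
  have hy1b : IsBlock y1 := by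
    intro k
    refine ⟨normVec_ne_zero (hne0 k), ?_⟩
    intro i hi
    rw [hprev01]
    rw [hy1s] at hi
    exact (hy0 k).2 i hi
  have hI1 : IsoC 𝕜 C0 (fun k => lc e (y1 k)) := by
    have h1 : (fun k => lc e (y1 k)) = fun k => (((‖lc e (y0 k)‖ : ℝ) : 𝕜)⁻¹) • lc e (y0 k) := by
      funext k
      simp only [hy1, normVec, map_smul]
    have h2 : closedSpan 𝕜 (fun k => lc e (y1 k)) = closedSpan 𝕜 (fun k => lc e (y0 k)) := by
      rw [h1]
      apply closedSpan_smul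
      intro k
      apply inv_ne_zero
      have := norm_ne_zero_iff.mpr (hne0 k)
      exact_mod_cast this
    unfold IsoC
    rw [h2]
    exact hy0I
  have hY1 := he.block hy1b
  -- round
  have hround : ∀ k, ∃ v' : ℕ →₀ 𝕜, v'.support ⊆ (y1 k).support ∧ (∀ i, v' i ∈ Lam k i) ∧
      ∀ i, ‖(y1 k - v') i‖ ≤ (1 / 2 / (2 * K) * (1 / 2) ^ (k + 1)) * (1 / 2) ^ (i + 1) / ‖e i‖ := by
    intro k
    apply round (Lam k) (hL0 k) (fun i => 2 * K / ‖e i‖)
      (fun i => (1 / 2 / (2 * K) * (1 / 2) ^ (k + 1)) * (1 / 2) ^ (i + 1) / ‖e i‖)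
      (fun i => by have := hpos i; positivity) (hLnet k)
    intro i
    have h1 := he.coord (y1 k) i
    rw [hy1n, mul_one] at h1
    rw [le_div_iff₀ (hpos i)]
    exact h1
  choose y hys hyL hyd using hround
  have hclose : ∀ k, ‖lc e (y1 k) - lc e (y k)‖ ≤
      1 / 2 * ‖lc e (y1 k)‖ / (2 * K) * (1 / 2) ^ (k + 1) := by
    intro k
    rw [← map_sub, hy1n, mul_one]
    apply norm_lc_le e _ (by positivity)
    intro i
    have h1 := hyd k i
    rw [le_div_iff₀ (hpos i)] at h1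
    exact h1
  have hSE : SeqEquivWith 𝕜 2 (fun k => lc e (y1 k)) (fun k => lc e (y k)) :=
    seqEquiv_of_close hY1 hclose
  have hYn : ∀ k, 1 ≤ 2 * ‖lc e (y k)‖ ∧ ‖lc e (y k)‖ ≤ 2 := by
    intro k
    have h1 := hSE (Finsupp.single k 1)
    simp only [Finsupp.linearCombination_single, one_smul] at h1
    have h2 := hy1n k
    simp only [lc] at h2
    rw [h2] at h1
    simp only [lc]
    constructor
    · exact h1.1
    · linarith [h1.2]
  have hyne : ∀ k, y k ≠ 0 := by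
    intro k h0
    have := (hYn k).1
    rw [h0, map_zero, norm_zero] at this
    linarith
  have htop : ∀ k, prevTop y k ≤ prevTop y0 k := by
    intro k
    cases k with
    | zero => exact le_rfl
    | succ k =>
      rw [prevTop_succ, prevTop_succ, ← htop01]
      exact top_mono (hys k)
  have hyb : IsBlock y := by
    intro k
    refine ⟨hyne k, fun i hi => ?_⟩
    have hi' := hys k hi
    rw [hy1s] at hi'
    exact (htop k).trans ((hy0 k).2 i hi')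
  have hyM : ∀ k, Beyond (M (prevTop y k)) (y k) := by
    intro k i hi
    have hi' := hys k hi
    rw [hy1s] at hi'
    have h1 := hy0M k i hi'
    have h2 : up M (prevTop y k) ≤ up M (prevTop y0 k) := up_mono M (htop k)
    have h3 := le_up M (prevTop y k)
    omega
  have hY := he.block hyb
  obtain ⟨T, hT1, hT2⟩ := IsoC.trans hI1 (by linarith) (by norm_num) hSE
  -- approximate the images of the basis
  have happ : ∀ i, ∃ b : ℕ →₀ 𝕜, ‖((T (e i) : closedSpan 𝕜 (fun k => lc e (y k))) : X) -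
      lc (fun k => lc e (y k)) b‖ < δ i := by
    intro i
    exact (mem_closedSpan_iff _ _).mp (T (e i)).2 (δ i) (hδ0 i)
  choose b hb using happ
  have hTe : ∀ i, ‖((T (e i) : closedSpan 𝕜 (fun k => lc e (y k))) : X)‖ ≤ C1 * ‖e i‖ :=
    fun i => hT1 (e i)
  have hbc : ∀ i j, ‖b i j‖ ≤ 4 * K * (C1 + 1) * ‖e i‖ := by
    intro i j
    have h1 := hY.coord (b i) j
    have h2 : ‖lc (fun k => lc e (y k)) (b i)‖ ≤ (C1 + 1) * ‖e i‖ := by
      have h3 := norm_sub_norm_le (lc (fun k => lc e (y k)) (b i))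
        ((T (e i) : closedSpan 𝕜 (fun k => lc e (y k))) : X)
      rw [norm_sub_rev] at h3
      have h4 := hb i
      have h5 := hTe i
      have h6 := hδ1 i
      nlinarith
    have h3 := (hYn j).1
    have h4 : ‖b i j‖ * 1 ≤ ‖b i j‖ * (2 * ‖lc e (y j)‖) := by gcongr
    have h5 : 2 * K * ‖lc (fun k => lc e (y k)) (b i)‖ ≤ 2 * K * ((C1 + 1) * ‖e i‖) := by gcongr
    nlinarith
  have hroundU : ∀ i, ∃ v' : ℕ →₀ 𝕜, v'.support ⊆ (b i).support ∧ (∀ j, v' j ∈ Gam i j) ∧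
      ∀ j, ‖(b i - v') j‖ ≤ δ i / 2 * (1 / 2) ^ (j + 1) := by
    intro i
    exact round (Gam i) (hG0 i) (fun _ => 4 * K * (C1 + 1) * ‖e i‖)
      (fun j => δ i / 2 * (1 / 2) ^ (j + 1)) (fun j => by have := hδ0 i; positivity)
      (hGnet i) (b i) (hbc i)
  choose U _ hUG hUd using hroundU
  set u : ℕ → X := fun i => lc e (lc y (U i)) with hu
  have hu' : ∀ i, u i = lc (fun k => lc e (y k)) (U i) := fun i => by
    simp only [hu]; rw [lc_lc]
  have hud : ∀ i, ‖((T (e i) : closedSpan 𝕜 (fun k => lc e (y k))) : X) - u i‖ ≤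
      κ * ‖e i‖ / (2 * K) * (1 / 2) ^ (i + 1) := by
    intro i
    have h1 : ‖lc (fun k => lc e (y k)) (b i - U i)‖ ≤ δ i := by
      apply norm_lc_le _ _ (hδ0 i).le
      intro j
      have h2 := hUd i j
      have h3 := (hYn j).2
      calc ‖(b i - U i) j‖ * ‖lc e (y j)‖ ≤ (δ i / 2 * (1 / 2) ^ (j + 1)) * 2 := by
            have := hδ0 i
            gcongr
        _ = _ := by ring
    rw [map_sub, ← hu'] at h1
    have h2 := hb i
    have h3 : ((T (e i) : closedSpan 𝕜 (fun k => lc e (y k))) : X) - u i =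
        (((T (e i) : closedSpan 𝕜 (fun k => lc e (y k))) : X) - lc (fun k => lc e (y k)) (b i)) +
        (lc (fun k => lc e (y k)) (b i) - u i) := by abel
    rw [h3]
    calc _ ≤ δ i + δ i := (norm_add_le _ _).trans (add_le_add h2.le h1)
      _ = _ := by simp only [hδ]; ring
  have hsmall : ∀ a : ℕ →₀ 𝕜, ‖((T (lc e a) : closedSpan 𝕜 (fun k => lc e (y k))) : X) - lc u a‖ ≤
      κ * ‖lc e a‖ := by
    intro a
    have h1 := small_sum he hκ0.le
      (fun i => ((T (e i) : closedSpan 𝕜 (fun k => lc e (y k))) : X) - u i) hud a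
    have h2 : lc (fun i => ((T (e i) : closedSpan 𝕜 (fun k => lc e (y k))) : X) - u i) a =
        ((T (lc e a) : closedSpan 𝕜 (fun k => lc e (y k))) : X) - lc u a := by
      have h3 : ((T (lc e a) : closedSpan 𝕜 (fun k => lc e (y k))) : X) =
          lc (fun i => ((T (e i) : closedSpan 𝕜 (fun k => lc e (y k))) : X)) a :=
        Finsupp.apply_linearCombination 𝕜 ((closedSpan 𝕜 (fun k => lc e (y k))).subtype.comp
          T.toLinearEquiv.toLinearMap) e a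
      rw [h3]
      simp only [lc, Finsupp.linearCombination_apply, Finsupp.sum]
      rw [← Finset.sum_sub_distrib]
      exact Finset.sum_congr rfl (fun k _ => smul_sub _ _ _)
    rw [h2] at h1
    exact h1
  have hcomp : ∀ a : ℕ →₀ 𝕜, lc e (lc y (lc U a)) = lc u a := by
    intro a
    rw [lc_lc y U a, lc_lc e]
  have heqC : ∀ a : ℕ →₀ 𝕜, ‖lc u a‖ ≤ 2 * C1 * ‖lc e a‖ ∧ ‖lc e a‖ ≤ 2 * C1 * ‖lc u a‖ := by
    intro a
    have h1 := hsmall a
    have h2 : ‖((T (lc e a) : closedSpan 𝕜 (fun k => lc e (y k))) : X)‖ ≤ C1 * ‖lc e a‖ :=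
      hT1 (lc e a)
    have h3 : ‖lc e a‖ ≤ C1 * ‖((T (lc e a) : closedSpan 𝕜 (fun k => lc e (y k))) : X)‖ := by
      have := hT2 (T (lc e a))
      rwa [ContinuousLinearEquiv.symm_apply_apply] at this
    have h4 : ‖lc u a‖ ≤ ‖((T (lc e a) : closedSpan 𝕜 (fun k => lc e (y k))) : X)‖ +
        κ * ‖lc e a‖ := by
      have h5 := norm_sub_norm_le (lc u a)
        ((T (lc e a) : closedSpan 𝕜 (fun k => lc e (y k))) : X)
      rw [norm_sub_rev] at h5
      linarith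
    have h5 : ‖((T (lc e a) : closedSpan 𝕜 (fun k => lc e (y k))) : X)‖ ≤ ‖lc u a‖ +
        κ * ‖lc e a‖ := by
      have h5 := norm_sub_norm_le ((T (lc e a) : closedSpan 𝕜 (fun k => lc e (y k))) : X)
        (lc u a)
      linarith
    have h6 := norm_nonneg (lc e a)
    constructor
    · nlinarith
    · have h7 : ‖lc e a‖ ≤ C1 * (‖lc u a‖ + κ * ‖lc e a‖) :=
        h3.trans (by gcongr)
      have h8 : C1 * (‖lc u a‖ + κ * ‖lc e a‖) = C1 * ‖lc u a‖ + 1 / 4 * ‖lc e a‖ := by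
        rw [mul_add, ← mul_assoc, hκC]
      have h9 := norm_nonneg (lc u a)
      nlinarith
  refine ⟨y, U, ⟨hyL, hUG, hyb, ?_, ?_⟩, hyM⟩
  · intro a
    rw [hcomp a]
    exact heqC a
  · have hle : closedSpan 𝕜 (fun k => lc e (y k)) ≤ closedSpan 𝕜 u := by
      apply le_of_half (Submodule.isClosed_topologicalClosure _)
      · apply closedSpan_le
        intro i
        rw [hu']
        exact lc_mem_closedSpan _ _
      · intro v hv
        by_cases hv0 : v = 0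
        · exact ⟨0, Submodule.zero_mem _, by simp [hv0]⟩
        have hvn : 0 < ‖v‖ := norm_pos_iff.mpr hv0
        obtain ⟨a, ha⟩ := hspan (T.symm ⟨v, hv⟩) (‖v‖ / (8 * C1)) (by positivity)
        refine ⟨lc u a, lc_mem_closedSpan _ _, ?_⟩
        have h1 : ‖T.symm ⟨v, hv⟩‖ ≤ C1 * ‖v‖ := hT2 ⟨v, hv⟩
        have h3 : ‖((T (T.symm ⟨v, hv⟩ - lc e a) : closedSpan 𝕜 (fun k => lc e (y k))) : X)‖ ≤
            C1 * ‖T.symm ⟨v, hv⟩ - lc e a‖ := hT1 _
        have h4 : v - lc u a =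
            ((T (T.symm ⟨v, hv⟩ - lc e a) : closedSpan 𝕜 (fun k => lc e (y k))) : X) +
            (((T (lc e a) : closedSpan 𝕜 (fun k => lc e (y k))) : X) - lc u a) := by
          rw [map_sub, Submodule.coe_sub, ContinuousLinearEquiv.apply_symm_apply]
          abel
        have h5 := hsmall a
        have h6 : ‖lc e a‖ ≤ ‖T.symm ⟨v, hv⟩‖ + ‖v‖ / (8 * C1) := by
          have h7 := norm_sub_norm_le (lc e a) (T.symm ⟨v, hv⟩)
          rw [norm_sub_rev] at h7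
          linarith
        have h8 : C1 * (‖v‖ / (8 * C1)) = ‖v‖ / 8 := by field_simp
        have h9 : ‖v‖ / (8 * C1) ≤ ‖v‖ / 8 := by
          apply div_le_div_of_nonneg_left hvn.le (by norm_num)
          linarith
        rw [h4]
        calc _ ≤ ‖((T (T.symm ⟨v, hv⟩ - lc e a) : closedSpan 𝕜 (fun k => lc e (y k))) : X)‖ +
              ‖((T (lc e a) : closedSpan 𝕜 (fun k => lc e (y k))) : X) - lc u a‖ :=
              norm_add_le _ _
          _ ≤ C1 * (‖v‖ / (8 * C1)) + κ * (C1 * ‖v‖ + ‖v‖ / (8 * C1)) := by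
              apply add_le_add
              · exact h3.trans (by gcongr)
              · exact h5.trans (by gcongr; linarith)
          _ = ‖v‖ / 8 + (C1 * κ) * ‖v‖ + κ * (‖v‖ / (8 * C1)) := by rw [h8]; ring
          _ ≤ ‖v‖ / 8 + 1 / 4 * ‖v‖ + 1 / 4 * (‖v‖ / 8) := by
              rw [hκC]
              gcongr
          _ ≤ 1 / 2 * ‖v‖ := by linarith
    intro j
    exact hle (self_mem_closedSpan (fun k => lc e (y k)) j)

end Run7.h157
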