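import Mathlib
import Pool.Agent.Run7.h157.Net2

/-!
Good positions for isomorphisms.
-/

noncomputable section

namespace Run7.h157

open Set Filter Topology Finsupp

variable {𝕜 : Type*} [RCLike 𝕜] {X : Type*} [NormedAddCommGroup X] [NormedSpace 𝕜 X]

/-- good positions -/
def Good2 (Lam Gam : ℕ → ℕ → Finset 𝕜) (e : ℕ → X) (C : ℝ) (k l : ℕ) (q V : ℕ → ℕ →₀ 𝕜) : Prop :=
  ∀ M : ℕ → ℕ, ∃ y U : ℕ → ℕ →₀ 𝕜, (∀ j, j < k → y j = q j) ∧ (∀ i, i < l → U i = V i) ∧
    Wit Lam Gam e C y U ∧ ∀ j, k ≤ j → Beyond (M (prevTop y j)) (y j)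

variable {Lam Gam : ℕ → ℕ → Finset 𝕜} {e : ℕ → X} {C : ℝ}

theorem Good2.congr {k l : ℕ} {q V q' V' : ℕ → ℕ →₀ 𝕜} (h : Good2 Lam Gam e C k l q V)
    (hq : ∀ j, j < k → q j = q' j) (hV : ∀ i, i < l → V i = V' i) :
    Good2 Lam Gam e C k l q' V' := by
  intro M
  obtain ⟨y, U, hy, hU, h2⟩ := h M
  exact ⟨y, U, fun j hj => (hy j hj).trans (hq j hj), fun i hi => (hU i hi).trans (hV i hi), h2⟩

/-- truncation of a sequence -/
def trunc (k : ℕ) (y : ℕ → ℕ →₀ 𝕜) : ℕ → ℕ →₀ 𝕜 := fun j => if j < k then y j else 0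

theorem trunc_of_lt {k j : ℕ} (h : j < k) (y : ℕ → ℕ →₀ 𝕜) : trunc k y j = y j := if_pos h

theorem trunc_of_le {k j : ℕ} (h : k ≤ j) (y : ℕ → ℕ →₀ 𝕜) : trunc k y j = 0 :=
  if_neg (not_lt.mpr h)

/-- netted truncated sequences with all tops at most `n` -/
def netSet (Lam : ℕ → ℕ → Finset 𝕜) (n : ℕ) : Set (ℕ → ℕ →₀ 𝕜) :=
  {q | (∀ j, j < n → q j = 0 ∨ ((∀ i, q j i ∈ Lam j i) ∧ top (q j) ≤ n)) ∧ ∀ j, n ≤ j → q j = 0}

theorem finite_netSet (Lam : ℕ → ℕ → Finset 𝕜) (n : ℕ) : (netSet Lam n).Finite := by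
  have h1 : (Set.pi Set.univ (fun j : Fin n =>
      ({0} ∪ {v : ℕ →₀ 𝕜 | (∀ i, v i ∈ Lam j i) ∧ top v ≤ n} : Set (ℕ →₀ 𝕜)))).Finite :=
    Set.Finite.pi' (fun j : Fin n => (Set.finite_singleton _).union (finite_net Lam j n))
      |>.subset (by
      intro f hf i
      exact hf i (Set.mem_univ _))
  refine Set.Finite.of_injOn (f := fun q : ℕ → ℕ →₀ 𝕜 => fun j : Fin n => q j) ?_ ?_ h1
  · intro q hq j _
    rcases hq.1 j j.2 with h | h
    · exact Or.inl h
    · exact Or.inr h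
  · intro q hq q' hq' hqq
    funext j
    by_cases hj : j < n
    · exact congrFun hqq ⟨j, hj⟩
    · rw [hq.2 j (not_lt.mp hj), hq'.2 j (not_lt.mp hj)]

/-- the finite sets of positions with all data bounded by `n` -/
def posSet (Lam Gam : ℕ → ℕ → Finset 𝕜) (n : ℕ) :
    Set (ℕ × ℕ × (ℕ → ℕ →₀ 𝕜) × (ℕ → ℕ →₀ 𝕜)) :=
  Set.Iic n ×ˢ (Set.Iic n ×ˢ (netSet Lam n ×ˢ netSet Gam n))

theorem finite_posSet (Lam Gam : ℕ → ℕ → Finset 𝕜) (n : ℕ) : (posSet Lam Gam n).Finite :=
  (Set.finite_Iic n).prod ((Set.finite_Iic n).prod ((finite_netSet Lam n).prod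
    (finite_netSet Gam n)))

theorem lc_lc_congr {y y' U U' : ℕ → ℕ →₀ 𝕜} {a : ℕ →₀ 𝕜} {k l : ℕ}
    (hy : ∀ j, j < k → y j = y' j) (hU : ∀ i, i < l → U i = U' i) (ha : top a ≤ l)
    (hk : ∀ i, i < l → top (U i) ≤ k) : lc y (lc U a) = lc y' (lc U' a) := by
  have h1 : lc U a = lc U' a := lc_congr (fun i hi => hU i ((lt_top hi).trans_le ha))
  rw [← h1]
  apply lc_congr
  intro j hj
  apply hy
  rw [Finsupp.mem_support_iff] at hj
  have h2 : ∃ i ∈ a.support, U i j ≠ 0 := by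
    by_contra hcon
    push Not at hcon
    apply hj
    simp only [lc, Finsupp.linearCombination_apply, Finsupp.sum, Finsupp.finsetSum_apply,
        Finsupp.smul_apply, smul_eq_mul]
    exact Finset.sum_eq_zero (fun i hi => by rw [hcon i hi, mul_zero])
  obtain ⟨i, hi, hij⟩ := h2
  exact (lt_top (Finsupp.mem_support_iff.mpr hij)).trans_le (hk i ((lt_top hi).trans_le ha))

theorem Good2.extend {k l : ℕ} {q V : ℕ → ℕ →₀ 𝕜} (h : Good2 Lam Gam e C k l q V) (N r : ℕ) :
    ∃ (k' l' : ℕ) (q' V' : ℕ → ℕ →₀ 𝕜), k < k' ∧ l < l' ∧ (∀ i, i < l' → top (V' i) ≤ k') ∧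
      (∀ j, j < k → q' j = q j) ∧ (∀ i, i < l → V' i = V i) ∧
      (∀ j, k ≤ j → j < k' → Beyond N (q' j)) ∧ Good2 Lam Gam e C k' l' q' V' ∧
      ∀ j, j < k → ∃ a : ℕ →₀ 𝕜, top a ≤ l' ∧
        ‖lc e (q' j) - lc e (lc q' (lc V' a))‖ ≤ (1 / 2) ^ r := by
  classical
  have h1 : ∀ t : ℕ × ℕ × (ℕ → ℕ →₀ 𝕜) × (ℕ → ℕ →₀ 𝕜), ∃ M : ℕ → ℕ,
      Good2 Lam Gam e C t.1 t.2.1 t.2.2.1 t.2.2.2 ∨
      ¬ ∃ y U : ℕ → ℕ →₀ 𝕜, (∀ j, j < t.1 → y j = t.2.2.1 j) ∧
        (∀ i, i < t.2.1 → U i = t.2.2.2 i) ∧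
        Wit Lam Gam e C y U ∧ ∀ j, t.1 ≤ j → Beyond (M (prevTop y j)) (y j) := by
    intro t
    by_cases hg : Good2 Lam Gam e C t.1 t.2.1 t.2.2.1 t.2.2.2
    · exact ⟨id, Or.inl hg⟩
    · have hg' := hg
      unfold Good2 at hg'
      obtain ⟨M, hM⟩ := not_forall.mp hg'
      exact ⟨M, Or.inr hM⟩
  choose M hM using h1
  let D : ℕ → ℕ := fun n => N + ∑ t ∈ (finite_posSet Lam Gam n).toFinset, M t n
  obtain ⟨y, U, hyq, hUV, hW, hyD⟩ := h D
  have hd : ∀ j, ∃ a : ℕ →₀ 𝕜, ‖lc e (y j) - lc (fun i => lc e (lc y (U i))) a‖ < (1 / 2) ^ r :=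
    fun j => (mem_closedSpan_iff _ _).mp (hW.dens j) _ (by positivity)
  choose a ha using hd
  set l' : ℕ := max (l + 1) ((Finset.range k).sup (fun j => top (a j))) with hl'
  set k' : ℕ := max (max (k + 1) l') ((Finset.range l').sup (fun i => top (U i))) with hk'
  have hkk' : k < k' := by
    have := (le_max_left (k + 1) l').trans (le_max_left _ ((Finset.range l').sup (fun i => top (U i))))
    omega
  have hl'k' : l' ≤ k' := (le_max_right (k + 1) l').trans (le_max_left _ _)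
  have hll' : l < l' := by
    have := le_max_left (l + 1) ((Finset.range k).sup (fun j => top (a j)))
    omega
  have htopa : ∀ j, j < k → top (a j) ≤ l' := fun j hj =>
    (Finset.le_sup (f := fun j => top (a j)) (Finset.mem_range.mpr hj)).trans (le_max_right _ _)
  have htopU : ∀ i, i < l' → top (U i) ≤ k' := fun i hi =>
    (Finset.le_sup (f := fun i => top (U i)) (Finset.mem_range.mpr hi)).trans (le_max_right _ _)
  rcases hM (k', l', trunc k' y, trunc l' U) with hgood | hbad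
  · refine ⟨k', l', trunc k' y, trunc l' U, hkk', hll', ?_, ?_, ?_, ?_, hgood, ?_⟩
    · intro i hi
      rw [trunc_of_lt hi]
      exact htopU i hi
    · intro j hj
      rw [trunc_of_lt (by omega)]
      exact hyq j hj
    · intro i hi
      rw [trunc_of_lt (by omega)]
      exact hUV i hi
    · intro j hj1 hj2
      rw [trunc_of_lt hj2]
      exact (hyD j hj1).mono (by simp only [D]; omega)
    · intro j hj
      refine ⟨a j, htopa j hj, ?_⟩
      rw [trunc_of_lt (by omega)]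
      have h2 := lc_lc_congr (y := y) (y' := trunc k' y) (U := U) (U' := trunc l' U) (a := a j)
        (fun i hi => (trunc_of_lt hi y).symm) (fun i hi => (trunc_of_lt hi U).symm)
        (htopa j hj) htopU
      rw [← h2, lc_lc y U, lc_lc e]
      exact (ha j).le
  · exfalso
    apply hbad
    refine ⟨y, U, fun j hj => (trunc_of_lt hj y).symm, fun i hi => (trunc_of_lt hi U).symm, hW, ?_⟩
    intro j hj
    simp only at hj
    apply (hyD j (by omega)).mono
    have hn : k' ≤ prevTop y j := by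
      have := hW.block.strictMono.le_apply (x := j)
      omega
    have hmem : (k', l', trunc k' y, trunc l' U) ∈
        (finite_posSet Lam Gam (prevTop y j)).toFinset := by
      rw [Set.Finite.mem_toFinset]
      refine ⟨hn, hl'k'.trans hn, ⟨?_, ?_⟩, ⟨?_, ?_⟩⟩
      · intro i _
        by_cases hik : i < k'
        · right
          simp only [trunc_of_lt hik]
          refine ⟨hW.memy i, ?_⟩
          have : prevTop y (i + 1) ≤ prevTop y j := hW.block.strictMono.monotone (by omega)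
          exact this
        · left
          exact trunc_of_le (not_lt.mp hik) y
      · intro i hi
        exact trunc_of_le (by omega) y
      · intro i _
        by_cases hik : i < l'
        · right
          simp only [trunc_of_lt hik]
          exact ⟨hW.memU i, (htopU i hik).trans hn⟩
        · left
          exact trunc_of_le (not_lt.mp hik) U
      · intro i hi
        exact trunc_of_le (by omega) U
    have h3 : M (k', l', trunc k' y, trunc l' U) (prevTop y j) ≤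
        ∑ t ∈ (finite_posSet Lam Gam (prevTop y j)).toFinset, M t (prevTop y j) :=
      Finset.single_le_sum (f := fun t => M t (prevTop y j)) (fun i _ => Nat.zero_le _) hmem
    simp only [D]
    omega

end Run7.h157
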