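import Mathlib
import Pool.Agent.Run7.h157.Good2

/-!
The category argument for isomorphisms: generic block sequences have subsequences spanning `X`.
-/

noncomputable section

namespace Run7.h157

open Set Filter Topology Finsupp

variable {𝕜 : Type*} [RCLike 𝕜] {X : Type*} [NormedAddCommGroup X] [NormedSpace 𝕜 X]

theorem exists_coef' {e : ℕ → X} (he : Function.Injective (lc (𝕜 := 𝕜) e)) {Q : Subfield 𝕜}
    (x : BlockSpace e Q) :
    ∃ c : ℕ → ℕ →₀ 𝕜, IsBlock c ∧ (∀ k i, c k i ∈ Q) ∧ ∀ k, x.seq k = lc e (c k) := by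
  obtain ⟨c, hc0, hcs, hcx⟩ := x.2
  refine ⟨c, ?_, ?_, hcx⟩
  · intro k
    refine ⟨hc0 k, ?_⟩
    cases k with
    | zero => intro i _; exact Nat.zero_le _
    | succ k =>
      intro j hj
      exact top_le (fun i hi => hcs k i hi j hj)
  · intro k i
    obtain ⟨c', hc', hc2⟩ := (x.1 k).2.2
    have : c k = c' := he ((hcx k).symm.trans hc2)
    rw [this]
    exact hc' i

theorem isOpen_of_agree {e : ℕ → X} {Q : Subfield 𝕜} {U : Set (BlockSpace e Q)}
    (h : ∀ x ∈ U, ∃ m : ℕ, ∀ x' : BlockSpace e Q, (∀ j, j < m → x'.1 j = x.1 j) → x' ∈ U) :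
    IsOpen U := by
  rw [isOpen_iff_forall_mem_open]
  intro x hx
  obtain ⟨m, hm⟩ := h x hx
  refine ⟨⋂ j ∈ Finset.range m, (fun x' : BlockSpace e Q => x'.1 j) ⁻¹' {x.1 j}, ?_, ?_, ?_⟩
  · intro x' hx'
    apply hm
    intro j hj
    simp only [mem_iInter, mem_preimage, mem_singleton_iff, Finset.mem_range] at hx'
    exact hx' j hj
  · apply isOpen_biInter_finset
    intro j _
    apply (isOpen_discrete _).preimage
    have h1 : Continuous (fun x : BlockSpace e Q => x.1) :=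
      (show Topology.IsInducing (fun x : BlockSpace e Q => x.1) from ⟨rfl⟩).continuous
    exact (continuous_apply j).comp h1
  · simp

theorem splice {e : ℕ → X} (he : Function.Injective (lc (𝕜 := 𝕜) e)) {Q : Subfield 𝕜}
    (hQ : IsAdmissible e Q) (x0 : BlockSpace e Q) {c0 : ℕ → ℕ →₀ 𝕜} (hc0 : IsBlock c0)
    (hc0Q : ∀ k i, c0 k i ∈ Q) (hc0x : ∀ k, x0.seq k = lc e (c0 k)) (n k : ℕ)
    {y : ℕ → ℕ →₀ 𝕜} (hy : IsBlock y) (hyQ : ∀ k i, y k i ∈ Q)
    (hB : Beyond (prevTop c0 n) (y k)) :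
    ∃ x : BlockSpace e Q, (∀ j, j < n → x.1 j = x0.1 j) ∧
      ∀ i, (x.1 (n + i)).1 = lc e (normVec e (y (k + i))) := by
  classical
  have hyne : ∀ j, lc e (y j) ≠ 0 := by
    intro j h0
    apply (hy j).1
    apply he
    rw [h0, map_zero]
  let c : ℕ → ℕ →₀ 𝕜 := fun j => if j < n then c0 j else normVec e (y (k + (j - n)))
  have hc1 : ∀ j, j < n → c j = c0 j := fun j hj => if_pos hj
  have hc2 : ∀ j, n ≤ j → c j = normVec e (y (k + (j - n))) := fun j hj => if_neg (not_lt.mpr hj)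
  have hcQ : ∀ j i, c j i ∈ Q := by
    intro j i
    by_cases hj : j < n
    · rw [hc1 j hj]; exact hc0Q j i
    · rw [hc2 j (not_lt.mp hj)]; exact normVec_mem hQ (hyQ _) i
  have hcn : ∀ j, ‖lc e (c j)‖ = 1 := by
    intro j
    by_cases hj : j < n
    · rw [hc1 j hj, ← hc0x j]; exact (x0.1 j).2.1
    · rw [hc2 j (not_lt.mp hj)]; exact norm_normVec (hyne _)
  have hc00 : ∀ j, c j ≠ 0 := by
    intro j h0
    have := hcn j
    rw [h0, map_zero, norm_zero] at this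
    exact zero_ne_one this
  have hcB : IsBlock c := by
    intro j
    refine ⟨hc00 j, ?_⟩
    rcases lt_trichotomy j n with hj | hj | hj
    · have hprev : prevTop c j = prevTop c0 j := by
        cases j with
        | zero => rfl
        | succ j => rw [prevTop_succ, prevTop_succ, hc1 j (by omega)]
      rw [hc1 j hj, hprev]
      exact (hc0 j).2
    · subst hj
      have hprev : prevTop c j = prevTop c0 j := by
        cases j with
        | zero => rfl
        | succ j => rw [prevTop_succ, prevTop_succ, hc1 j (by omega)]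
      rw [hc2 j le_rfl, hprev, Nat.sub_self, Nat.add_zero]
      intro i hi
      exact hB i (support_normVec hi)
    · obtain ⟨j', rfl⟩ : ∃ j', j = j' + 1 := ⟨j - 1, by omega⟩
      rw [prevTop_succ, hc2 (j' + 1) hj.le, hc2 j' (by omega)]
      intro i hi
      have h1 := (hy (k + (j' + 1 - n))).2 i (support_normVec hi)
      have h2 : k + (j' + 1 - n) = (k + (j' - n)) + 1 := by omega
      rw [h2, prevTop_succ] at h1
      exact (top_mono support_normVec).trans h1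
  refine ⟨⟨fun j => mkQ (c j) (hcQ j) (hcn j), isBlockSeq_of_isBlock hcB⟩, ?_, ?_⟩
  · intro j hj
    apply Subtype.ext
    change lc e (c j) = (x0.1 j).1
    rw [hc1 j hj, ← hc0x j]
    rfl
  · intro i
    change lc e (c (n + i)) = _
    rw [hc2 (n + i) (Nat.le_add_right _ _), Nat.add_sub_cancel_left]

variable {Lam Gam : ℕ → ℕ → Finset 𝕜} {C K : ℝ} {e : ℕ → X} {Q : Subfield 𝕜}

/-- the tasks -/
def TaskSet2 (Lam Gam : ℕ → ℕ → Finset 𝕜) (C : ℝ) (e : ℕ → X) (Q : Subfield 𝕜)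
    (k l : ℕ) (q V : ℕ → ℕ →₀ 𝕜) (N r : ℕ) : Set (BlockSpace e Q) :=
  {x | ∃ n, N ≤ n ∧ ∃ (k' l' : ℕ) (q' V' : ℕ → ℕ →₀ 𝕜), k < k' ∧ l < l' ∧
      (∀ i, i < l' → top (V' i) ≤ k') ∧
      (∀ j, j < k → q' j = q j) ∧ (∀ i, i < l → V' i = V i) ∧ Good2 Lam Gam e C k' l' q' V' ∧
      (∀ j, j < k → ∃ a : ℕ →₀ 𝕜, top a ≤ l' ∧
        ‖lc e (q' j) - lc e (lc q' (lc V' a))‖ ≤ (1 / 2) ^ r) ∧
      ∀ i, k + i < k' → (x.1 (n + i)).1 = lc e (normVec e (q' (k + i)))}

theorem isOpen_taskSet2 (k l : ℕ) (q V : ℕ → ℕ →₀ 𝕜) (N r : ℕ) :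
    IsOpen (TaskSet2 Lam Gam C e Q k l q V N r) := by
  apply isOpen_of_agree
  rintro x ⟨n, hn, k', l', q', V', h1, h2, h3, h4, h5, h6, h7, h8⟩
  refine ⟨n + k', ?_⟩
  intro x' hx'
  refine ⟨n, hn, k', l', q', V', h1, h2, h3, h4, h5, h6, h7, ?_⟩
  intro i hi
  rw [hx' (n + i) (by omega)]
  exact h8 i hi

theorem dense_taskSet2 (he : BasicSeq 𝕜 K e) (hQ : IsAdmissible e Q)
    (hLam : ∀ k i, ∀ x ∈ Lam k i, x ∈ Q) {k l : ℕ} {q V : ℕ → ℕ →₀ 𝕜}
    (hq : Good2 Lam Gam e C k l q V) (N r : ℕ) :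
    Dense (TaskSet2 Lam Gam C e Q k l q V N r) := by
  apply dense_of_agree
  intro x0 m
  obtain ⟨c0, hc0, hc0Q, hc0x⟩ := exists_coef' he.lc_injective x0
  set n := max N m with hn
  obtain ⟨k', l', q', V', h1, h2, h3, h4, h5, h6, h7, h8⟩ := hq.extend (prevTop c0 n) r
  obtain ⟨y, U, hyq, _, hW, _⟩ := h7 id
  obtain ⟨x, hx1, hx2⟩ := splice he.lc_injective hQ x0 hc0 hc0Q hc0x n k hW.block
    (fun j i => hLam j i _ (hW.memy j i)) (by
      rw [hyq k h1]
      exact h6 k le_rfl h1)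
  refine ⟨x, ⟨n, le_max_left _ _, k', l', q', V', h1, h2, h3, h4, h5, h7, h8, ?_⟩, ?_⟩
  · intro i hi
    rw [hx2 i, hyq (k + i) hi]
  · intro j hj
    exact hx1 j (hj.trans_le (le_max_right _ _))

/-- the generic property -/
def Tasks2 (Lam Gam : ℕ → ℕ → Finset 𝕜) (C : ℝ) (x : BlockSpace e Q) : Prop :=
  ∀ (k l : ℕ) (w : Fin k → EQ Q) (v : Fin l → EQ Q) (N r : ℕ),
      Good2 Lam Gam e C k l (extQ w) (extQ v) →
      x ∈ TaskSet2 Lam Gam C e Q k l (extQ w) (extQ v) N r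

theorem eventually_tasks2 (he : BasicSeq 𝕜 K e) (hQ : IsAdmissible e Q)
    (hLam : ∀ k i, ∀ x ∈ Lam k i, x ∈ Q) :
    ∀ᶠ x in residual (BlockSpace e Q), Tasks2 Lam Gam C x := by
  have := countable_EQ hQ.countable
  unfold Tasks2
  simp only [eventually_countable_forall]
  intro k l w v N r h
  exact residual_of_dense_open (isOpen_taskSet2 _ _ _ _ _ _) (dense_taskSet2 he hQ hLam h N r)

theorem limit_agree {α : Type*} (f : ℕ → ℕ → α) {k : ℕ → ℕ} (hk : StrictMono k)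
    (h : ∀ t j, j < k t → f (t + 1) j = f t j) : ∃ g : ℕ → α, ∀ t j, j < k t → g j = f t j := by
  have hstab : ∀ t d j, j < k t → f (t + d) j = f t j := by
    intro t d j hj
    induction d with
    | zero => rfl
    | succ d ih =>
      rw [← ih]
      exact h (t + d) j (hj.trans_le (hk.monotone (Nat.le_add_right _ _)))
  have hkk : ∀ t, t ≤ k t := fun t => hk.le_apply
  refine ⟨fun j => f (j + 1) j, ?_⟩
  intro t j hj
  rcases le_total (j + 1) t with h1 | h1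
  · obtain ⟨d, rfl⟩ := Nat.exists_eq_add_of_le h1
    exact (hstab (j + 1) d j (hkk (j + 1))).symm
  · obtain ⟨d, hd⟩ := Nat.exists_eq_add_of_le h1
    change f (j + 1) j = _
    rw [hd]
    exact hstab t d j hj

/-- states of the construction -/
structure St (Lam Gam : ℕ → ℕ → Finset 𝕜) (C : ℝ) (x : BlockSpace e Q) where
  k : ℕ
  l : ℕ
  q : ℕ → ℕ →₀ 𝕜
  V : ℕ → ℕ →₀ 𝕜
  ind : ℕ → ℕ
  N : ℕ
  good : Good2 Lam Gam e C k l q V
  topV : ∀ i, i < l → top (V i) ≤ k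
  lt : ∀ j, j < k → ind j < N
  mono : ∀ j j', j < j' → j' < k → ind j < ind j'
  mat : ∀ j, j < k → (x.1 (ind j)).1 = lc e (normVec e (q j))

theorem exists_step (hLam : ∀ k i, ∀ x ∈ Lam k i, x ∈ Q) (hGam : ∀ k i, ∀ x ∈ Gam k i, x ∈ Q)
    {x : BlockSpace e Q} (hx : Tasks2 Lam Gam C x) (r : ℕ) (s : St Lam Gam C x) :
    ∃ s' : St Lam Gam C x, s.k < s'.k ∧ s.l < s'.l ∧ (∀ j, j < s.k → s'.q j = s.q j) ∧
      (∀ j, j < s.k → s'.ind j = s.ind j) ∧ (∀ i, i < s.l → s'.V i = s.V i) ∧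
      ∀ j, j < s.k → ∃ a : ℕ →₀ 𝕜, top a ≤ s'.l ∧
        ‖lc e (s'.q j) - lc e (lc s'.q (lc s'.V a))‖ ≤ (1 / 2) ^ r := by
  classical
  obtain ⟨y, U, hy, hU, hW, _⟩ := s.good id
  let w : Fin s.k → EQ Q := fun i => ⟨s.q i, fun j => by
    rw [← hy i i.2]; exact hLam _ _ _ (hW.memy i j)⟩
  let v : Fin s.l → EQ Q := fun i => ⟨s.V i, fun j => by
    rw [← hU i i.2]; exact hGam _ _ _ (hW.memU i j)⟩
  have hw : ∀ j, j < s.k → s.q j = extQ w j := by
    intro j hj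
    simp only [extQ, dif_pos hj, w]
  have hv : ∀ j, j < s.l → s.V j = extQ v j := by
    intro j hj
    simp only [extQ, dif_pos hj, v]
  obtain ⟨n, hn, k', l', q', V', h1, h2, h3, h4, h5, h6, h7, h8⟩ :=
    hx s.k s.l w v s.N r (s.good.congr hw hv)
  refine ⟨⟨k', l', q', V', fun j => if j < s.k then s.ind j else n + (j - s.k), n + (k' - s.k),
    h6, h3, ?_, ?_, ?_⟩, h1, h2, ?_, ?_, ?_, h7⟩
  · intro j hj
    by_cases hjk : j < s.k
    · simp only [if_pos hjk]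
      have := s.lt j hjk
      omega
    · simp only [if_neg hjk]
      omega
  · intro j j' hjj hj'
    by_cases hjk' : j' < s.k
    · have hjk : j < s.k := by omega
      simp only [if_pos hjk, if_pos hjk']
      exact s.mono j j' hjj hjk'
    · by_cases hjk : j < s.k
      · simp only [if_pos hjk, if_neg hjk']
        have := s.lt j hjk
        omega
      · simp only [if_neg hjk, if_neg hjk']
        omega
  · intro j hj
    by_cases hjk : j < s.k
    · simp only [if_pos hjk]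
      rw [s.mat j hjk, h4 j hjk, hw j hjk]
    · simp only [if_neg hjk]
      have := h8 (j - s.k) (by omega)
      rw [this]
      congr 3
      omega
  · intro j hj
    exact (h4 j hj).trans (hw j hj).symm
  · intro j hj
    simp only [if_pos hj]
  · intro i hi
    exact (h5 i hi).trans (hv i hi).symm

theorem isoC_of_seqEquivWith [CompleteSpace X] {u : ℕ → X}
    (hspan : ∀ (x : X) (ε : ℝ), 0 < ε → ∃ a : ℕ →₀ 𝕜, ‖x - lc e a‖ < ε)
    (h : SeqEquivWith 𝕜 C u e) : IsoC 𝕜 C u := by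
  have := completeSpace_closedSpan (𝕜 := 𝕜) u
  have hd1 : DenseRange (lc (𝕜 := 𝕜) e) := by
    intro x
    rw [Metric.mem_closure_iff]
    intro ε hε
    obtain ⟨a, ha⟩ := hspan x ε hε
    exact ⟨_, ⟨a, rfl⟩, by rwa [dist_eq_norm]⟩
  obtain ⟨e2, he2, hd2⟩ : ∃ e2 : (ℕ →₀ 𝕜) →ₗ[𝕜] closedSpan 𝕜 u, (∀ a, ‖e2 a‖ = ‖lc u a‖) ∧
    DenseRange e2 := ⟨(lc u).codRestrict (closedSpan 𝕜 u) (lc_mem_closedSpan u), fun _ => rfl,
      denseRange_closedSpan u⟩
  have h1 : ∀ a : ℕ →₀ 𝕜, ‖e2 ((LinearEquiv.refl 𝕜 (ℕ →₀ 𝕜)) a)‖ ≤ C * ‖lc e a‖ := by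
    intro a
    rw [LinearEquiv.refl_apply, he2]
    exact (h a).1
  have h2 : ∀ a : ℕ →₀ 𝕜, ‖lc e ((LinearEquiv.refl 𝕜 (ℕ →₀ 𝕜)).symm a)‖ ≤ C * ‖e2 a‖ := by
    intro a
    rw [he2, LinearEquiv.refl_symm, LinearEquiv.refl_apply]
    exact (h a).2
  exact ⟨(LinearEquiv.refl 𝕜 (ℕ →₀ 𝕜)).extend (lc e) e2 hd1 ⟨C, h1⟩ hd2 ⟨C, h2⟩,
    LinearEquiv.norm_extend_le (LinearEquiv.refl 𝕜 (ℕ →₀ 𝕜)) (lc e) e2 C hd1 h1 hd2 ⟨C, h2⟩,
    LinearEquiv.norm_extend_symm_le (LinearEquiv.refl 𝕜 (ℕ →₀ 𝕜)) (lc e) e2 C hd1 ⟨C, h1⟩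
      hd2 h2⟩

theorem exists_subseq_iso [CompleteSpace X] (he : BasicSeq 𝕜 K e)
    (hspan : ∀ (x : X) (ε : ℝ), 0 < ε → ∃ a : ℕ →₀ 𝕜, ‖x - lc e a‖ < ε)
    (hLam : ∀ k i, ∀ x ∈ Lam k i, x ∈ Q) (hGam : ∀ k i, ∀ x ∈ Gam k i, x ∈ Q)
    (hG0 : Good2 Lam Gam e C 0 0 (fun _ => 0) (fun _ => 0))
    {x : BlockSpace e Q} (hx : Tasks2 Lam Gam C x) :
    ∃ n : ℕ → ℕ, StrictMono n ∧ IsoC 𝕜 C (fun j => x.seq (n j)) := by
  classical
  choose next h1 h2 h3 h4 h5 h6 using exists_step hLam hGam hx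
  let s0 : St Lam Gam C x := ⟨0, 0, fun _ => 0, fun _ => 0, fun _ => 0, 0, hG0,
    fun i hi => absurd hi (Nat.not_lt_zero _), fun i hi => absurd hi (Nat.not_lt_zero _),
    fun i j _ hj => absurd hj (Nat.not_lt_zero _), fun i hi => absurd hi (Nat.not_lt_zero _)⟩
  let s : ℕ → St Lam Gam C x := fun t => Nat.rec s0 (fun t s => next t s) t
  have hs : ∀ t, s (t + 1) = next t (s t) := fun t => rfl
  have hkm : StrictMono (fun t => (s t).k) := strictMono_nat_of_lt_succ (fun t => by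
    rw [hs]; exact h1 t (s t))
  have hlm : StrictMono (fun t => (s t).l) := strictMono_nat_of_lt_succ (fun t => by
    rw [hs]; exact h2 t (s t))
  obtain ⟨y, hy⟩ := limit_agree (fun t => (s t).q) hkm (fun t j hj => by
    rw [hs]; exact h3 t (s t) j hj)
  obtain ⟨n, hn⟩ := limit_agree (fun t => (s t).ind) hkm (fun t j hj => by
    rw [hs]; exact h4 t (s t) j hj)
  obtain ⟨U, hU⟩ := limit_agree (fun t => (s t).V) hlm (fun t j hj => by
    rw [hs]; exact h5 t (s t) j hj)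
  have hkk : ∀ t, t ≤ (s t).k := fun t => hkm.le_apply
  have hll : ∀ t, t ≤ (s t).l := fun t => hlm.le_apply
  have hnmono : StrictMono n := strictMono_nat_of_lt_succ (fun j => by
    have h7 : j + 1 < (s (j + 2)).k := by have := hkk (j + 2); omega
    rw [hn (j + 2) j (by omega), hn (j + 2) (j + 1) h7]
    exact (s (j + 2)).mono j (j + 1) (Nat.lt_succ_self j) h7)
  refine ⟨n, hnmono, ?_⟩
  -- comparison of combinations
  have hcomp : ∀ t (a : ℕ →₀ 𝕜), top a ≤ (s t).l →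
      lc y (lc U a) = lc (s t).q (lc (s t).V a) := by
    intro t a ha
    refine (lc_lc_congr (k := (s t).k) (l := (s t).l) (fun j hj => (hy t j hj).symm)
      (fun i hi => (hU t i hi).symm) ha (s t).topV).symm
  set u : ℕ → X := fun i => lc e (lc y (U i)) with hu
  have hu' : ∀ i, u i = lc (fun k => lc e (y k)) (U i) := fun i => by
    simp only [hu]; rw [lc_lc]
  have hlu : ∀ a : ℕ →₀ 𝕜, lc u a = lc e (lc y (lc U a)) := by
    intro a
    rw [lc_lc y U a, lc_lc e]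
  have hSE : SeqEquivWith 𝕜 C u e := by
    intro a
    obtain ⟨y', U', hy', hU', hW, _⟩ := (s (top a)).good id
    have h7 : lc y (lc U a) = lc y' (lc U' a) := by
      rw [hcomp (top a) a (hll _)]
      exact lc_lc_congr (k := (s (top a)).k) (l := (s (top a)).l)
        (fun j hj => (hy' j hj).symm) (fun i hi => (hU' i hi).symm) (hll _) (s (top a)).topV
    change ‖lc u a‖ ≤ C * ‖lc e a‖ ∧ ‖lc e a‖ ≤ C * ‖lc u a‖
    rw [hlu, h7]
    exact hW.eqC a
  have hspaneq : closedSpan 𝕜 u = closedSpan 𝕜 (fun k => lc e (y k)) := by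
    apply le_antisymm
    · apply closedSpan_le
      intro i
      rw [hu']
      exact lc_mem_closedSpan _ _
    · apply closedSpan_le
      intro j
      rw [mem_closedSpan_iff]
      intro ε hε
      obtain ⟨r, hr⟩ := exists_pow_lt_of_lt_one hε (by norm_num : (1 / 2 : ℝ) < 1)
      set t := max r (j + 1) with ht
      have hjt : j < (s t).k := by
        have := hkk t
        have := le_max_right r (j + 1)
        omega
      obtain ⟨a, ha, hb⟩ := h6 t (s t) j hjt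
      refine ⟨a, ?_⟩
      rw [hlu, hcomp (t + 1) a ha, hy (t + 1) j (hjt.trans (hkm (Nat.lt_succ_self t)))]
      calc _ ≤ (1 / 2 : ℝ) ^ t := hb
        _ ≤ (1 / 2) ^ r := pow_le_pow_of_le_one (by norm_num) (by norm_num) (le_max_left _ _)
        _ < ε := hr
  have hyne : ∀ j, lc e (y j) ≠ 0 := by
    intro j h0
    have h7 : j < (s (j + 1)).k := by have := hkk (j + 1); omega
    obtain ⟨y', U', hy', hU', hW, _⟩ := (s (j + 1)).good id
    apply (hW.block j).1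
    apply he.injective
    rw [hy' j h7, ← hy (j + 1) j h7]
    exact h0
  have hxn : (fun j => x.seq (n j)) = fun j => (((‖lc e (y j)‖ : ℝ) : 𝕜)⁻¹) • lc e (y j) := by
    funext j
    have h7 : j < (s (j + 1)).k := by have := hkk (j + 1); omega
    have h8 := (s (j + 1)).mat j h7
    rw [← hn (j + 1) j h7, ← hy (j + 1) j h7] at h8
    unfold normVec at h8
    rw [map_smul] at h8
    exact h8
  have hspan2 : closedSpan 𝕜 (fun j => x.seq (n j)) = closedSpan 𝕜 u := by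
    rw [hspaneq, hxn]
    apply closedSpan_smul
    intro k
    apply inv_ne_zero
    have := norm_ne_zero_iff.mpr (hyne k)
    exact_mod_cast this
  have hfin : IsoC 𝕜 C u := isoC_of_seqEquivWith hspan hSE
  unfold IsoC at hfin ⊢
  rw [hspan2]
  exact hfin

end Run7.h157
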