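import Mathlib
import Pool.Agent.Run7.h157.Cat2

/-!
If every subsequence of the basis has a block sequence spanning a copy of `X` then the generic
block sequence has a subsequence spanning a `C`-copy of `X`.
-/

noncomputable section

namespace Run7.h157

open Set Filter Topology Finsupp

variable {𝕜 : Type*} [RCLike 𝕜] {X : Type*} [NormedAddCommGroup X] [NormedSpace 𝕜 X]

theorem isBlock_mapDomain {n : ℕ → ℕ} (hn : StrictMono n) {c : ℕ → ℕ →₀ 𝕜} (hc0 : ∀ k, c k ≠ 0)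
    (hcs : ∀ k, ∀ i ∈ (c k).support, ∀ j ∈ (c (k + 1)).support, i < j) :
    IsBlock (fun k => Finsupp.mapDomain n (c k)) ∧
      ∀ k, ∀ i ∈ (Finsupp.mapDomain n (c k)).support, i ∈ Set.range n := by
  classical
  have hinj := hn.injective
  have hsup : ∀ k, (Finsupp.mapDomain n (c k)).support = (c k).support.image n := fun k =>
    Finsupp.mapDomain_support_of_injective hinj _
  refine ⟨?_, ?_⟩
  · intro k
    constructor
    · intro h0
      apply hc0 k
      exact Finsupp.mapDomain_injective hinj (h0.trans Finsupp.mapDomain_zero.symm)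
    · cases k with
      | zero => intro i _; exact Nat.zero_le _
      | succ k =>
        intro j hj
        rw [prevTop_succ]
        apply top_le
        intro i hi
        rw [hsup, Finset.mem_image] at hi hj
        obtain ⟨i', hi', rfl⟩ := hi
        obtain ⟨j', hj', rfl⟩ := hj
        exact hn (hcs k i' hi' j' hj')
  · intro k i hi
    rw [hsup, Finset.mem_image] at hi
    obtain ⟨i', _, rfl⟩ := hi
    exact ⟨i', rfl⟩

theorem hypI_of {b : ℕ → X}
    (h : ∀ n : ℕ → ℕ, StrictMono n → ∃ z : ℕ → X, IsBlockSeq 𝕜 (fun k => b (n k)) z ∧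
      Nonempty (X ≃L[𝕜] closedSpan 𝕜 z)) : HypI 𝕜 b := by
  classical
  intro n hn
  obtain ⟨z, ⟨c, hc0, hcs, hcz⟩, ⟨T⟩⟩ := h n hn
  have hz : z = fun k => lc b (Finsupp.mapDomain n (c k)) := by
    funext k
    rw [hcz k]
    simp only [lc, Finsupp.linearCombination_mapDomain]
    rfl
  obtain ⟨h1, h2⟩ := isBlock_mapDomain hn hc0 hcs
  refine ⟨fun k => Finsupp.mapDomain n (c k), h1, h2,
    max ‖(T : X →L[𝕜] closedSpan 𝕜 z)‖ ‖(T.symm : closedSpan 𝕜 z →L[𝕜] X)‖, ?_⟩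
  rw [← hz]
  refine ⟨T, fun x => ?_, fun v => ?_⟩
  · exact ((T : X →L[𝕜] closedSpan 𝕜 z).le_opNorm x).trans
      (mul_le_mul_of_nonneg_right (le_max_left _ _) (norm_nonneg _))
  · exact ((T.symm : closedSpan 𝕜 z →L[𝕜] X).le_opNorm v).trans
      (mul_le_mul_of_nonneg_right (le_max_right _ _) (norm_nonneg _))

theorem basis_span (b : SchauderBasis 𝕜 X) (x : X) (ε : ℝ) (hε : 0 < ε) :
    ∃ a : ℕ →₀ 𝕜, ‖x - lc (b : ℕ → X) a‖ < ε := by
  classical
  have h1 := SchauderBasis.tendsto_proj b x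
  rw [Metric.tendsto_atTop] at h1
  obtain ⟨N, hN⟩ := h1 ε hε
  have h2 := hN N le_rfl
  rw [dist_eq_norm, norm_sub_rev, SchauderBasis.proj_apply] at h2
  refine ⟨∑ i ∈ Finset.range N, Finsupp.single i (b.coord i x), ?_⟩
  rw [map_sum]
  simp only [lc, Finsupp.linearCombination_single]
  exact h2

theorem main2 [CompleteSpace X] (b : SchauderBasis 𝕜 X)
    (h : ∀ n : ℕ → ℕ, StrictMono n → ∃ z : ℕ → X, IsBlockSeq 𝕜 (fun k => b (n k)) z ∧
      Nonempty (X ≃L[𝕜] closedSpan 𝕜 z))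
    (Q : Subfield 𝕜) (hQ : IsAdmissible (b : ℕ → X) Q) :
    ∃ C : ℝ, ∃ G ∈ residual (BlockSpace (b : ℕ → X) Q), ∀ x ∈ G,
      ∃ n : ℕ → ℕ, StrictMono n ∧
        ∃ T : X ≃L[𝕜] closedSpan 𝕜 (fun k => x.seq (n k)),
          (∀ v, ‖T v‖ ≤ C * ‖v‖) ∧ ∀ w, ‖T.symm w‖ ≤ C * ‖w‖ := by
  obtain ⟨K, he⟩ := exists_basicSeq b
  obtain ⟨C, hC, Lam, Gam, hLam, hGam, hM⟩ := exists_wit he (basis_span b) Q hQ.I_mem (hypI_of h)
  have hG0 : Good2 Lam Gam (b : ℕ → X) C 0 0 (fun _ => 0) (fun _ => 0) := by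
    intro M
    obtain ⟨y, U, hW, hy⟩ := hM M
    exact ⟨y, U, fun k hk => absurd hk (Nat.not_lt_zero _),
      fun k hk => absurd hk (Nat.not_lt_zero _), hW, fun k _ => hy k⟩
  exact ⟨C, {x | Tasks2 Lam Gam C x}, eventually_tasks2 he hQ hLam,
    fun x hx => exists_subseq_iso he (basis_span b) hLam hGam hG0 hx⟩

end Run7.h157
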