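import Mathlib
import Pool.Agent.Run7.h157.Bas

/-!
Construction of Banach spaces with a Schauder basis from a norm on the finitely supported
sequences.
-/

noncomputable section

namespace Run7.h157

open Set Filter Topology Finsupp

variable {𝕜 : Type*} [RCLike 𝕜] {X : Type*} [NormedAddCommGroup X] [NormedSpace 𝕜 X]

theorem filter_eq_self_of_top_le {a : ℕ →₀ 𝕜} {n : ℕ} (h : top a ≤ n) :
    a.filter (· < n) = a := by
  rw [Finsupp.filter_eq_self_iff]
  intro i hi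
  exact (lt_top (Finsupp.mem_support_iff.mpr hi)).trans_le h

theorem sum_range_eq_lc_filter (u : ℕ → X) (a : ℕ →₀ 𝕜) (n : ℕ) :
    ∑ i ∈ Finset.range n, a i • u i = lc u (a.filter (· < n)) := by
  classical
  simp only [lc, Finsupp.linearCombination_apply, Finsupp.sum, Finsupp.support_filter]
  rw [Finset.sum_filter]
  have h3 : ∑ i ∈ a.support, (if i < n then (a.filter (· < n)) i • u i else 0) =
      ∑ i ∈ a.support, (if i ∈ Finset.range n then a i • u i else 0) := by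
    apply Finset.sum_congr rfl
    intro i _
    by_cases hi : i < n
    · rw [if_pos hi, if_pos (Finset.mem_range.mpr hi), Finsupp.filter_apply, if_pos hi]
    · rw [if_neg hi, if_neg (by simpa using hi)]
  rw [h3, Finset.sum_ite_mem]
  symm
  apply Finset.sum_subset Finset.inter_subset_right
  intro i hi hi2
  have : i ∉ a.support := fun h => hi2 (Finset.mem_inter.mpr ⟨h, hi⟩)
  rw [Finsupp.notMem_support_iff.mp this, zero_smul]

/-- a basic sequence with dense span is a Schauder basis -/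
theorem exists_schauder [CompleteSpace X] {K : ℝ} {u : ℕ → X} (hu : BasicSeq 𝕜 K u)
    (hspan : ∀ (x : X) (ε : ℝ), 0 < ε → ∃ a : ℕ →₀ 𝕜, ‖x - lc u a‖ < ε) :
    ∃ b : SchauderBasis 𝕜 X, (b : ℕ → X) = u := by
  classical
  have hd : DenseRange (lc (𝕜 := 𝕜) u) := by
    intro x
    rw [Metric.mem_closure_iff]
    intro ε hε
    obtain ⟨a, ha⟩ := hspan x ε hε
    exact ⟨_, ⟨a, rfl⟩, by rwa [dist_eq_norm]⟩
  have hb : ∀ i, ∃ C, ∀ a : ℕ →₀ 𝕜, ‖Finsupp.lapply (R := 𝕜) i a‖ ≤ C * ‖lc u a‖ := by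
    intro i
    refine ⟨2 * K / ‖u i‖, fun a => ?_⟩
    have h1 := hu.coord a i
    have h2 : 0 < ‖u i‖ := norm_pos_iff.mpr (hu.ne_zero i)
    rw [Finsupp.lapply_apply, div_mul_eq_mul_div, le_div_iff₀ h2]
    exact h1
  set f : ℕ → X →L[𝕜] 𝕜 := fun i => (Finsupp.lapply (R := 𝕜) i).extendOfNorm (lc u) with hf
  have hfa : ∀ (i : ℕ) (a : ℕ →₀ 𝕜), f i (lc u a) = a i := by
    intro i a
    rw [hf]
    have := LinearMap.extendOfNorm_eq (f := (Finsupp.lapply (R := 𝕜) i : (ℕ →₀ 𝕜) →ₗ[𝕜] 𝕜))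
      hd (hb i) a
    rw [this, Finsupp.lapply_apply]
  set S : ℕ → X →L[𝕜] X := fun n => ∑ i ∈ Finset.range n, (f i).smulRight (u i) with hS
  have hSx : ∀ n x, S n x = ∑ i ∈ Finset.range n, f i x • u i := by
    intro n x
    simp [hS, _root_.sum_apply, ContinuousLinearMap.smulRight_apply]
  have hSa : ∀ (n : ℕ) (a : ℕ →₀ 𝕜), S n (lc u a) = lc u (a.filter (· < n)) := by
    intro n a
    rw [hSx, ← sum_range_eq_lc_filter]
    simp only [hfa]
  have hSb : ∀ n x, ‖S n x‖ ≤ K * ‖x‖ := by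
    intro n x
    refine hd.induction_on (p := fun x => ‖S n x‖ ≤ K * ‖x‖) x ?_ ?_
    · exact isClosed_le (by fun_prop) (by fun_prop)
    · intro a
      rw [hSa]
      exact hu.proj a n
  refine ⟨⟨u, f, ?_, ?_⟩, rfl⟩
  · intro i j
    have h1 : u j = lc u (Finsupp.single j (1 : 𝕜)) := by simp [lc]
    rw [h1, hfa]
    by_cases h : i = j
    · subst h; simp
    · simp [h]
  · intro x
    rw [HasSum, SummationFilter.conditional_filter_eq_map_range, tendsto_map'_iff]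
    change Tendsto (fun n => ∑ i ∈ Finset.range n, f i x • u i) atTop (𝓝 x)
    simp only [← hSx]
    rw [Metric.tendsto_atTop]
    intro ε hε
    have hK : 0 < K + 1 := by linarith [hu.one_le]
    obtain ⟨a, ha⟩ := hspan x (ε / (K + 1)) (by positivity)
    refine ⟨top a, fun n hn => ?_⟩
    rw [dist_eq_norm]
    have h1 : S n x - x = S n (x - lc u a) - (x - lc u a) := by
      rw [map_sub, hSa, filter_eq_self_of_top_le hn]
      abel
    rw [h1]
    calc _ ≤ ‖S n (x - lc u a)‖ + ‖x - lc u a‖ := norm_sub_le _ _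
      _ ≤ K * ‖x - lc u a‖ + ‖x - lc u a‖ := by gcongr; exact hSb _ _
      _ = (K + 1) * ‖x - lc u a‖ := by ring
      _ < (K + 1) * (ε / (K + 1)) := by gcongr
      _ = ε := by field_simp

/-- the completion of the finitely supported sequences with respect to a norm `N` -/
theorem exists_space.{u} {𝕜 : Type u} [RCLike 𝕜] (N : (ℕ →₀ 𝕜) → ℝ) (h0 : ∀ a, 0 ≤ N a) (h1 : ∀ (c : 𝕜) a, N (c • a) = ‖c‖ * N a)
    (h2 : ∀ a b, N (a + b) ≤ N a + N b) (h3 : ∀ a, N a = 0 → a = 0) {K : ℝ} (hK1 : 1 ≤ K)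
    (hK : ∀ a (n : ℕ), N (a.filter (· < n)) ≤ K * N a) :
    ∃ (X : Type u) (_ : NormedAddCommGroup X) (_ : NormedSpace 𝕜 X) (_ : CompleteSpace X)
      (b : SchauderBasis 𝕜 X), ∀ a : ℕ →₀ 𝕜, ‖lc b a‖ = N a := by
  let _ : Norm (ℕ →₀ 𝕜) := ⟨N⟩
  have core : NormedSpace.Core 𝕜 (ℕ →₀ 𝕜) :=
    { norm_nonneg := h0
      norm_smul := h1
      norm_triangle := h2
      norm_eq_zero_iff := fun a => ⟨h3 a, fun h => by
        have := h1 0 a
        rw [h, smul_zero, norm_zero, zero_mul] at this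
        rw [h]
        exact this⟩ }
  let _ : NormedAddCommGroup (ℕ →₀ 𝕜) := NormedAddCommGroup.ofCore core
  let _ : NormedSpace 𝕜 (ℕ →₀ 𝕜) := NormedSpace.ofCore core
  have hN : ∀ a : ℕ →₀ 𝕜, ‖a‖ = N a := fun _ => rfl
  let ι : (ℕ →₀ 𝕜) →ₗᵢ[𝕜] UniformSpace.Completion (ℕ →₀ 𝕜) := UniformSpace.Completion.toComplₗᵢ
  let u : ℕ → UniformSpace.Completion (ℕ →₀ 𝕜) := fun i => ι (Finsupp.single i 1)
  have hlc : ∀ a : ℕ →₀ 𝕜, lc u a = ι a := by
    intro a
    have h4 : a = ∑ i ∈ a.support, a i • Finsupp.single i (1 : 𝕜) := by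
      conv_lhs => rw [← Finsupp.sum_single a]
      simp [Finsupp.sum]
    conv_rhs => rw [h4]
    rw [map_sum]
    simp only [lc, Finsupp.linearCombination_apply, Finsupp.sum, map_smul, u]
  have hn : ∀ a : ℕ →₀ 𝕜, ‖lc u a‖ = N a := by
    intro a
    rw [hlc, ι.norm_map, hN]
  have hu : BasicSeq 𝕜 K u := by
    refine ⟨hK1, ?_, ?_⟩
    · intro i hi
      have h4 : (Finsupp.single i (1 : 𝕜) : ℕ →₀ 𝕜) = 0 := by
        apply h3
        rw [← hN, ← ι.norm_map]
        exact norm_eq_zero.mpr hi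
      rw [Finsupp.single_eq_zero] at h4
      exact one_ne_zero h4
    · intro a n
      rw [hn, hn]
      exact hK a n
  obtain ⟨b, hb⟩ := exists_schauder hu (by
    intro x ε hε
    have hd : DenseRange ((↑) : (ℕ →₀ 𝕜) → UniformSpace.Completion (ℕ →₀ 𝕜)) :=
      UniformSpace.Completion.denseRange_coe
    obtain ⟨y, ⟨a, rfl⟩, ha⟩ := Metric.mem_closure_iff.mp (hd x) ε hε
    refine ⟨a, ?_⟩
    rw [hlc]
    rwa [dist_eq_norm] at ha)
  refine ⟨UniformSpace.Completion (ℕ →₀ 𝕜), inferInstance, inferInstance, inferInstance, b, ?_⟩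
  intro a
  rw [hb]
  exact hn a

end Run7.h157
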